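import Pool.Agent.Lib.MP_7903c7_al.RF.Defs
import Pool.Agent.Lib.MP_7903c7_al.LS.CutPhase

set_option autoImplicit false

/-!
The cut lemma in the form used by the loop space proof.
-/

namespace Pool.Agent.Lib.MP_7903c7_al.RF

open Finset
open scoped Classical Pointwise

namespace CutB

variable {P Λ : Type} [CommRing Λ]

theorem bd_eq : bd P Λ = LS.CutCore.bd := LS.CutCore.ext1 fun l => by
  unfold bd
  rw [Finsupp.linearCombination_single, one_smul]
  split_ifs with h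
  · rw [LS.CutCore.bd_short h]
  · rw [LS.CutCore.bd_single (by omega), one_smul]

theorem eps_eq : eps P Λ = LS.CutCore.eps := LS.CutCore.ext1 fun l => by
  unfold eps
  rw [Finsupp.linearCombination_single, one_smul]
  rcases l with _ | ⟨a, _ | ⟨b, l⟩⟩ <;> simp

theorem tm_eq (T : P → P) : tm Λ T = LS.CutCore.tr T := LS.CutCore.ext1 fun l => by
  simp [tm]

theorem tm_pow (T : P → P) (n : ℕ) : tm Λ T ^ n = LS.CutCore.tr T^[n] := by
  induction n with
  | zero => exact LinearMap.ext fun x => (LS.CutCore.tr_id x).symm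
  | succ n ih =>
    refine LinearMap.ext fun x => ?_
    rw [pow_succ, Module.End.mul_apply, ih, tm_eq, LS.CutCore.tr_tr, Function.iterate_succ]

theorem dd_eq (T : P → P) (N i : ℕ) : dd (tm Λ T) N i = LS.CutCore.dd T N (i : ℤ) := by
  unfold dd LS.CutCore.dd
  simp only [Int.even_coe_nat, tm_pow]
  rw [tm_eq]; rfl

end CutB

theorem cut {P Λ ι : Type} [CommRing Λ] (T : P → P) (N : ℕ) (hN0 : 0 < N)
    (hT : ∀ v, T^[N] v = v) (hN : (N : Λ) = 0) {p J : ℕ} (hp : p.Prime) (hJ : (p : Λ) ^ J = 0)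
    (s : Finset ι) (a : ι → ℕ) (w : ι → P → ℤ) (F : ι → P → ℂ)
    (hw : ∀ i ∈ s, ∀ v, ¬ (p : ℤ) ^ (a i + 1) ∣ w i v)
    (hwT : ∀ i ∈ s, ∀ v, w i (T v) = w i v)
    (hF : ∀ i ∈ s, ∀ v, F i (T v) = ee ((w i v : ℝ) / N) * F i v)
    (x : ℕ → (List P →₀ Λ))
    (hlen : ∀ j ≤ 2 * s.card, ∀ l ∈ (x j).support, l.length = j + 1)
    (hD : ∀ j < 2 * s.card,
      bd P Λ (x (j + 1)) = (-1 : Λ) ^ (j + 1) • dd (tm Λ T) N (j + 1) (x j))
    (hgood : ∀ j ≤ 2 * s.card, ∀ l ∈ (x j).support, ∃ i ∈ s, ∀ v ∈ l, ∀ v' ∈ l,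
      w i v = w i v' ∧ 0 < (F i v * (starRingEnd ℂ) (F i v')).re) :
    (p : Λ) ^ (∑ i ∈ s, a i) * eps P Λ (x 0) = 0 := by
  rcases s.eq_empty_or_nonempty with rfl | ⟨i0, -⟩
  · have : x 0 = 0 := by
      rw [← Finsupp.support_eq_empty, Finset.eq_empty_iff_forall_notMem]
      intro l hl
      obtain ⟨i, hi, -⟩ := hgood 0 (by simp) l hl
      simp at hi
    simp [this]
  set e : ℕ → ι := fun n => if h : n < s.card then (s.equivFin.symm ⟨n, h⟩ : ι) else i0 with he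
  have hm : ∀ n < s.card, e n ∈ s := fun n hn => by
    simp only [he, dif_pos hn]; exact Subtype.property _
  have hs : ∀ i ∈ s, ∃ n < s.card, e n = i := fun i hi =>
    ⟨s.equivFin ⟨i, hi⟩, (s.equivFin ⟨i, hi⟩).2, by simp [he]⟩
  have hsum : ∑ i ∈ s, a i = ∑ n ∈ range s.card, a (e n) := by
    rw [← Finset.sum_coe_sort s, ← s.equivFin.symm.sum_comp, Finset.sum_range]
    exact Finset.sum_congr rfl fun n _ => by simp [he]
  rw [hsum, CutB.eps_eq]
  refine LS.CutCore.cut_phase hN0 (funext hT) hN hp hJ s.card (fun n => w (e n))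
    (fun n => F (e n)) (fun n => a (e n)) (fun n hn => hwT _ (hm n hn)) (fun n hn v => ?_)
    (fun n hn => hw _ (hm n hn)) x (fun j hj => ?_) (fun j hj l hl => ⟨hlen j hj l hl, ?_⟩)
  · rw [hF _ (hm n hn), ee]; congr 2; ring
  · rw [← CutB.bd_eq, ← CutB.dd_eq]; exact hD j hj
  · obtain ⟨i, hi, h⟩ := hgood j hj l hl
    obtain ⟨n, hn, rfl⟩ := hs i hi
    exact ⟨n, hn, h⟩

end Pool.Agent.Lib.MP_7903c7_al.RF
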