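import Pool.Agent.Lib.MP_7903c7_al.RF.Defs
import Pool.Agent.Lib.MP_7903c7_al.B.Fill

set_option autoImplicit false

/-!
The chain of cells that fills the periodic resolution.
-/

namespace Pool.Agent.Lib.MP_7903c7_al.RF

open Finset Pool.Agent.Bass

/-- A list as a sequence that is constant from the place `D` on. -/
def toF (D : ℕ) (t : List ℤ) : ℕ → ℤ := fun j => t.getD (min j D) 0

/-- A cell of lists as a cell of sequences. -/
def br (D : ℕ) (A : Fill.Cell) : Set (ℕ → ℤ) := toF D '' A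

lemma toF_tr {D : ℕ} {t : List ℤ} (h : t.length = D + 1) (a : ℤ) :
    toF D (Fill.tr a t) = fun j => toF D t j + a := by
  funext j
  exact Fill.tr_getD a t (by omega)

lemma br_face (D j : ℕ) (A : Fill.Cell) :
    pull (face (D + 1) j) (br (D + 1) A) = br D (Fill.face j A) := by
  simp only [pull, br, Fill.face, Set.image_image]
  refine Set.image_congr fun t _ => ?_
  funext i
  simp only [toF, Function.comp, Fill.getD_eraseIdx]
  congr 1
  simp only [face, Fill.dl, Nat.add_sub_cancel]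
  split_ifs <;> omega

lemma br_shift {D : ℕ} {A : Fill.Cell} (h : ∀ t ∈ A, t.length = D + 1) :
    sh (br D A) = br D (Fill.shift A) := by
  simp only [sh, br, Fill.shift, Set.image_image]
  exact Set.image_congr fun t ht => (toF_tr (h t ht) 1).symm

lemma br_cell {N D m : ℕ} {A : Fill.Cell} (h : Fill.IsCell N (D + 1) m A) :
    Cell N D m (br D A) := by
  classical
  obtain ⟨F, hF, hc⟩ := h.cov
  have key : ∀ t ∈ A, ∃ s ∈ F.filter (· ∈ A), ∃ a : ℤ, t = Fill.tr (N * a) s := by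
    intro t ht
    obtain ⟨s, hs, a, rfl⟩ := hc t ht
    refine ⟨s, mem_filter.2 ⟨hs, ?_⟩, a, rfl⟩
    have := h.per _ ht (-a)
    rwa [Fill.tr_tr, show (N : ℤ) * a + N * -a = 0 by ring, Fill.tr_zero] at this
  refine ⟨(F.filter (· ∈ A)).image (toF D), ?_, card_image_le.trans ((card_filter_le _ _).trans hF),
    ?_, ?_⟩
  · obtain ⟨t, ht⟩ := h.ne
    obtain ⟨s, hs, -⟩ := key t ht
    exact ⟨_, mem_image_of_mem _ hs⟩
  · intro τ hτ
    obtain ⟨s, hs, rfl⟩ := mem_image.1 hτ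
    have hT := h.traj s (mem_filter.1 hs).2
    refine ⟨fun i j hij => (hT.2 _ _ (by omega) (by omega)).1, fun j => ?_, fun j =>
      (hT.2 _ _ (by omega) (by omega)).2⟩
    simp only [toF]
    congr 1
    omega
  · ext τ
    constructor
    · rintro ⟨t, ht, rfl⟩
      obtain ⟨s, hs, a, rfl⟩ := key t ht
      refine ⟨_, mem_image_of_mem _ hs, a, ?_⟩
      rw [toF_tr (h.traj s (mem_filter.1 hs).2).1, mul_comm]
    · rintro ⟨σ, hσ, a, rfl⟩
      obtain ⟨s, hs, rfl⟩ := mem_image.1 hσ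
      have hsA := (mem_filter.1 hs).2
      exact ⟨_, h.per s hsA a, by rw [toF_tr (h.traj s hsA).1, mul_comm]⟩

lemma cbd_br (D : ℕ) (z : Fill.Cell →₀ ℤ) :
    cbd (D + 1) (Finsupp.lmapDomain ℤ ℤ (br (D + 1)) z) =
      Finsupp.lmapDomain ℤ ℤ (br D) (Fill.bdC (D + 2) z) := by
  simp only [cbd, Fill.bdC, LinearMap.sum_apply, LinearMap.smul_apply, map_sum, map_smul,
    Finsupp.lmapDomain_apply, ← Finsupp.mapDomain_comp]
  refine sum_congr rfl fun j _ => ?_
  congr 2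
  funext A
  exact br_face D j A

lemma shm_br {N D m : ℕ} {z : Fill.Cell →₀ ℤ}
    (hz : z ∈ Finsupp.supported ℤ ℤ {A | Fill.IsCell N (D + 1) m A}) :
    shm (Finsupp.lmapDomain ℤ ℤ (br D) z) = Finsupp.lmapDomain ℤ ℤ (br D) (Fill.TC z) := by
  refine Fill.lin_eq (shm ∘ₗ Finsupp.lmapDomain ℤ ℤ (br D))
    (Finsupp.lmapDomain ℤ ℤ (br D) ∘ₗ Fill.TC) ?_ hz
  intro A hA
  simp [shm, Fill.TC, br_shift fun t ht => (Fill.IsCell.traj hA t ht).1]

lemma shm_pow_br {N D m : ℕ} (r : ℕ) {z : Fill.Cell →₀ ℤ}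
    (hz : z ∈ Finsupp.supported ℤ ℤ {A | Fill.IsCell N (D + 1) m A}) :
    (shm ^ r) (Finsupp.lmapDomain ℤ ℤ (br D) z) =
      Finsupp.lmapDomain ℤ ℤ (br D) ((Fill.TC ^ r) z) := by
  induction r with
  | zero => rfl
  | succ r ih =>
    rw [pow_succ', pow_succ', Module.End.mul_apply, Module.End.mul_apply, ih,
      shm_br (Fill.TC_pow_mem r hz)]

lemma dd_br {N D m : ℕ} (i : ℕ) {z : Fill.Cell →₀ ℤ}
    (hz : z ∈ Finsupp.supported ℤ ℤ {A | Fill.IsCell N (D + 1) m A}) :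
    dd shm N i (Finsupp.lmapDomain ℤ ℤ (br D) z) =
      Finsupp.lmapDomain ℤ ℤ (br D) (Fill.dC N i z) := by
  rcases Nat.even_or_odd i with h | h
  · rw [dd, Fill.dC, if_pos h, if_neg (Nat.not_odd_iff_even.2 h), LinearMap.sum_apply,
      LinearMap.sum_apply, map_sum]
    exact sum_congr rfl fun r _ => shm_pow_br r hz
  · rw [dd, Fill.dC, if_pos h, if_neg (Nat.not_even_iff_odd.2 h), LinearMap.sub_apply,
      LinearMap.sub_apply, map_sub, shm_br hz]
    rfl

theorem hfp (N : ℕ) (hN : 0 < N) : ∃ c : ℕ → (Set (ℕ → ℤ) →₀ ℤ),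
    c 0 = Finsupp.single (per N {fun _ => 0}) 1 ∧
      (∀ i, ∀ A ∈ (c i).support, Cell N i (2 * i + 1) A) ∧
      ∀ i, cbd (i + 1) (c (i + 1)) = (-1 : ℤ) ^ (i + 1) • dd shm N (i + 1) (c i) := by
  obtain ⟨c, h0, h1, h2⟩ := Fill.exists_chain hN
  refine ⟨fun i => Finsupp.lmapDomain ℤ ℤ (br i) (c i), ?_, fun i A hA => ?_, fun i => ?_⟩
  · simp only [h0, Finsupp.lmapDomain_apply, Finsupp.mapDomain_single]
    congr 1
    ext τ
    simp only [br, Fill.pt, per, Set.mem_image, Set.mem_range, exists_exists_eq_and,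
      Set.mem_ofPred_eq, mem_singleton, exists_eq_left]
    refine exists_congr fun a => ?_
    rw [toF_tr (by simp), eq_comm, mul_comm]
    simp [toF]
  · exact Fill.map_supported (br i) (t := {A | Cell N i (2 * i + 1) A})
      (fun A hA => br_cell hA) (h1 i) hA
  · simp only []
    rw [cbd_br, h2, map_smul, dd_br (i + 1) (h1 i)]

end Pool.Agent.Lib.MP_7903c7_al.RF
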