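import Pool.Agent.Lib.MP_7903c7_al.RF.Defs

set_option autoImplicit false

/-!
The triangular average and sums over windows.
-/

namespace Pool.Agent.Lib.MP_7903c7_al.RF

open Finset
open scoped Classical Pointwise

namespace Win

theorem per_sum {M : Type} [AddCancelCommMonoid M] (N : ℕ) (h : ℤ → M)
    (hp : ∀ t, h (t + N) = h t) (c : ℤ) :
    ∑ t ∈ range N, h (t + c) = ∑ t ∈ range N, h t := by
  have step : ∀ c : ℤ, ∑ t ∈ range N, h (t + (c + 1)) = ∑ t ∈ range N, h (t + c) := by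
    intro c
    have h1 := sum_range_succ (fun t : ℕ => h (t + c)) N
    have h2 := sum_range_succ' (fun t : ℕ => h (t + c)) N
    have h3 : h ((N : ℤ) + c) = h (((0 : ℕ) : ℤ) + c) := by
      rw [add_comm, hp]; simp
    rw [h1, h3] at h2
    have h4 := add_right_cancel h2
    rw [h4]
    refine sum_congr rfl fun t _ => ?_
    congr 1; push_cast; ring
  induction c using Int.induction_on with
  | zero => simp
  | succ n ih => rw [step, ih]
  | pred n ih =>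
    rw [← ih, ← step (-(n : ℤ) - 1)]
    refine sum_congr rfl fun t _ => ?_
    congr 1; ring

theorem sum_Ico {M : Type} [AddCommMonoid M] (h : ℤ → M) (c : ℤ) (U : ℕ) :
    ∑ u ∈ Ico c (c + U), h u = ∑ i ∈ range U, h (c + i) := by
  induction U with
  | zero => simp
  | succ U ih =>
    have : Ico c (c + (U + 1 : ℕ)) = insert (c + U) (Ico c (c + U)) := by
      ext x; simp only [mem_Ico, mem_insert]; push_cast; omega
    rw [this, sum_insert (by simp), sum_range_succ, ih, add_comm]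

theorem sum_sym (g : ℤ → ℝ) (W : ℕ) :
    ∑ u ∈ Ioo (-((W : ℤ) + 1)) (W + 1), g u =
      g 0 + ∑ i ∈ range W, (g (i + 1) + g (-(i + 1))) := by
  induction W with
  | zero =>
    have : Ioo (-(((0 : ℕ) : ℤ) + 1)) (((0 : ℕ) : ℤ) + 1) = {0} := by
      ext x; simp only [mem_Ioo, mem_singleton]; omega
    rw [this]; simp
  | succ W ih =>
    have : Ioo (-(((W + 1 : ℕ) : ℤ) + 1)) (((W + 1 : ℕ) : ℤ) + 1) =
        insert ((W : ℤ) + 1) (insert (-((W : ℤ) + 1)) (Ioo (-((W : ℤ) + 1)) (W + 1))) := by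
      ext x; simp only [mem_Ioo, mem_insert]; push_cast; omega
    rw [this, sum_insert, sum_insert, ih, sum_range_succ]
    · ring
    · simp
    · simp only [mem_Ioo, mem_insert]; omega

theorem tri (g : ℤ → ℝ) (W : ℕ) :
    ∑ u ∈ Ioo (-(W : ℤ)) W, ((W : ℝ) - |(u : ℝ)|) * g u =
      ∑ a ∈ range W, ∑ b ∈ range W, g (a - b) := by
  induction W with
  | zero => simp
  | succ W ih =>
    have e1 : ∑ u ∈ Ioo (-(W : ℤ)) W, ((W : ℝ) - |(u : ℝ)|) * g u =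
        ∑ u ∈ Ioo (-((W : ℤ) + 1)) (W + 1), ((W : ℝ) - |(u : ℝ)|) * g u := by
      refine sum_subset (fun x => by simp only [mem_Ioo]; omega) fun x hx hx' => ?_
      simp only [mem_Ioo] at hx hx'
      have : x = W ∨ x = -W := by omega
      rcases this with rfl | rfl <;> simp
    have e2 : ∑ u ∈ Ioo (-((W + 1 : ℕ) : ℤ)) ((W + 1 : ℕ) : ℤ),
        (((W + 1 : ℕ) : ℝ) - |(u : ℝ)|) * g u =
        ∑ u ∈ Ioo (-((W : ℤ) + 1)) (W + 1), ((W : ℝ) - |(u : ℝ)|) * g u +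
          ∑ u ∈ Ioo (-((W : ℤ) + 1)) (W + 1), g u := by
      rw [← sum_add_distrib]
      push_cast
      exact sum_congr rfl fun x _ => by ring
    have e3 : ∑ b ∈ range W, g ((W : ℤ) - b) = ∑ i ∈ range W, g (i + 1) := by
      rw [← sum_range_reflect]
      refine sum_congr rfl fun i hi => ?_
      have := mem_range.1 hi
      congr 1; omega
    have e4 : ∑ a ∈ range W, g ((a : ℤ) - W) = ∑ i ∈ range W, g (-(i + 1)) := by
      rw [← sum_range_reflect]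
      refine sum_congr rfl fun i hi => ?_
      have := mem_range.1 hi
      congr 1; omega
    rw [e2, ← e1, ih, sum_sym, sum_range_succ, sum_range_succ, sum_add_distrib]
    simp only [sum_range_succ, sum_add_distrib]
    rw [e3, e4, sub_self]
    ring

/-- The weights of the triangular average. -/
noncomputable def om (n0 T : ℕ) (u : ℤ) : ℝ := ((T * n0 : ℝ) - |(u : ℝ)|) / (n0 * (T * n0))

theorem Fw_def (n0 T : ℕ) (f : ℤ → ℝ) (σ : ℤ) :
    Fw n0 T f σ = ∑ u ∈ Ioo (-(T * n0 : ℤ)) (T * n0), om n0 T u * f (σ + u) := rfl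

theorem abs_lt_of_mem {n0 T : ℕ} {u : ℤ} (hu : u ∈ Ioo (-(T * n0 : ℤ)) (T * n0)) :
    |u| < T * n0 := abs_lt.2 (mem_Ioo.1 hu)

theorem om_nonneg {n0 T : ℕ} {u : ℤ} (hu : u ∈ Ioo (-(T * n0 : ℤ)) (T * n0)) :
    0 ≤ om n0 T u := by
  have h : ((|u| : ℤ) : ℝ) < ((T * n0 : ℤ) : ℝ) := by exact_mod_cast abs_lt_of_mem hu
  push_cast at h
  exact div_nonneg (by linarith) (by positivity)

theorem om_le {n0 T : ℕ} {u : ℤ} (hu : u ∈ Ioo (-(T * n0 : ℤ)) (T * n0)) :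
    om n0 T u ≤ 1 / n0 := by
  have h : ((|u| : ℤ) : ℝ) < ((T * n0 : ℤ) : ℝ) := by exact_mod_cast abs_lt_of_mem hu
  push_cast at h
  have h1 : (0 : ℝ) < T * n0 := (abs_nonneg _).trans_lt h
  have h2 : (0 : ℝ) < n0 := by
    rcases Nat.eq_zero_or_pos n0 with rfl | h3
    · simp at h1
    · exact_mod_cast h3
  unfold om
  rw [div_le_div_iff₀ (mul_pos h2 h1) h2]
  nlinarith [abs_nonneg (u : ℝ)]

/-- The triangular average as a double average. -/
theorem Fw_eq (n0 T : ℕ) (f : ℤ → ℝ) (σ : ℤ) :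
    Fw n0 T f σ =
      (∑ a ∈ range (T * n0), ∑ b ∈ range (T * n0), f (σ + (a - b))) / (n0 * (T * n0)) := by
  rw [← tri (fun u => f (σ + u)) (T * n0), sum_div]
  unfold Fw
  push_cast
  exact sum_congr rfl fun u _ => by ring

end Win

open Win

theorem Fw_const (n0 T : ℕ) (hn0 : 0 < n0) (c : ℝ) (σ : ℤ) :
    Fw n0 T (fun _ => c) σ = c * T := by
  rw [Fw_eq]
  rcases Nat.eq_zero_or_pos T with rfl | hT
  · simp
  have h1 : (n0 : ℝ) ≠ 0 := by positivity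
  have h2 : (T : ℝ) ≠ 0 := by positivity
  simp only [sum_const, card_range, nsmul_eq_mul]
  push_cast
  field_simp

theorem Fw_mono (n0 T : ℕ) {f f' : ℤ → ℝ} {σ : ℤ}
    (h : ∀ t, |t - σ| < T * n0 → f t ≤ f' t) : Fw n0 T f σ ≤ Fw n0 T f' σ := by
  rw [Fw_def, Fw_def]
  refine sum_le_sum fun u hu => mul_le_mul_of_nonneg_left (h _ ?_) (om_nonneg hu)
  rw [add_sub_cancel_left]
  exact abs_lt_of_mem hu

theorem Fw_shift (n0 T : ℕ) (f : ℤ → ℝ) (σ c : ℤ) :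
    Fw n0 T (fun t => f (t + c)) σ = Fw n0 T f (σ + c) := by
  rw [Fw_def, Fw_def]
  exact sum_congr rfl fun u _ => by rw [add_right_comm]

theorem Fw_lip (n0 T : ℕ) {f : ℤ → ℝ} {R : ℝ} (h0 : ∀ t, 0 ≤ f t) (hR : ∀ t, f t ≤ R) (σ : ℤ) :
    |Fw n0 T f (σ + 1) - Fw n0 T f σ| ≤ 2 * R / n0 := by
  have hR0 : 0 ≤ R := (h0 0).trans (hR 0)
  rcases Nat.eq_zero_or_pos (T * n0) with hW | hW
  · rw [Fw_eq, Fw_eq, hW]
    simp only [range_zero, sum_empty, zero_div, sub_self, abs_zero]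
    positivity
  have hn : (0 : ℝ) < n0 := by exact_mod_cast Nat.pos_of_mul_pos_left hW
  have hW' : (0 : ℝ) < T * n0 := by exact_mod_cast hW
  have key : ∀ b : ℕ, |∑ a ∈ range (T * n0), f (σ + 1 + (a - b)) -
      ∑ a ∈ range (T * n0), f (σ + (a - b))| ≤ R := by
    intro b
    have h1 := sum_range_succ (fun a : ℕ => f (σ + (a - b))) (T * n0)
    have h2 := sum_range_succ' (fun a : ℕ => f (σ + (a - b))) (T * n0)
    have h3 : ∑ a ∈ range (T * n0), f (σ + 1 + (a - b)) =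
        ∑ a ∈ range (T * n0), f (σ + (((a + 1 : ℕ) : ℤ) - b)) :=
      sum_congr rfl fun a _ => by congr 1; push_cast; ring
    rw [h3, abs_le]
    have := h0 (σ + (((T * n0 : ℕ) : ℤ) - b))
    have := hR (σ + (((T * n0 : ℕ) : ℤ) - b))
    have := h0 (σ + (((0 : ℕ) : ℤ) - b))
    have := hR (σ + (((0 : ℕ) : ℤ) - b))
    constructor <;> linarith
  rw [Fw_eq, Fw_eq, ← sub_div, abs_div, abs_of_pos (mul_pos hn hW'), sum_comm,
    sum_comm (f := fun a b : ℕ => f (σ + (a - b))), ← sum_sub_distrib,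
    div_le_div_iff₀ (mul_pos hn hW') hn]
  have h4 := (abs_sum_le_sum_abs _ _).trans (sum_le_sum fun b (_ : b ∈ range (T * n0)) => key b)
  rw [sum_const, card_range, nsmul_eq_mul] at h4
  push_cast at h4
  have h5 := mul_le_mul_of_nonneg_right h4 hn.le
  have h6 : 0 ≤ (T * n0 : ℝ) * R * n0 := by positivity
  refine h5.trans ?_
  nlinarith

theorem Fw_avg (n0 T N : ℕ) (hn0 : 0 < n0) {f : ℤ → ℝ} (hp : ∀ t, f (t + N) = f t) :
    ∑ σ ∈ range N, Fw n0 T f σ = T * ∑ t ∈ range N, f t := by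
  simp only [Fw_def]
  rw [sum_comm]
  have h1 : ∀ u ∈ Ioo (-(T * n0 : ℤ)) (T * n0), ∑ σ ∈ range N, om n0 T u * f (σ + u) =
      om n0 T u * ∑ t ∈ range N, f t := fun u _ => by rw [← mul_sum, per_sum N f hp]
  rw [sum_congr rfl h1, mul_comm (T : ℝ) (∑ t ∈ range N, f t), ← Fw_const n0 T hn0 _ 0, Fw_def]

theorem Fw_count (n0 T Δ : ℕ) (hn0 : 0 < n0) {K : Type} (f : K → ℤ → ℝ) {R c : ℝ} (hc : 0 < c)
    (hR0 : 0 ≤ R) (h0 : ∀ κ t, 0 ≤ f κ t) (hR : ∀ κ t, f κ t ≤ R)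
    (hΔ : ∀ t, ∃ A : Finset K, A.card ≤ Δ ∧ ∀ κ, f κ t ≠ 0 → κ ∈ A) (σ : ℤ) :
    ∃ A : Finset K, c * A.card ≤ Δ * R * T ∧ ∀ κ, c ≤ Fw n0 T (f κ) σ → κ ∈ A := by
  choose B hB hB' using hΔ
  set A := ((Ioo (-(T * n0 : ℤ)) (T * n0)).biUnion fun u => B (σ + u)).filter
    fun κ => c ≤ Fw n0 T (f κ) σ with hA
  refine ⟨A, ?_, fun κ hκ => mem_filter.2 ⟨?_, hκ⟩⟩
  · have h1 : c * A.card ≤ ∑ κ ∈ A, Fw n0 T (f κ) σ := by
      rw [mul_comm, ← nsmul_eq_mul, ← sum_const]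
      exact sum_le_sum fun κ hκ => (mem_filter.1 hκ).2
    have h2 : ∀ t, ∑ κ ∈ A, f κ t ≤ Δ * R := by
      intro t
      calc ∑ κ ∈ A, f κ t = ∑ κ ∈ A.filter (fun κ => f κ t ≠ 0), f κ t := by
            rw [sum_filter_ne_zero]
        _ ≤ ∑ κ ∈ B t, f κ t :=
            sum_le_sum_of_subset_of_nonneg (fun κ hκ => hB' t κ (mem_filter.1 hκ).2)
              fun κ _ _ => h0 κ t
        _ ≤ ∑ _κ ∈ B t, R := sum_le_sum fun κ _ => hR κ t
        _ ≤ Δ * R := by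
            rw [sum_const, nsmul_eq_mul]
            exact mul_le_mul_of_nonneg_right (by exact_mod_cast hB t) hR0
    have h3 : ∑ κ ∈ A, Fw n0 T (f κ) σ = Fw n0 T (fun t => ∑ κ ∈ A, f κ t) σ := by
      simp only [Fw_def, mul_sum]
      exact sum_comm
    rw [← Fw_const n0 T hn0 _ σ]
    exact h1.trans (h3.trans_le (Fw_mono n0 T fun t _ => h2 t))
  · by_contra hn
    have h1 : Fw n0 T (f κ) σ = 0 := by
      rw [Fw_def]
      refine sum_eq_zero fun u hu => ?_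
      by_contra h2
      exact hn (mem_biUnion.2 ⟨u, hu, hB' _ κ (right_ne_zero_of_mul h2)⟩)
    linarith

theorem sum_window (N U : ℕ) (ℓ : ℤ → ℕ) (hp : ∀ t, ℓ (t + N) = ℓ t) (c : ℤ) :
    ∑ t ∈ range N, ∑ u ∈ Ico ((t : ℤ) + c) (t + c + U), ℓ u = U * ∑ t ∈ range N, ℓ t := by
  simp only [sum_Ico]
  rw [sum_comm]
  have h1 : ∀ i ∈ range U, ∑ t ∈ range N, ℓ (t + c + i) = ∑ t ∈ range N, ℓ t := fun i _ => by
    rw [← per_sum N ℓ hp (c + i)]
    exact sum_congr rfl fun t _ => by rw [add_assoc]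
  rw [sum_congr rfl h1, sum_const, card_range, smul_eq_mul]

theorem sum_window_le (N U : ℕ) (hU : U ≤ N) (ℓ : ℤ → ℕ) (hp : ∀ t, ℓ (t + N) = ℓ t) (c : ℤ) :
    ∑ u ∈ Ico c (c + U), ℓ u ≤ ∑ t ∈ range N, ℓ t := by
  rw [sum_Ico, ← per_sum N ℓ hp c]
  calc ∑ i ∈ range U, ℓ (c + i) ≤ ∑ i ∈ range N, ℓ (c + i) :=
        sum_le_sum_of_subset (range_mono hU)
    _ = _ := sum_congr rfl fun t _ => by rw [add_comm]

theorem Fw_near (n0 T N m : ℕ) (hN : 2 * (T * n0) ≤ N) {f f' : ℤ → ℝ} {R : ℝ}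
    (h0 : ∀ t, 0 ≤ f t) (hR : ∀ t, f t ≤ R) (h0' : ∀ t, 0 ≤ f' t) (hR' : ∀ t, f' t ≤ R)
    (hp : ∀ t, f (t + N) = f t) (hp' : ∀ t, f' (t + N) = f' t) (h : Near N m f f') (σ : ℤ) :
    |Fw n0 T f σ - Fw n0 T f' σ| ≤ m * R / n0 := by
  have hR0 : 0 ≤ R := (h0 0).trans (hR 0)
  set ℓ : ℤ → ℕ := fun t => if f t ≠ f' t then 1 else 0 with hℓ
  have hℓp : ∀ t, ℓ (t + N) = ℓ t := fun t => by simp only [hℓ, hp, hp']
  have h1 : ∑ u ∈ Ico (σ - T * n0) (σ - T * n0 + (2 * (T * n0) : ℕ)), ℓ u ≤ m := by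
    refine (sum_window_le N _ hN ℓ hℓp _).trans (le_trans (le_of_eq ?_) h)
    rw [card_filter]
  have h2 : ∑ u ∈ Ioo (-(T * n0 : ℤ)) (T * n0), ℓ (σ + u) ≤ m := by
    refine le_trans ?_ h1
    rw [← sum_image (s := Ioo (-(T * n0 : ℤ)) (T * n0)) (g := fun u => σ + u) (f := ℓ)
      fun a _ b _ e => add_left_cancel e]
    refine sum_le_sum_of_subset fun x hx => ?_
    obtain ⟨u, hu, rfl⟩ := mem_image.1 hx
    rw [mem_Ioo] at hu
    rw [mem_Ico]
    push_cast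
    constructor <;> linarith [hu.1, hu.2]
  have h3 : ∀ t, |f t - f' t| ≤ R * ℓ t := by
    intro t
    by_cases e : f t = f' t
    · simp [hℓ, e]
    · have : ℓ t = 1 := if_pos e
      rw [this, abs_le]
      have := h0 t; have := hR t; have := h0' t; have := hR' t
      constructor <;> push_cast <;> linarith
  rw [Fw_def, Fw_def, ← sum_sub_distrib]
  refine (abs_sum_le_sum_abs _ _).trans ?_
  calc ∑ u ∈ Ioo (-(T * n0 : ℤ)) (T * n0), |om n0 T u * f (σ + u) - om n0 T u * f' (σ + u)|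
      ≤ ∑ u ∈ Ioo (-(T * n0 : ℤ)) (T * n0), 1 / n0 * (R * ℓ (σ + u)) := by
        refine sum_le_sum fun u hu => ?_
        rw [← mul_sub, abs_mul, abs_of_nonneg (om_nonneg hu)]
        exact mul_le_mul (om_le hu) (h3 _) (abs_nonneg _) (by positivity)
    _ = ((∑ u ∈ Ioo (-(T * n0 : ℤ)) (T * n0), ℓ (σ + u) : ℕ) : ℝ) * R / n0 := by
        push_cast
        rw [sum_mul, sum_div]
        exact sum_congr rfl fun u _ => by ring
    _ ≤ m * R / n0 := by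
        have : ((∑ u ∈ Ioo (-(T * n0 : ℤ)) (T * n0), ℓ (σ + u) : ℕ) : ℝ) ≤ m := by
          exact_mod_cast h2
        gcongr

theorem len_path {G : Type} [Group G] {S : Finset G} {γ : ℤ → G} {ℓ : ℤ → ℕ}
    (h : ∀ t, (γ t)⁻¹ * γ (t + 1) ∈ (S : Set G) ^ ℓ t) {t t' : ℤ} (htt : t ≤ t') :
    (γ t)⁻¹ * γ t' ∈ (S : Set G) ^ (∑ u ∈ Ico t t', ℓ u) := by
  obtain ⟨n, rfl⟩ := Int.le.dest htt
  rw [sum_Ico]
  clear htt
  induction n with
  | zero => simp
  | succ n ih =>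
    rw [sum_range_succ, pow_add]
    have e : (γ t)⁻¹ * γ (t + (n + 1 : ℕ)) =
        ((γ t)⁻¹ * γ (t + n)) * ((γ (t + n))⁻¹ * γ (t + n + 1)) := by
      push_cast
      rw [← add_assoc]; group
    rw [e]
    exact Set.mul_mem_mul ih (h _)

end Pool.Agent.Lib.MP_7903c7_al.RF
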