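import Pool.Agent.Lib.MP_7903c7_al.RF.Defs
import Pool.Agent.Shared.CountingLLL

set_option autoImplicit false

/-!
Random labels: a geometric law with many small steps and the variable local lemma.
-/

namespace Pool.Agent.Lib.MP_7903c7_al.RF

open Finset
open scoped Classical Pointwise

namespace Lab

/-- The weight of a label with respect to a threshold. -/
noncomputable def wgt (z s1 s2 th y : ℝ) : ℝ :=
  if y ≤ th + s2 then (if |y - th| ≤ s1 then z else 1) else 0

theorem wgt_nonneg {z : ℝ} (hz : 0 ≤ z) (s1 s2 th y : ℝ) : 0 ≤ wgt z s1 s2 th y := by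
  unfold wgt
  split_ifs
  · exact hz
  · exact zero_le_one
  · exact le_rfl

/-- The generating function bound for one threshold vector. -/
theorem count_le {V α : Type} [Fintype V] [Fintype α] (d : α → ℝ) {z s1 s2 ε Z : ℝ}
    (hz : 0 ≤ z)
    (hw : ∀ th, ∑ x, wgt z s1 s2 th (d x) ≤ Fintype.card α * (1 + ε))
    (E : Finset V) (th : V → ℝ) (B : Finset (V → α))
    (hB : ∀ φ ∈ B, (∀ v ∈ E, d (φ v) ≤ th v + s2) ∧
      Z ≤ z ^ (E.filter fun v => |d (φ v) - th v| ≤ s1).card) :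
    (B.card : ℝ) * Z ≤ (1 + ε) ^ E.card * Fintype.card (V → α) := by
  set f : V → α → ℝ := fun v x => if v ∈ E then wgt z s1 s2 (th v) (d x) else 1 with hf
  have hf0 : ∀ v x, 0 ≤ f v x := by
    intro v x
    simp only [hf]
    split_ifs
    · exact wgt_nonneg hz _ _ _ _
    · exact zero_le_one
  have h1 : ∀ φ ∈ B, Z ≤ ∏ v, f v (φ v) := by
    intro φ hφ
    obtain ⟨ha, hb⟩ := hB φ hφ
    refine hb.trans (le_of_eq ?_)
    have : ∀ v, f v (φ v) =
        if v ∈ E.filter (fun v => |d (φ v) - th v| ≤ s1) then z else 1 := by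
      intro v
      simp only [hf, mem_filter]
      by_cases hv : v ∈ E
      · simp only [hv, if_true, true_and, wgt, if_pos (ha v hv)]
      · simp [hv]
    rw [Finset.prod_congr rfl fun v _ => this v, Finset.prod_ite_mem, Finset.univ_inter,
      Finset.prod_const]
  have h2 : (B.card : ℝ) * Z ≤ ∑ φ : V → α, ∏ v, f v (φ v) := by
    calc (B.card : ℝ) * Z = ∑ _φ ∈ B, Z := by rw [Finset.sum_const, nsmul_eq_mul]
      _ ≤ ∑ φ ∈ B, ∏ v, f v (φ v) := Finset.sum_le_sum h1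
      _ ≤ _ := Finset.sum_le_sum_of_subset_of_nonneg (Finset.subset_univ _)
          fun φ _ _ => Finset.prod_nonneg fun v _ => hf0 v _
  have h3 : ∑ φ : V → α, ∏ v, f v (φ v) = ∏ v, ∑ x, f v x := by
    rw [Finset.prod_univ_sum, Fintype.piFinset_univ]
  have h4 : ∀ v, ∑ x, f v x ≤ Fintype.card α * (if v ∈ E then 1 + ε else 1) := by
    intro v
    by_cases hv : v ∈ E
    · simp only [hf, hv, if_true]
      exact hw _
    · simp [hf, hv]
  have h5 : ∏ v, ∑ x, f v x ≤ ∏ v : V, (Fintype.card α * (if v ∈ E then 1 + ε else 1) : ℝ) :=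
    Finset.prod_le_prod (fun v _ => Finset.sum_nonneg fun x _ => hf0 v x) fun v _ => h4 v
  have h6 : ∏ v : V, (Fintype.card α * (if v ∈ E then 1 + ε else 1) : ℝ) =
      (1 + ε) ^ E.card * Fintype.card (V → α) := by
    rw [Finset.prod_mul_distrib, Finset.prod_ite_mem, Finset.univ_inter, Finset.prod_const,
      Finset.prod_const, Fintype.card_fun, Finset.card_univ]
    push_cast
    ring
  linarith

theorem one_add_pow_le {D : ℝ} {m : ℕ} (hD : 0 < D) (hm : (m : ℝ) ≤ D) : (1 + 1 / D) ^ m ≤ 3 := by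
  have h1 : (1 + 1 / D) ^ m ≤ Real.exp (1 / D) ^ m := by
    apply pow_le_pow_left₀ (by positivity)
    have := Real.add_one_le_exp (1 / D)
    linarith
  have h2 : Real.exp (1 / D) ^ m ≤ Real.exp 1 := by
    rw [← Real.exp_nat_mul]
    apply Real.exp_le_exp.2
    rw [mul_one_div, div_le_one hD]
    exact hm
  have h3 := Real.exp_one_lt_d9
  linarith

theorem geo_le (N : ℕ) : ∑ M ∈ range N, ((1 : ℝ) / 2) ^ M ≤ 2 := by
  have : ∑ M ∈ range N, ((1 : ℝ) / 2) ^ M = 2 - 2 * (1 / 2) ^ N := by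
    induction N with
    | zero => simp
    | succ N ih => rw [Finset.sum_range_succ, ih, pow_succ]; ring
  rw [this]
  have : (0 : ℝ) ≤ (1 / 2) ^ N := by positivity
  linarith

/-- The local lemma step for an abstract label law. -/
theorem avoid {α : Type} [Fintype α] [Nonempty α] (d : α → ℝ) {s1 s2 θ : ℝ} (k0 c1 u T : ℕ)
    (hT : 0 < T) (hθ : 0 < θ) (hu : ((c1 + 8 * k0 + 5 : ℕ) : ℝ) ≤ u * (θ / 2))
    (hw : ∀ th, ∑ x, wgt (2 ^ u) s1 s2 th (d x) ≤
      Fintype.card α * (1 + 1 / 2 ^ (k0 * (4 * T))))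
    (V A : Type) [Fintype V] (anch : Finset A) (e : A → Finset V)
    (𝒟 : A → ℕ → Finset (V → ℝ)) (Mmax : ℕ)
    (he : ∀ a ∈ anch, (e a).card ≤ 2 ^ (k0 * (4 * T)))
    (hdeg : ∀ v, (anch.filter fun a => v ∈ e a).card ≤ 2 ^ (k0 * (4 * T)))
    (hD : ∀ a M, (𝒟 a M).card ≤ 2 ^ (c1 * (M + T))) :
    ∃ φ : V → α, ∀ a ∈ anch, ∀ M ≤ Mmax, ∀ th ∈ 𝒟 a M, (∀ v ∈ e a, d (φ v) ≤ th v + s2) →
      (((e a).filter fun v => |d (φ v) - th v| ≤ s1).card : ℝ) ≤ θ * (M + (T : ℝ)) / 2 := by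
  set D : ℝ := 2 ^ (k0 * (4 * T)) with hDdef
  have hD1 : 1 ≤ D := one_le_pow₀ one_le_two
  have hD0 : 0 < D := by linarith
  have he' : ∀ a ∈ anch, ((e a).card : ℝ) ≤ D := by
    intro a ha
    have := he a ha
    rw [hDdef]
    exact_mod_cast this
  let bad : A → ℕ → (V → ℝ) → Finset (V → α) := fun a M th =>
    univ.filter fun φ => (∀ v ∈ e a, d (φ v) ≤ th v + s2) ∧
      θ * (M + (T : ℝ)) / 2 < (((e a).filter fun v => |d (φ v) - th v| ≤ s1).card : ℝ)
  let B : A → Finset (V → α) := fun a =>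
    (range (Mmax + 1)).biUnion fun M => (𝒟 a M).biUnion fun th => bad a M th
  set W : ℝ := (Fintype.card (V → α) : ℝ) with hW
  have hW0 : 0 ≤ W := Nat.cast_nonneg _
  have hbad : ∀ a ∈ anch, ∀ M th,
      ((bad a M th).card : ℝ) * 2 ^ ((c1 + 8 * k0 + 5) * (M + T)) ≤ 3 * W := by
    intro a ha M th
    have h1 := count_le d (z := 2 ^ u) (s1 := s1) (s2 := s2) (ε := 1 / D)
      (Z := 2 ^ ((c1 + 8 * k0 + 5) * (M + T))) (by positivity) hw (e a) th
      (bad a M th) (by
        intro φ hφ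
        obtain ⟨h1, h2⟩ := (mem_filter.1 hφ).2
        refine ⟨h1, ?_⟩
        rw [← pow_mul]
        apply pow_le_pow_right₀ one_le_two
        have hMT : (0 : ℝ) ≤ M + T := by positivity
        have hu0 : (0 : ℝ) ≤ u := Nat.cast_nonneg _
        have h3 : ((c1 + 8 * k0 + 5 : ℕ) : ℝ) * (M + T) ≤
            u * (((e a).filter fun v => |d (φ v) - th v| ≤ s1).card : ℝ) := by
          calc ((c1 + 8 * k0 + 5 : ℕ) : ℝ) * (M + T) ≤ u * (θ / 2) * (M + T) :=
                mul_le_mul_of_nonneg_right hu hMT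
            _ = u * (θ * (M + (T : ℝ)) / 2) := by ring
            _ ≤ _ := mul_le_mul_of_nonneg_left h2.le hu0
        exact_mod_cast h3)
    exact h1.trans (mul_le_mul_of_nonneg_right (one_add_pow_le hD0 (he' a ha)) hW0)
  have hM : ∀ a ∈ anch, ∀ M, (((𝒟 a M).biUnion fun th => bad a M th).card : ℝ) ≤
      3 * W / (32 * D ^ 2) * (1 / 2) ^ M := by
    intro a ha M
    have hp : (0 : ℝ) < 2 ^ ((c1 + 8 * k0 + 5) * (M + T)) := by positivity
    have h1 : (((𝒟 a M).biUnion fun th => bad a M th).card : ℝ) ≤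
        ∑ th ∈ 𝒟 a M, ((bad a M th).card : ℝ) := by
      exact_mod_cast Finset.card_biUnion_le
    have h2 : ∑ th ∈ 𝒟 a M, ((bad a M th).card : ℝ) ≤
        ∑ _th ∈ 𝒟 a M, 3 * W / 2 ^ ((c1 + 8 * k0 + 5) * (M + T)) :=
      Finset.sum_le_sum fun th _ => (le_div_iff₀ hp).2 (hbad a ha M th)
    rw [Finset.sum_const, nsmul_eq_mul] at h2
    have h3 : ((𝒟 a M).card : ℝ) ≤ 2 ^ (c1 * (M + T)) := by exact_mod_cast hD a M
    have h4 : ((𝒟 a M).card : ℝ) * (3 * W / 2 ^ ((c1 + 8 * k0 + 5) * (M + T))) ≤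
        2 ^ (c1 * (M + T)) * (3 * W / 2 ^ ((c1 + 8 * k0 + 5) * (M + T))) :=
      mul_le_mul_of_nonneg_right h3 (by positivity)
    have h5 : (2 : ℝ) ^ (c1 * (M + T) + (5 + k0 * (4 * T) * 2 + M)) ≤
        2 ^ ((c1 + 8 * k0 + 5) * (M + T)) := by
      apply pow_le_pow_right₀ one_le_two
      nlinarith [Nat.zero_le (k0 * M)]
    have h6 : (2 : ℝ) ^ (c1 * (M + T)) * (3 * W / 2 ^ ((c1 + 8 * k0 + 5) * (M + T))) ≤
        2 ^ (c1 * (M + T)) * (3 * W / 2 ^ (c1 * (M + T) + (5 + k0 * (4 * T) * 2 + M))) :=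
      mul_le_mul_of_nonneg_left
        (div_le_div_of_nonneg_left (by positivity) (by positivity) h5) (by positivity)
    have h7 : (2 : ℝ) ^ (c1 * (M + T)) *
        (3 * W / 2 ^ (c1 * (M + T) + (5 + k0 * (4 * T) * 2 + M))) =
        3 * W / (32 * D ^ 2) * (1 / 2) ^ M := by
      rw [pow_add, pow_add, pow_add, pow_mul 2 (k0 * (4 * T)) 2, ← hDdef, one_div, inv_pow]
      field_simp
      norm_num
    linarith
  have hB : ∀ a ∈ anch, ((B a).card : ℝ) ≤ 1 / (4 * D ^ 2) * W := by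
    intro a ha
    have h1 : ((B a).card : ℝ) ≤ ∑ M ∈ range (Mmax + 1),
        (((𝒟 a M).biUnion fun th => bad a M th).card : ℝ) := by
      exact_mod_cast Finset.card_biUnion_le
    have h2 : ∑ M ∈ range (Mmax + 1), (((𝒟 a M).biUnion fun th => bad a M th).card : ℝ) ≤
        ∑ M ∈ range (Mmax + 1), 3 * W / (32 * D ^ 2) * (1 / 2) ^ M :=
      Finset.sum_le_sum fun M _ => hM a ha M
    rw [← Finset.mul_sum] at h2
    have h3 : 3 * W / (32 * D ^ 2) * ∑ M ∈ range (Mmax + 1), ((1 : ℝ) / 2) ^ M ≤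
        3 * W / (32 * D ^ 2) * 2 := mul_le_mul_of_nonneg_left (geo_le _) (by positivity)
    have h4 : 3 * W / (32 * D ^ 2) * 2 ≤ 1 / (4 * D ^ 2) * W := by
      have : 1 / (4 * D ^ 2) * W - 3 * W / (32 * D ^ 2) * 2 = W / (16 * D ^ 2) := by
        field_simp
        ring
      have h5 : 0 ≤ W / (16 * D ^ 2) := by positivity
      linarith
    linarith
  have hh : 1 / (2 * D) ≤ 1 / 2 := by
    apply one_div_le_one_div_of_le <;> linarith
  have hh0 : 0 < 1 / (2 * D) := by positivity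
  have hγ : ∀ a ∈ anch, 1 / 2 ≤ (1 - 1 / (2 * D)) ^ (e a).card := by
    intro a ha
    have h1 := one_add_mul_le_pow (a := -(1 / (2 * D))) (by linarith) (e a).card
    have h2 : ((e a).card : ℝ) * (1 / (2 * D)) ≤ 1 / 2 := by
      calc ((e a).card : ℝ) * (1 / (2 * D)) ≤ D * (1 / (2 * D)) :=
            mul_le_mul_of_nonneg_right (he' a ha) hh0.le
        _ = 1 / 2 := by field_simp
    rw [← sub_eq_add_neg] at h1
    linarith
  obtain ⟨φ, hφ⟩ := Pool.Agent.Shared.CountingLLL.exists_avoid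
    (anch.filter fun a => (e a).Nonempty) e B (fun a ha => (mem_filter.1 ha).2)
    (by
      intro a _ φ ψ h hφ
      simp only [B, bad, mem_biUnion, mem_filter, mem_univ, true_and] at hφ ⊢
      obtain ⟨M, hM, th, hth, h1, h2⟩ := hφ
      refine ⟨M, hM, th, hth, fun v hv => by rw [← h v hv]; exact h1 v hv, ?_⟩
      have : ((e a).filter fun v => |d (ψ v) - th v| ≤ s1) =
          (e a).filter fun v => |d (φ v) - th v| ≤ s1 :=
        Finset.filter_congr fun v hv => by rw [h v hv]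
      rw [this]
      exact h2)
    (fun _ => 1 / (4 * D ^ 2)) (fun _ _ => by positivity)
    (fun a ha => hB a (mem_filter.1 ha).1) (1 - 1 / (2 * D)) (by linarith) (by linarith)
    (by
      intro v
      have h1 : ∑ a ∈ anch.filter (fun a => (e a).Nonempty),
          (if v ∈ e a then 1 / (4 * D ^ 2) / (1 - 1 / (2 * D)) ^ (e a).card else 0) ≤
          ∑ a ∈ anch, (if v ∈ e a then 1 / (2 * D ^ 2) else 0) := by
        refine le_trans (Finset.sum_le_sum fun a ha => ?_)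
          (Finset.sum_le_sum_of_subset_of_nonneg (Finset.filter_subset _ _) fun a _ _ => ?_)
        · split_ifs
          · have h2 := hγ a (mem_filter.1 ha).1
            calc 1 / (4 * D ^ 2) / (1 - 1 / (2 * D)) ^ (e a).card
                ≤ 1 / (4 * D ^ 2) / (1 / 2) :=
                  div_le_div_of_nonneg_left (by positivity) (by norm_num) h2
              _ = 1 / (2 * D ^ 2) := by field_simp; norm_num
          · exact le_rfl
        · split_ifs
          · positivity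
          · exact le_rfl
      have h2 : ∑ a ∈ anch, (if v ∈ e a then 1 / (2 * D ^ 2) else 0) =
          ((anch.filter fun a => v ∈ e a).card : ℝ) * (1 / (2 * D ^ 2)) := by
        rw [← Finset.sum_filter, Finset.sum_const, nsmul_eq_mul]
      have h3 : ((anch.filter fun a => v ∈ e a).card : ℝ) ≤ D := by
        have := hdeg v
        rw [hDdef]
        exact_mod_cast this
      have h4 : ((anch.filter fun a => v ∈ e a).card : ℝ) * (1 / (2 * D ^ 2)) ≤
          D * (1 / (2 * D ^ 2)) := mul_le_mul_of_nonneg_right h3 (by positivity)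
      have h5 : D * (1 / (2 * D ^ 2)) = 1 / (2 * D) := by field_simp
      linarith)
  refine ⟨φ, fun a ha M hM th hth hle => ?_⟩
  by_cases hne : (e a).Nonempty
  · by_contra hlt
    refine hφ a (mem_filter.2 ⟨ha, hne⟩) ?_
    simp only [B, bad, mem_biUnion, mem_filter, mem_univ, true_and]
    exact ⟨M, mem_range.2 (by omega), th, hth, hle, not_le.1 hlt⟩
  · rw [Finset.not_nonempty_iff_eq_empty.1 hne]
    simp only [Finset.filter_empty, Finset.card_empty, Nat.cast_zero]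
    positivity

/-- The level of a label. -/
def lev (l h : ℕ) (x : Fin l × Fin (2 ^ h)) : ℕ := (h - Nat.size x.2.1) * l + x.1.1

theorem card_lt (h k : ℕ) (hk : k ≤ h) :
    (univ.filter fun y : Fin (2 ^ h) => y.1 < 2 ^ k).card = 2 ^ k := by
  rw [Fin.card_filter_val_lt]
  exact min_eq_right (Nat.pow_le_pow_right two_pos hk)

theorem size_le (h : ℕ) (y : Fin (2 ^ h)) : Nat.size y.1 ≤ h := Nat.size_le.2 y.2

/-- The tail of the law dominates a single level. -/
theorem tail (l h c u : ℕ) (hl : l = 2 ^ (c + u)) (x0 : Fin l × Fin (2 ^ h)) :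
    2 ^ u * (univ.filter fun x => lev l h x = lev l h x0).card ≤
      (univ.filter fun x => lev l h x0 + c * l < lev l h x + l).card + l := by
  have hl0 : 0 < l := by rw [hl]; positivity
  set s := Nat.size x0.2.1 with hs
  have hsh : s ≤ h := size_le h x0.2
  have h1 : (univ.filter fun x => lev l h x = lev l h x0).card ≤ 2 ^ s := by
    rw [← card_lt h s hsh]
    refine Finset.card_le_card_of_injOn (fun x => x.2) ?_ ?_
    · intro x hx
      simp only [coe_filter, mem_univ, true_and, Set.mem_ofPred_eq] at hx ⊢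
      have h2 : lev l h x / l = lev l h x0 / l := by rw [hx]
      unfold lev at h2
      rw [add_comm, Nat.add_mul_div_right _ _ hl0, add_comm _ x0.1.1,
        Nat.add_mul_div_right _ _ hl0, Nat.div_eq_of_lt x.1.2, Nat.div_eq_of_lt x0.1.2] at h2
      have h3 := size_le h x.2
      apply Nat.size_le.1
      omega
    · intro x hx y hy hxy
      simp only [coe_filter, mem_univ, true_and, Set.mem_ofPred_eq] at hx hy hxy
      have h2 : lev l h x = lev l h y := by rw [hx, hy]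
      unfold lev at h2
      rw [hxy] at h2
      exact Prod.ext (Fin.ext (by omega)) hxy
  by_cases hc : c ≤ s
  · have h2 : l * 2 ^ (s - c) ≤
        (univ.filter fun x => lev l h x0 + c * l < lev l h x + l).card := by
      have h3 : ((univ : Finset (Fin l)) ×ˢ
          (univ.filter fun y : Fin (2 ^ h) => y.1 < 2 ^ (s - c))).card = l * 2 ^ (s - c) := by
        rw [Finset.card_product, card_lt h (s - c) (by omega), Finset.card_univ, Fintype.card_fin]
      rw [← h3]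
      apply Finset.card_le_card
      intro x hx
      have h4 : Nat.size x.2.1 ≤ s - c := Nat.size_le.2 (mem_filter.1 (mem_product.1 hx).2).2
      refine mem_filter.2 ⟨mem_univ _, ?_⟩
      unfold lev
      rw [← hs]
      have h5 : (h - s + c) * l ≤ (h - Nat.size x.2.1) * l := Nat.mul_le_mul_right _ (by omega)
      have h6 := x0.1.2
      rw [add_mul] at h5
      omega
    have h7 : 2 ^ u * 2 ^ s = l * 2 ^ (s - c) := by
      rw [hl, ← pow_add, ← pow_add]
      congr 1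
      omega
    have h8 := Nat.mul_le_mul_left (2 ^ u) h1
    omega
  · have h7 : 2 ^ u * 2 ^ s ≤ l := by
      rw [hl, ← pow_add]
      exact Nat.pow_le_pow_right two_pos (by omega)
    have h8 := Nat.mul_le_mul_left (2 ^ u) h1
    omega

/-- The total weight of the law. -/
theorem sum_wgt (l h c u : ℕ) (hl : l = 2 ^ (c + u)) {ρ s1 s2 : ℝ} (hρ : 0 < ρ)
    (h1 : 2 * s1 < ρ) (h2 : s1 + s2 + l * ρ ≤ c * l * ρ) (th : ℝ) :
    ∑ x : Fin l × Fin (2 ^ h), wgt (2 ^ u) s1 s2 th (lev l h x * ρ) ≤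
      Fintype.card (Fin l × Fin (2 ^ h)) * (1 + 1 / 2 ^ h) := by
  have hcard : (Fintype.card (Fin l × Fin (2 ^ h)) : ℝ) * (1 + 1 / 2 ^ h) =
      Fintype.card (Fin l × Fin (2 ^ h)) + l := by
    rw [Fintype.card_prod, Fintype.card_fin, Fintype.card_fin]
    push_cast
    field_simp
  rw [hcard]
  have hl0 : (0 : ℝ) ≤ l := Nat.cast_nonneg _
  by_cases hex : ∃ x0 : Fin l × Fin (2 ^ h), |lev l h x0 * ρ - th| ≤ s1
  · obtain ⟨x0, hx0⟩ := hex
    have hx0' := abs_le.1 hx0
    have h3 : ∀ x : Fin l × Fin (2 ^ h), wgt (2 ^ u) s1 s2 th (lev l h x * ρ) ≤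
        1 - (if lev l h x0 + c * l < lev l h x + l then (1 : ℝ) else 0) +
          2 ^ u * (if lev l h x = lev l h x0 then (1 : ℝ) else 0) := by
      intro x
      have hz : (0 : ℝ) < 2 ^ u := by positivity
      unfold wgt
      by_cases ha : lev l h x * ρ ≤ th + s2
      · rw [if_pos ha]
        have hb : ¬ lev l h x0 + c * l < lev l h x + l := by
          intro hb
          have hb' : ((lev l h x0 : ℝ) + c * l) * ρ < (lev l h x + l) * ρ :=
            mul_lt_mul_of_pos_right (by exact_mod_cast hb) hρ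
          nlinarith
        rw [if_neg hb]
        by_cases hw : |lev l h x * ρ - th| ≤ s1
        · rw [if_pos hw]
          have hw' := abs_le.1 hw
          have he : lev l h x = lev l h x0 := by
            by_contra hne
            rcases Nat.lt_or_gt_of_ne hne with hlt | hlt
            · have : ((lev l h x : ℝ) + 1) * ρ ≤ lev l h x0 * ρ :=
                mul_le_mul_of_nonneg_right (by exact_mod_cast hlt) hρ.le
              nlinarith
            · have : ((lev l h x0 : ℝ) + 1) * ρ ≤ lev l h x * ρ :=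
                mul_le_mul_of_nonneg_right (by exact_mod_cast hlt) hρ.le
              nlinarith
          rw [if_pos he]
          linarith
        · rw [if_neg hw]
          split_ifs <;> linarith
      · rw [if_neg ha]
        split_ifs <;> linarith
    refine (Finset.sum_le_sum fun x _ => h3 x).trans ?_
    rw [Finset.sum_add_distrib, Finset.sum_sub_distrib, ← Finset.mul_sum, Finset.sum_boole,
      Finset.sum_boole, Finset.sum_const, nsmul_eq_mul, mul_one, Finset.card_univ]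
    have h4 : (2 : ℝ) ^ u * ((univ.filter fun x => lev l h x = lev l h x0).card : ℝ) ≤
        ((univ.filter fun x => lev l h x0 + c * l < lev l h x + l).card : ℝ) + l := by
      exact_mod_cast tail l h c u hl x0
    linarith
  · push Not at hex
    have h3 : ∀ x : Fin l × Fin (2 ^ h), wgt (2 ^ u) s1 s2 th (lev l h x * ρ) ≤ 1 := by
      intro x
      unfold wgt
      rw [if_neg (not_le.2 (hex x))]
      split_ifs
      · exact le_rfl
      · exact zero_le_one
    refine (Finset.sum_le_sum fun x _ => h3 x).trans ?_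
    rw [Finset.sum_const, nsmul_eq_mul, mul_one, Finset.card_univ]
    linarith

end Lab

theorem labels (k0 c1 : ℕ) (hk : 0 < k0) (θ : ℝ) (hθ : 0 < θ) :
    ∃ n : ℕ, 0 < n ∧ 16 ∣ n ∧ ∀ (V A : Type) [Fintype V] (anch : Finset A) (e : A → Finset V)
      (𝒟 : A → ℕ → Finset (V → ℝ)) (Mmax : ℕ),
      (∀ a ∈ anch, (e a).card ≤ 2 ^ (k0 * (4 * n ^ 3))) →
      (∀ v, (anch.filter fun a => v ∈ e a).card ≤ 2 ^ (k0 * (4 * n ^ 3))) →
      (∀ a M, (𝒟 a M).card ≤ 2 ^ (c1 * (M + n ^ 3))) →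
      ∃ δ : V → ℝ, (∀ v, 0 ≤ δ v ∧ δ v ≤ (n : ℝ) ^ 6 / 2) ∧
        ∀ a ∈ anch, ∀ M ≤ Mmax, ∀ th ∈ 𝒟 a M, (∀ v ∈ e a, δ v ≤ th v + 2 * (n : ℝ) ^ 3) →
          (((e a).filter fun v => |δ v - th v| ≤ 8 * (n : ℝ) ^ 2).card : ℝ) ≤
            θ * (M + (n : ℝ) ^ 3) / 2 := by
  obtain ⟨u, hu⟩ := exists_nat_ge (((c1 + 8 * k0 + 5 : ℕ) : ℝ) / (θ / 2))
  rw [div_le_iff₀ (by positivity)] at hu
  obtain ⟨l, hl⟩ : ∃ l : ℕ, l = 2 ^ (48 * k0 + 1 + u) := ⟨_, rfl⟩
  have hl0 : 0 < l := by rw [hl]; positivity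
  obtain ⟨n, hn⟩ : ∃ n : ℕ, n = 272 * k0 * l := ⟨_, rfl⟩
  have hn8 : 8 ≤ n := by
    have := Nat.mul_pos hk hl0
    rw [hn, mul_assoc]
    omega
  have hn0 : 0 < n := by omega
  refine ⟨n, hn0, ⟨17 * k0 * l, by rw [hn]; ring⟩, ?_⟩
  intro V A _ anch e 𝒟 Mmax he hdeg hD
  have hnR : (n : ℝ) = 272 * k0 * l := by rw [hn]; push_cast; ring
  have hn8R : (8 : ℝ) ≤ n := by exact_mod_cast hn8
  have hkR : (1 : ℝ) ≤ k0 := by exact_mod_cast hk
  have hlR : (0 : ℝ) < l := by exact_mod_cast hl0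
  have hsq : (0 : ℝ) < (n : ℝ) ^ 2 := by positivity
  have : Nonempty (Fin l × Fin (2 ^ (k0 * (4 * n ^ 3)))) := ⟨(⟨0, hl0⟩, ⟨0, by positivity⟩)⟩
  have hkey : (k0 : ℝ) * l * (17 * (n : ℝ) ^ 2) = (n : ℝ) ^ 3 / 16 := by
    rw [pow_succ (n : ℝ) 2]
    nth_rewrite 3 [hnR]
    ring
  obtain ⟨φ, hφ⟩ := Lab.avoid
    (fun x : Fin l × Fin (2 ^ (k0 * (4 * n ^ 3))) =>
      (Lab.lev l (k0 * (4 * n ^ 3)) x : ℝ) * (17 * (n : ℝ) ^ 2))
    (s1 := 8 * (n : ℝ) ^ 2) (s2 := 2 * (n : ℝ) ^ 3) k0 c1 u (n ^ 3) (by positivity) hθ hu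
    (fun th => Lab.sum_wgt l _ (48 * k0 + 1) u hl (by positivity) (by linarith) (by
      push_cast
      have : 8 * (n : ℝ) ^ 2 ≤ (n : ℝ) ^ 3 := by nlinarith
      nlinarith) th) V A anch e 𝒟 Mmax he hdeg hD
  refine ⟨fun v => (Lab.lev l (k0 * (4 * n ^ 3)) (φ v) : ℝ) * (17 * (n : ℝ) ^ 2),
    fun v => ⟨by positivity, ?_⟩, ?_⟩
  · have h1 : Lab.lev l (k0 * (4 * n ^ 3)) (φ v) ≤ k0 * (4 * n ^ 3) * l + k0 * l := by
      unfold Lab.lev
      have h2 := (φ v).1.2
      have h3 : l ≤ k0 * l := Nat.le_mul_of_pos_left _ hk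
      have h4 : (k0 * (4 * n ^ 3) - Nat.size (φ v).2.1) * l ≤ k0 * (4 * n ^ 3) * l :=
        Nat.mul_le_mul_right _ (Nat.sub_le _ _)
      omega
    have h2 : (Lab.lev l (k0 * (4 * n ^ 3)) (φ v) : ℝ) ≤ k0 * (4 * (n : ℝ) ^ 3) * l + k0 * l := by
      exact_mod_cast h1
    have h3 : (1 : ℝ) ≤ (n : ℝ) ^ 3 := one_le_pow₀ (by linarith)
    calc (Lab.lev l (k0 * (4 * n ^ 3)) (φ v) : ℝ) * (17 * (n : ℝ) ^ 2)
        ≤ (k0 * (4 * (n : ℝ) ^ 3) * l + k0 * l) * (17 * (n : ℝ) ^ 2) :=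
          mul_le_mul_of_nonneg_right h2 (by positivity)
      _ = (4 * (n : ℝ) ^ 3 + 1) * ((k0 : ℝ) * l * (17 * (n : ℝ) ^ 2)) := by ring
      _ = (4 * (n : ℝ) ^ 3 + 1) * ((n : ℝ) ^ 3 / 16) := by rw [hkey]
      _ ≤ (n : ℝ) ^ 6 / 2 := by nlinarith
  · intro a ha M hM th hth hle
    have := hφ a ha M hM th hth hle
    push_cast at this
    exact this

end Pool.Agent.Lib.MP_7903c7_al.RF
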