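import Pool.Agent.Lib.MP_7903c7_al.RF.Defs

set_option autoImplicit false

/-!
Rounding of monotone times to a coarse grid.
-/

namespace Pool.Agent.Lib.MP_7903c7_al.RF

open Finset
open scoped Classical Pointwise

namespace Round

theorem lip {f : ℤ → ℝ} {α : ℝ} (h : ∀ v, |f (v + 1) - f v| ≤ α) (a b : ℤ) :
    |f a - f b| ≤ α * |(a : ℝ) - b| := by
  have key : ∀ (b : ℤ) (k : ℕ), |f (b + k) - f b| ≤ α * k := fun b k => by
    induction k with
    | zero => simp
    | succ k ih =>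
      have := h (b + k)
      have e := abs_sub_le (f (b + k + 1)) (f (b + k)) (f b)
      push_cast
      rw [← add_assoc]
      linarith
  wlog hab : b ≤ a generalizing a b
  · rw [abs_sub_comm, abs_sub_comm (a : ℝ)]
    exact this b a (by omega)
  obtain ⟨k, rfl⟩ := Int.le.dest hab
  simpa using key b k

theorem mixed {c : ℤ → ℝ} {β : ℝ} (h : ∀ v, |c (v + 1 + 1) - c (v + 1) - (c (v + 1) - c v)| ≤ β)
    (x y a b : ℤ) :
    |c (x - a) - c (x - b) - (c (y - a) - c (y - b))| ≤ β * |(x : ℝ) - y| * |(a : ℝ) - b| := by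
  have := lip (f := fun v => c (x - v) - c (y - v)) (α := β * |(x : ℝ) - y|) (fun v => by
    have := lip (f := fun v => c (v + 1) - c v) h (x - (v + 1)) (y - (v + 1))
    rw [show x - (v + 1) + 1 = x - v by ring, show y - (v + 1) + 1 = y - v by ring] at this
    rw [← abs_neg]
    convert this using 2
    · ring
    · push_cast
      congr 1
      ring) a b
  convert this using 2
  ring

theorem linz {c : ℤ → ℝ} {β : ℝ} (h : ∀ v, |c (v + 1 + 1) - c (v + 1) - (c (v + 1) - c v)| ≤ β)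
    (x : ℤ) {k E : ℕ} (hE : 0 < E) (hk : k ≤ E) :
    |c (x - k) - c x - (k : ℝ) / E * (c (x - E) - c x)| ≤ 2 * (β * (E : ℝ) ^ 2) := by
  have β0 : 0 ≤ β := (abs_nonneg _).trans (h 0)
  have key : ∀ k : ℕ, |c (x - k) - c x - k * (c (x - 1) - c x)| ≤ β * (k : ℝ) ^ 2 := fun k => by
    induction k with
    | zero => simp
    | succ k ih =>
      have := mixed h (x - k) x 1 0
      simp only [sub_zero, Int.cast_sub, Int.cast_natCast, sub_sub_cancel_left, abs_neg,
        Nat.abs_cast, Int.cast_one, Int.cast_zero, abs_one, mul_one] at this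
      have k0 : 0 ≤ β * k := by positivity
      push_cast
      rw [← sub_sub]
      rw [abs_le] at *
      constructor <;> nlinarith
  have E0 : (0 : ℝ) < E := by exact_mod_cast hE
  have kE : (k : ℝ) ≤ E := by exact_mod_cast hk
  have e : c (x - k) - c x - (k : ℝ) / E * (c (x - E) - c x) =
      c (x - k) - c x - k * (c (x - 1) - c x) -
        (k : ℝ) / E * (c (x - E) - c x - E * (c (x - 1) - c x)) := by
    field_simp
    ring
  rw [e]
  refine (abs_sub _ _).trans ?_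
  rw [abs_mul, abs_of_nonneg (by positivity : (0 : ℝ) ≤ k / E)]
  have a1 := (key k).trans (mul_le_mul_of_nonneg_left (pow_le_pow_left₀ (by positivity) kE 2) β0)
  have a2 := mul_le_mul ((div_le_one E0).2 kE) (key E) (abs_nonneg _) zero_le_one
  linarith

theorem greedy {ι : Type} (s : Finset ι) (a : ℕ → ι → ℝ) (lam : ℕ → ℝ) (M : ℕ)
    (h : ∀ j < M, 0 ≤ lam j ∧ lam j ≤ 1) : ∃ b : ℕ → ℕ, (∀ j, b j ≤ 1) ∧
      ∑ i ∈ s, (∑ j ∈ range M, (b j - lam j) * a j i) ^ 2 ≤ ∑ j ∈ range M, ∑ i ∈ s, a j i ^ 2 := by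
  induction M with
  | zero => exact ⟨fun _ => 0, fun _ => zero_le_one, by simp⟩
  | succ M ih =>
    obtain ⟨b, b1, hb⟩ := ih fun j hj => h j (by omega)
    obtain ⟨l0, l1⟩ := h M (by omega)
    set S : ι → ℝ := fun i => ∑ j ∈ range M, (b j - lam j) * a j i with hS
    obtain ⟨e, e1, e2, e3⟩ : ∃ e : ℕ, e ≤ 1 ∧ (e - lam M) * ∑ i ∈ s, S i * a M i ≤ 0 ∧
        (e - lam M) ^ 2 ≤ 1 := by
      rcases le_total 0 (∑ i ∈ s, S i * a M i) with p | p
      · exact ⟨0, zero_le_one, by push_cast; nlinarith, by push_cast; nlinarith⟩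
      · exact ⟨1, le_rfl, by push_cast; nlinarith, by push_cast; nlinarith⟩
    refine ⟨Function.update b M e, fun j => ?_, ?_⟩
    · rw [Function.update_apply]
      split_ifs
      exacts [e1, b1 j]
    have e4 : ∀ i, (∑ j ∈ range (M + 1), ((Function.update b M e j : ℕ) - lam j) * a j i) ^ 2 =
        S i ^ 2 + 2 * ((e - lam M) * (S i * a M i)) + (e - lam M) ^ 2 * a M i ^ 2 := fun i => by
      rw [sum_range_succ, Function.update_self, sum_congr rfl fun j hj => by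
        rw [Function.update_of_ne (mem_range.1 hj).ne]]
      ring
    simp only [e4, sum_add_distrib, ← mul_sum]
    rw [sum_range_succ]
    have := mul_le_of_le_one_left (sum_nonneg fun i (_ : i ∈ s) => sq_nonneg (a M i)) e3
    linarith

theorem markov {K : Type} (A : Finset K) (f : K → ℝ) (h0 : ∀ κ, 0 ≤ f κ) {B : ℝ} (hB : 0 < B)
    (h : ∑ κ ∈ A, f κ ≤ A.card * B) : A.card ≤ 2 * (A.filter fun κ => f κ ≤ 2 * B).card := by
  have a := card_nsmul_le_sum (A.filter fun κ => ¬ f κ ≤ 2 * B) f (2 * B)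
    fun κ hκ => (not_le.1 (mem_filter.1 hκ).2).le
  have b := sum_le_sum_of_subset_of_nonneg (filter_subset (fun κ => ¬ f κ ≤ 2 * B) A)
    fun κ _ _ => h0 κ
  have c := card_filter_add_card_filter_not (s := A) fun κ => f κ ≤ 2 * B
  rw [nsmul_eq_mul] at a
  have d : (2 * (A.filter fun κ => ¬ f κ ≤ 2 * B).card : ℝ) ≤ A.card :=
    le_of_mul_le_mul_right (by linarith) hB
  have d' : 2 * (A.filter fun κ => ¬ f κ ≤ 2 * B).card ≤ A.card := by exact_mod_cast d
  omega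

theorem count (M Q : ℕ) :
    ((Fintype.piFinset fun _ : Fin M => range Q).filter Monotone).card ≤ 2 ^ (Q + M) := by
  rw [← card_range (Q + M), ← card_powerset]
  refine card_le_card_of_injOn (fun c => univ.image fun j : Fin M => c j + j) ?_ ?_
  · intro c hc
    rw [mem_coe, mem_filter, Fintype.mem_piFinset] at hc
    rw [mem_coe, mem_powerset, image_subset_iff]
    intro j _
    have := mem_range.1 (hc.1 j)
    rw [mem_range]
    omega
  · intro c hc c' hc' e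
    rw [mem_coe, mem_filter] at hc hc'
    have sm : ∀ c : Fin M → ℕ, Monotone c → StrictMono fun j : Fin M => c j + j :=
      fun c hc i j hij => add_lt_add_of_le_of_lt (hc hij.le) hij
    have := ((sm c hc.2).range_inj (sm c' hc'.2)).1 (by
      simpa only [coe_image, coe_univ, Set.image_univ] using
        congrArg (fun s : Finset ℕ => (s : Set ℕ)) e)
    funext j
    exact add_right_cancel (congrFun this j)

theorem step (n0 T : ℕ) (v : ℤ) : cK n0 T (v + 1) - cK n0 T v =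
    max ((T * n0 : ℝ) - |(v : ℝ)|) 0 / (n0 * (T * n0)) := by
  rw [cK, cK, Fw, Fw, ← sum_sub_distrib, sum_congr rfl (g := fun u : ℤ => if u = -v then
    ((T * n0 : ℝ) - |(u : ℝ)|) / (n0 * (T * n0)) else 0) fun u _ => by
      split_ifs <;> first | omega | simp, sum_ite_eq']
  split_ifs with h
  · rw [mem_Ioo] at h
    have : |v| ≤ T * n0 := abs_le.2 ⟨by omega, by omega⟩
    rw [Int.cast_neg, abs_neg, max_eq_left (sub_nonneg.2 (by exact_mod_cast this))]
  · rw [mem_Ioo] at h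
    have : (T * n0 : ℤ) ≤ |v| := by
      rcases abs_cases v with a | a <;> omega
    rw [max_eq_right (sub_nonpos.2 (by exact_mod_cast this)), zero_div]

theorem step1 {n0 T : ℕ} (hn0 : 0 < n0) (hT : 0 < T) (v : ℤ) :
    |cK n0 T (v + 1) - cK n0 T v| ≤ 1 / n0 := by
  rw [step, abs_of_nonneg (by positivity), div_le_div_iff₀ (by positivity) (by positivity), one_mul,
    mul_comm]
  exact mul_le_mul_of_nonneg_left (max_le (sub_le_self _ (abs_nonneg _)) (by positivity))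
    (by positivity)

theorem step2 (n0 T : ℕ) (v : ℤ) : |cK n0 T (v + 1 + 1) - cK n0 T (v + 1) -
    (cK n0 T (v + 1) - cK n0 T v)| ≤ 1 / (n0 * (T * n0)) := by
  rw [step, step, ← sub_div, abs_div, abs_of_nonneg (a := (n0 * (T * n0) : ℝ)) (by positivity)]
  refine div_le_div_of_nonneg_right ((abs_max_sub_max_le_abs _ _ _).trans ?_) (by positivity)
  rw [sub_sub_sub_cancel_left]
  refine (abs_abs_sub_abs_le _ _).trans ?_
  simp

/-- the analytic part, for an abstract kernel. -/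
theorem core {c : ℤ → ℝ} {α β : ℝ} (h1 : ∀ v, |c (v + 1) - c v| ≤ α)
    (h2 : ∀ v, |c (v + 1 + 1) - c (v + 1) - (c (v + 1) - c v)| ≤ β) {M E n : ℕ} (hE : 0 < E)
    (lo t : ℕ → ℤ) (ht : ∀ j < M, lo j ≤ t j ∧ t j ≤ lo j + E) (net : ℕ → ℤ) {K : Type}
    (A : Finset K) (D : K → ℕ → ℝ) (hD : ∀ κ j, |D κ j| ≤ 1) {B : ℝ} (hB : 0 < B)
    (hn : M * (n * (α * E) ^ 2) ≤ B ^ 2 / 2) :
    ∃ b : ℕ → ℕ, (∀ j, b j ≤ 1) ∧
      (∀ σ : ℤ, ∑ j ∈ range M, |c (σ - (lo j + b j * E)) - c (σ - t j)| ≤ M * (α * E)) ∧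
      ∃ A' ⊆ A, A.card ≤ 2 * A'.card ∧ ∀ κ ∈ A', ∀ i < n, ∀ σ : ℤ,
        |∑ j ∈ range M, D κ j * (c (σ - (lo j + b j * E)) - c (σ - t j))| ≤
          B + M * (2 * (β * (E : ℝ) ^ 2)) + M * (β * |(σ : ℝ) - net i| * E) := by
  have α0 : 0 ≤ α := (abs_nonneg _).trans (h1 0)
  have β0 : 0 ≤ β := (abs_nonneg _).trans (h2 0)
  have E0 : (0 : ℝ) < E := by exact_mod_cast hE
  choose! k hk using fun j (hj : j < M) => Int.le.dest (ht j hj).1
  have kE : ∀ j < M, k j ≤ E := fun j hj => by have := ht j hj; have := hk j hj; omega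
  obtain ⟨b, b1, hb⟩ := greedy (A ×ˢ range n)
    (fun j q => D q.1 j * (c (net q.2 - lo j - E) - c (net q.2 - lo j))) (fun j => (k j : ℝ) / E) M
    fun j hj => ⟨by positivity, (div_le_one E0).2 (by exact_mod_cast kE j hj)⟩
  have dist : ∀ j ∈ range M, |((lo j + b j * E : ℤ) : ℝ) - t j| ≤ E := fun j hj => by
    have := ht j (mem_range.1 hj)
    have e : |lo j + b j * E - t j| ≤ E := by
      rcases Nat.le_one_iff_eq_zero_or_eq_one.1 (b1 j) with e | e <;> rw [e, abs_le] <;>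
        constructor <;> push_cast <;> omega
    exact_mod_cast e
  have sm : ∀ (f : ℕ → ℝ) (x : ℝ), (∀ j ∈ range M, f j ≤ x) → ∑ j ∈ range M, f j ≤ M * x :=
    fun f x h => by simpa using sum_le_card_nsmul _ f x h
  have sD : ∀ κ (f : ℕ → ℝ) (x : ℝ), (∀ j ∈ range M, |f j| ≤ x) →
      |∑ j ∈ range M, D κ j * f j| ≤ M * x := fun κ f x h =>
    (abs_sum_le_sum_abs _ _).trans (sm _ _ fun j hj => by
      rw [abs_mul]
      exact (mul_le_of_le_one_left (abs_nonneg _) (hD κ j)).trans (h j hj))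
  refine ⟨b, b1, fun σ => sm _ _ fun j hj => (lip h1 _ _).trans
    (mul_le_mul_of_nonneg_left ?_ α0), ?_⟩
  · rw [Int.cast_sub, Int.cast_sub, sub_sub_sub_cancel_left, abs_sub_comm]
    exact dist j hj
  rw [sum_product] at hb
  refine ⟨_, filter_subset _ _, markov A _ (fun κ => sum_nonneg fun _ _ => sq_nonneg _)
    (B := B ^ 2 / 2) (by positivity) (hb.trans ((sm _ (A.card * (n * (α * E) ^ 2))
      fun j _ => ?_).trans ?_)), fun κ hκ i hi σ => ?_⟩
  · refine (sum_le_card_nsmul _ _ ((α * E) ^ 2) fun q _ => ?_).trans_eq ?_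
    · rw [← sq_abs, abs_mul]
      refine pow_le_pow_left₀ (by positivity)
        ((mul_le_of_le_one_left (abs_nonneg _) (hD _ j)).trans ?_) 2
      simpa using lip h1 (net q.2 - lo j - E) (net q.2 - lo j)
    · rw [card_product, card_range, nsmul_eq_mul, Nat.cast_mul, mul_assoc]
  · rw [mul_left_comm]
    exact mul_le_mul_of_nonneg_left hn (Nat.cast_nonneg _)
  have a1 := abs_le_of_sq_le_sq' (b := B) (((single_le_sum (fun _ _ => sq_nonneg _)
    (mem_range.2 hi)).trans (mem_filter.1 hκ).2).trans_eq (by ring)) hB.le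
  have a2 := sD κ _ _ fun j hj => linz h2 (net i - lo j) hE (kE j (mem_range.1 hj))
  have a3 := sD κ _ _ fun j hj => (mixed h2 σ (net i) (lo j + b j * E) (t j)).trans
    (mul_le_mul_of_nonneg_left (dist j hj) (by positivity))
  have e : ∑ j ∈ range M, D κ j * (c (σ - (lo j + b j * E)) - c (σ - t j)) =
      ∑ j ∈ range M, (b j - (k j : ℝ) / E) * (D κ j * (c (net i - lo j - E) - c (net i - lo j))) -
      ∑ j ∈ range M, D κ j * (c (net i - lo j - k j) - c (net i - lo j) -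
        (k j : ℝ) / E * (c (net i - lo j - E) - c (net i - lo j))) +
      ∑ j ∈ range M, D κ j * (c (σ - (lo j + b j * E)) - c (σ - t j) -
        (c (net i - (lo j + b j * E)) - c (net i - t j))) := by
    rw [← sum_sub_distrib, ← sum_add_distrib]
    refine sum_congr rfl fun j hj => ?_
    rw [← hk j (mem_range.1 hj), ← sub_sub (net i), ← sub_sub (net i)]
    rcases Nat.le_one_iff_eq_zero_or_eq_one.1 (b1 j) with e | e <;> simp only [e] <;> simp <;> ring
  rw [e, abs_le] at *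
  constructor <;> linarith [a1.1, a1.2, a2.1, a2.2, a3.1, a3.2]

end Round

open Round

theorem rounding (n n0 M : ℕ) (hn : 2 ≤ n) (hn0 : M + n ^ 3 ≤ n ^ 3 * n0) :
    ∃ 𝒯 : Finset (ℕ → ℤ), 𝒯.card ≤ 2 ^ (6 * (M + n ^ 3)) ∧ ∀ t : ℕ → ℤ,
      (∀ i j, i ≤ j → j < M → t i ≤ t j) →
      (∀ j < M, -(2 * (n ^ 3 * n0) : ℤ) ≤ t j ∧ t j < 2 * (n ^ 3 * n0)) →
      ∀ (K : Type) (A : Finset K) (D : K → ℕ → ℝ), (∀ κ j, |D κ j| ≤ 1) →
        ∃ t' ∈ 𝒯,
          (∀ σ : ℤ, ∑ j ∈ range M, |cK n0 (n ^ 3) (σ - t' j) - cK n0 (n ^ 3) (σ - t j)| ≤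
            2 * (n : ℝ) ^ 3) ∧
          ∃ A' ⊆ A, A.card ≤ 2 * A'.card ∧ ∀ κ ∈ A', ∀ σ : ℤ, |σ| < n ^ 3 * n0 →
            |∑ j ∈ range M, D κ j * (cK n0 (n ^ 3) (σ - t' j) - cK n0 (n ^ 3) (σ - t j))| ≤
              6 * (n : ℝ) ^ 2 := by
  have hT : 0 < n ^ 3 := by positivity
  have h0 : 0 < n0 := Nat.pos_of_mul_pos_left (a := n ^ 3) (by omega)
  obtain ⟨E, e1, e2⟩ : ∃ E : ℕ, n ^ 3 * n0 ≤ (M + n ^ 3) * E ∧
      (M + n ^ 3) * E ≤ 2 * (n ^ 3 * n0) := by
    refine ⟨n ^ 3 * n0 / (M + n ^ 3) + 1, ?_, ?_⟩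
    · exact (Nat.lt_mul_div_succ _ (by omega)).le
    · have := Nat.mul_div_le (n ^ 3 * n0) (M + n ^ 3)
      rw [mul_add_one]
      omega
  have hE : 0 < E := Nat.pos_of_mul_pos_left (a := M + n ^ 3) (by omega)
  refine ⟨(((Fintype.piFinset fun _ : Fin M => range (4 * (M + n ^ 3))).filter Monotone) ×ˢ
    (Fintype.piFinset fun _ : Fin M => range 2)).image fun q j => if h : j < M then
      -(2 * (n ^ 3 * n0) : ℤ) + q.1 ⟨j, h⟩ * E + q.2 ⟨j, h⟩ * E else 0, ?_,
    fun t mono bd K A D hD => ?_⟩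
  · refine card_image_le.trans ?_
    rw [card_product, Fintype.card_piFinset_const, card_range]
    refine (Nat.mul_le_mul_right _ (count _ _)).trans ?_
    rw [← pow_add]
    exact Nat.pow_le_pow_right two_pos (by omega)
  have E0 : (0 : ℤ) < E := by exact_mod_cast hE
  set cl : ℕ → ℕ := fun j => ((t j + 2 * (n ^ 3 * n0)) / E).toNat with hcl
  have c1 : ∀ j < M, (cl j : ℤ) = (t j + 2 * (n ^ 3 * n0)) / E := fun j hj =>
    Int.toNat_of_nonneg (Int.ediv_nonneg (by linarith [(bd j hj).1]) E0.le)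
  have n2 : (2 : ℝ) ≤ n := by exact_mod_cast hn
  have N0 : (0 : ℝ) < n0 := by exact_mod_cast h0
  have M0 : (0 : ℝ) ≤ M := Nat.cast_nonneg _
  have T0 : (0 : ℝ) < (n : ℝ) ^ 3 := by positivity
  set x : ℝ := 1 / n0 * E with hx
  have x0 : 0 ≤ x := by positivity
  have x1 : (M + (n : ℝ) ^ 3) * x ≤ 2 * (n : ℝ) ^ 3 := by
    rw [hx, one_div, inv_mul_eq_div, ← mul_div_assoc, div_le_iff₀ N0, mul_assoc]
    exact_mod_cast e2
  have x2 : M * x ≤ 2 * (n : ℝ) ^ 3 := by linarith [mul_nonneg T0.le x0]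
  have x3 : M * x ^ 2 ≤ (n : ℝ) ^ 3 := by
    refine le_of_mul_le_mul_right ?_ T0
    have := pow_le_pow_left₀ (by positivity) x1 2
    nlinarith [sq_nonneg ((M - (n : ℝ) ^ 3) * x)]
  obtain ⟨b, b1, p1, A', sub, p2, p3⟩ := core (step1 h0 hT) (step2 n0 (n ^ 3)) (M := M) (n := n) hE
    (fun j => -(2 * (n ^ 3 * n0) : ℤ) + cl j * E) t (fun j hj => by
      have := Int.ediv_mul_le (t j + 2 * (n ^ 3 * n0)) E0.ne'
      have := Int.lt_ediv_add_one_mul_self (t j + 2 * (n ^ 3 * n0)) E0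
      rw [c1 j hj]
      constructor <;> linarith)
    (fun i => -(n ^ 3 * n0 : ℤ) + i * (2 * n ^ 2 * n0)) A D hD (B := 3 / 2 * (n : ℝ) ^ 2)
    (by positivity) (by
      have := mul_le_mul_of_nonneg_left x3 (Nat.cast_nonneg (α := ℝ) n)
      have : (0 : ℝ) ≤ (n : ℝ) ^ 4 := by positivity
      rw [← hx]
      linarith)
  refine ⟨_, mem_image.2 ⟨(fun j => cl j, fun j => b j), ?_, rfl⟩, fun σ => ?_, A', sub, p2,
    fun κ hκ σ hσ => ?_⟩
  · simp only [mem_product, mem_filter, Fintype.mem_piFinset, mem_range]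
    refine ⟨⟨fun j => ?_, fun i j hij => Int.toNat_le_toNat (Int.ediv_le_ediv E0 ?_)⟩,
      fun j => Nat.lt_succ_of_le (b1 j)⟩
    · have : (cl j : ℤ) < 4 * (M + n ^ 3) := by
        rw [c1 j j.2, Int.ediv_lt_iff_lt_mul E0]
        have : (n ^ 3 * n0 : ℤ) ≤ (M + n ^ 3) * E := by exact_mod_cast e1
        linarith [(bd j j.2).2]
      exact_mod_cast this
    · linarith [mono i j hij j.2]
  · exact (sum_congr rfl fun j hj => by rw [dif_pos (mem_range.1 hj)]).trans_le ((p1 σ).trans x2)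
  have w0 : (0 : ℤ) < 2 * n ^ 2 * n0 := by positivity
  rw [abs_lt] at hσ
  obtain ⟨i, hi⟩ := Int.eq_ofNat_of_zero_le
    (Int.ediv_nonneg (a := σ + n ^ 3 * n0) (by linarith) w0.le)
  have i1 := Int.ediv_mul_le (σ + n ^ 3 * n0) w0.ne'
  have i2 := Int.lt_ediv_add_one_mul_self (σ + n ^ 3 * n0) w0
  rw [hi] at i1 i2
  have i3 : (i : ℤ) < n := lt_of_mul_lt_mul_right (by linarith) w0.le
  have i4 : |σ - (-(n ^ 3 * n0 : ℤ) + i * (2 * n ^ 2 * n0))| ≤ (2 * n ^ 2 * n0 : ℤ) :=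
    abs_le.2 ⟨by linarith, by linarith⟩
  have i5 : |(σ : ℝ) - ((-(n ^ 3 * n0 : ℤ) + i * (2 * n ^ 2 * n0) : ℤ) : ℝ)| ≤ 2 * n ^ 2 * n0 := by
    exact_mod_cast i4
  refine (congrArg abs (sum_congr rfl fun j hj => by rw [dif_pos (mem_range.1 hj)])).trans_le
    ((p3 κ hκ i (by exact_mod_cast i3) σ).trans ?_)
  have y1 : M * (2 * (1 / (n0 * ((n ^ 3 : ℕ) * n0)) * (E : ℝ) ^ 2)) = 2 * (M * x ^ 2 / n ^ 3) := by
    rw [hx]
    push_cast
    field_simp
  have y2 : M * (1 / (n0 * ((n ^ 3 : ℕ) * n0)) * (2 * n ^ 2 * n0) * (E : ℝ)) =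
      2 * n ^ 2 * (M * x / n ^ 3) := by
    rw [hx]
    push_cast
    field_simp
  have y3 := (div_le_one T0).2 x3
  have y4 := mul_le_mul_of_nonneg_left ((div_le_iff₀ T0).2 x2)
    (show (0 : ℝ) ≤ 2 * n ^ 2 by positivity)
  have y5 := mul_le_mul_of_nonneg_left (mul_le_mul_of_nonneg_right (mul_le_mul_of_nonneg_left i5
    (show (0 : ℝ) ≤ 1 / (n0 * ((n ^ 3 : ℕ) * n0)) by positivity)) (Nat.cast_nonneg E)) M0
  nlinarith

end Pool.Agent.Lib.MP_7903c7_al.RF
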