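import Pool.Agent.Lib.MP_7903c7_al.RF.Anch
import Pool.Agent.Lib.MP_7903c7_al.RF.Lab
import Pool.Agent.Lib.MP_7903c7_al.RF.Round
import Pool.Agent.Lib.MP_7903c7_al.RF.Win

set_option autoImplicit false

/-! The local count of components near the top. -/

namespace Pool.Agent.Lib.MP_7903c7_al.RF

open Finset
open scoped Classical Pointwise

namespace Loc

variable {G : Type} [Group G]

theorem word {S : Finset G} (m : ℕ) {x : G} (hx : x ∈ (S : Set G) ^ m) :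
    ∃ q : ℕ → G, q 0 = 1 ∧ q m = x ∧ ∀ j < m, (q j)⁻¹ * q (j + 1) ∈ S := by
  induction m generalizing x with
  | zero => exact ⟨fun _ => 1, rfl, by simpa [eq_comm] using hx, fun j hj => absurd hj (by omega)⟩
  | succ m ih =>
    rw [pow_succ] at hx
    obtain ⟨y, hy, s, hs, rfl⟩ := hx
    obtain ⟨q, q0, q1, q2⟩ := ih hy
    refine ⟨fun j => if j ≤ m then q j else y * s, by simp [q0], by simp, fun j hj => ?_⟩
    rcases Nat.lt_succ_iff_lt_or_eq.1 hj with h | rfl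
    · simpa [h.le, Nat.succ_le_of_lt h] using q2 j h
    · simpa [q1] using hs

theorem paths (S : Finset G) (M : ℕ) : ∃ P : Finset (ℕ → G), P.card ≤ S.card ^ M ∧
    ∀ y : ℕ → G, (∀ j < M, (y j)⁻¹ * y (j + 1) ∈ S) → ∃ p ∈ P, ∀ j ≤ M, y j = y 0 * p j := by
  induction M with
  | zero =>
    refine ⟨{fun _ => 1}, by simp, fun y _ => ⟨_, mem_singleton_self _, fun j hj => ?_⟩⟩
    simp [Nat.le_zero.1 hj]
  | succ M ih =>
    obtain ⟨P, h1, h2⟩ := ih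
    refine ⟨(P ×ˢ S).image fun q => Function.update q.1 (M + 1) (q.1 M * q.2),
      card_image_le.trans ?_, fun y hy => ?_⟩
    · rw [card_product, pow_succ]
      exact Nat.mul_le_mul_right _ h1
    · obtain ⟨p, p1, p2⟩ := h2 y fun j hj => hy j (by omega)
      refine ⟨_, mem_image.2 ⟨(p, (y M)⁻¹ * y (M + 1)), mem_product.2 ⟨p1, hy M (by omega)⟩, rfl⟩,
        fun j hj => ?_⟩
      rcases hj.eq_or_lt with rfl | h
      · simp [← mul_assoc, ← p2 M le_rfl]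
      · rw [Function.update_of_ne h.ne]
        exact p2 j (by omega)

theorem unroll {S : Finset G} {γ : ℤ → G} {ℓ : ℤ → ℕ}
    (h : ∀ t, (γ t)⁻¹ * γ (t + 1) ∈ (S : Set G) ^ ℓ t) (lo : ℤ) (U : ℕ) :
    ∃ (Y : ℕ → G) (t : ℕ → ℤ), (∀ j < ∑ u ∈ Ico lo (lo + U), ℓ u, (Y j)⁻¹ * Y (j + 1) ∈ S) ∧
      (∀ i j, i ≤ j → j < ∑ u ∈ Ico lo (lo + U), ℓ u → t i ≤ t j) ∧
      (∀ j < ∑ u ∈ Ico lo (lo + U), ℓ u, lo ≤ t j ∧ t j < lo + U) ∧
      Y (∑ u ∈ Ico lo (lo + U), ℓ u) = γ (lo + U) ∧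
      ∀ u, lo ≤ u → u ≤ lo + U → ∃ m ≤ ∑ u ∈ Ico lo (lo + U), ℓ u, γ u = Y m ∧
        ∀ j < ∑ u ∈ Ico lo (lo + U), ℓ u, (t j < u ↔ j < m) := by
  induction U with
  | zero =>
    refine ⟨fun _ => γ lo, fun _ => 0, by simp, by simp, by simp, by simp, fun u h1 h2 => ?_⟩
    obtain rfl : u = lo := by omega
    simp
  | succ U ih =>
    obtain ⟨Y, t, h1, h2, h3, h4, h5⟩ := ih
    obtain ⟨q, q0, q1, q2⟩ := word _ (h (lo + U))
    have e : ∑ u ∈ Ico lo (lo + (U + 1 : ℕ)), ℓ u = ∑ u ∈ Ico lo (lo + U), ℓ u + ℓ (lo + U) := by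
      rw [Nat.cast_succ, ← add_assoc, ← Finset.insert_Ico_right_eq_Ico_add_one (by omega),
        sum_insert (by simp), add_comm]
    rw [e]
    generalize ∑ u ∈ Ico lo (lo + U), ℓ u = M at *
    have hY : ∀ j ≤ M, (if j < M then Y j else γ (lo + U) * q (j - M)) = Y j := by
      intro j hj
      split_ifs with k
      · rfl
      · obtain rfl : j = M := by omega
        simp [q0, h4]
    refine ⟨fun j => if j < M then Y j else γ (lo + U) * q (j - M),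
      fun j => if j < M then t j else lo + U, fun j hj => ?_, fun i j hij hj => ?_,
      fun j hj => ?_, ?_, fun u u1 u2 => ?_⟩
    · by_cases k : j < M
      · simp only [hY j k.le, hY (j + 1) k]
        exact h1 j k
      · have k' : ¬ j + 1 < M := by omega
        have := q2 (j - M) (by omega)
        simpa [k, k', show j + 1 - M = j - M + 1 by omega, mul_assoc] using this
    · by_cases k : j < M
      · simp only [k, hij.trans_lt k, if_true]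
        exact h2 i j hij k
      · simp only [k, if_false]
        split_ifs with k'
        · exact (h3 i k').2.le
        · exact le_rfl
    · simp only
      split_ifs with k
      · have := h3 j k
        push_cast
        omega
      · push_cast
        omega
    · simp [q1, add_assoc]
    · push_cast at u2
      rcases u2.eq_or_lt with rfl | k
      · refine ⟨_, le_rfl, by simp [q1, add_assoc], fun j hj => iff_of_true ?_ hj⟩
        simp only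
        split_ifs with k
        · have := h3 j k
          omega
        · omega
      · obtain ⟨m, m1, m2, m3⟩ := h5 u u1 (by omega)
        refine ⟨m, by omega, by simp only [hY m m1, m2], fun j hj => ?_⟩
        simp only
        split_ifs with k'
        · exact m3 j k'
        · omega

theorem tele (φ : ℕ → ℝ) {M m : ℕ} (hm : m ≤ M) (p : ℕ → Prop) [DecidablePred p]
    (hp : ∀ j < M, (p j ↔ j < m)) :
    φ m = φ 0 + ∑ j ∈ range M, (φ (j + 1) - φ j) * if p j then 1 else 0 := by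
  have : ∑ j ∈ range M, ((φ (j + 1) - φ j) * if p j then 1 else 0) =
      ∑ j ∈ range m, (φ (j + 1) - φ j) := by
    rw [← sum_subset (range_subset_range.2 hm)]
    · refine sum_congr rfl fun j hj => ?_
      have := mem_range.1 hj
      rw [if_pos ((hp j (by omega)).2 this), mul_one]
    · intro j h1 h2
      rw [if_neg (fun k => h2 (mem_range.2 ((hp j (mem_range.1 h1)).1 k))), mul_zero]
  rw [this, sum_range_sub]
  ring

theorem Fw_steps (n0 T M : ℕ) (hn0 : 0 < n0) (f : ℤ → ℝ) (c : ℝ) (D : ℕ → ℝ) (t : ℕ → ℤ)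
    (σ : ℤ) (h : ∀ u, |u - σ| < T * n0 →
      f u = c + ∑ j ∈ range M, D j * if t j < u then 1 else 0) :
    Fw n0 T f σ = c * T + ∑ j ∈ range M, D j * cK n0 T (σ - t j) := by
  rw [← Fw_const n0 T hn0 c σ]
  simp only [cK, Fw, mul_sum]
  rw [sum_comm, ← sum_add_distrib]
  refine sum_congr rfl fun u hu => ?_
  rw [h (σ + u) (by simpa [abs_lt] using mem_Ioo.1 hu), mul_add, mul_sum]
  congr 1
  refine sum_congr rfl fun j _ => ?_
  have : (0 < σ - t j + u) ↔ t j < σ + u := by omega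
  simp only [this]
  ring

/-- the average of a function with `M` jumps. -/
noncomputable def Ft (n0 T M : ℕ) (φ : ℕ → ℝ) (t : ℕ → ℤ) (σ : ℤ) : ℝ :=
  φ 0 * T + ∑ j ∈ range M, (φ (j + 1) - φ j) * cK n0 T (σ - t j)

theorem Ft_congr (n0 T M : ℕ) {φ φ' : ℕ → ℝ} (h : ∀ j ≤ M, φ j = φ' j) (t : ℕ → ℤ) :
    Ft n0 T M φ t = Ft n0 T M φ' t := by
  funext σ
  rw [Ft, Ft, h 0 (Nat.zero_le _)]
  congr 1
  refine sum_congr rfl fun j hj => ?_
  have := mem_range.1 hj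
  rw [h j this.le, h (j + 1) this]

theorem Ft_sub (n0 T M : ℕ) (φ : ℕ → ℝ) (t t' : ℕ → ℤ) (σ : ℤ) :
    Ft n0 T M φ t' σ - Ft n0 T M φ t σ = ∑ j ∈ range M, (if j < M then φ (j + 1) - φ j else 0) *
      (cK n0 T (σ - t' j) - cK n0 T (σ - t j)) := by
  rw [Ft, Ft, add_sub_add_left_eq_sub, ← sum_sub_distrib]
  refine sum_congr rfl fun j hj => ?_
  rw [if_pos (mem_range.1 hj), mul_sub]

theorem exists_mx {W : ℤ} (hW : 0 < W) : ∃ mx : (ℤ → ℝ) → ℝ, ∀ F,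
    (∀ σ, |σ| < W → F σ ≤ mx F) ∧ ∃ σ, |σ| < W ∧ mx F = F σ := by
  have : ∀ F : ℤ → ℝ, ∃ σ ∈ Ioo (-W) W, ∀ σ' ∈ Ioo (-W) W, F σ' ≤ F σ := fun F =>
    exists_max_image _ F ⟨0, mem_Ioo.2 ⟨by omega, hW⟩⟩
  choose s h1 h2 using this
  exact ⟨fun F => F (s F), fun F => ⟨fun σ h => h2 F σ (mem_Ioo.2 (abs_lt.1 h)), s F,
    abs_lt.2 (mem_Ioo.1 (h1 F)), rfl⟩⟩

theorem num {n : ℕ} (hn : 16 ≤ n) : 8 * n ^ 4 + 1 ≤ 2 ^ n ^ 3 := by
  have h1 : n ≤ 2 ^ n := Nat.lt_two_pow_self.le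
  have h2 : n ^ 4 ≤ (2 ^ n) ^ 4 := Nat.pow_le_pow_left h1 4
  have h3 : 0 < (2 ^ n) ^ 4 := by positivity
  calc 8 * n ^ 4 + 1 ≤ 2 ^ 4 * (2 ^ n) ^ 4 := by omega
    _ = 2 ^ (4 + n * 4) := by rw [pow_add, pow_mul]
    _ ≤ 2 ^ n ^ 3 := Nat.pow_le_pow_right two_pos (by nlinarith [Nat.mul_le_mul hn hn])

end Loc

theorem local_count (k0 : ℕ) (hk : 0 < k0) (θ : ℝ) (hθ : 0 < θ) :
    ∃ n : ℕ, 0 < n ∧ 16 ∣ n ∧ ∀ (G : Type) [Group G] (g : G) (C : Subgroup G) (S : Finset G)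
      (r0 Δ I0 : ℕ) (X : Geo g C S (4 * n ^ 3) r0 Δ I0), (1 : G) ∈ S → S.card ≤ 2 ^ k0 →
      Δ ≤ 2 ^ (k0 * (4 * n ^ 3)) → (∀ c ∈ C, c * g = g * c) →
      C.relIndex (Subgroup.centralizer {g}) ≠ 0 → ∀ L n0 : ℕ, 4 * n ^ 3 ≤ L → L + 1 ≤ n0 →
      ∃ δ : X.Q → ℝ, (∀ q, 0 ≤ δ q ∧ δ q ≤ (n : ℝ) ^ 6 / 2) ∧
        ∀ γ ℓ, IsLoop g (L * n0) γ → Len S (L * n0) L γ ℓ → ∀ (t0 : ℤ) (a : ℝ) (A : Finset X.K),
          (∀ κ σ, Fw n0 (n ^ 3) (fun t => X.phi κ (γ t)) σ + δ (X.cls κ) ≤ a) →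
          (∀ κ ∈ A, X.phi κ (γ t0) ≠ 0 ∧ ∃ σ : ℤ, |σ - t0| < n ^ 3 * n0 ∧
            a - (n : ℝ) ^ 2 < Fw n0 (n ^ 3) (fun t => X.phi κ (γ t)) σ + δ (X.cls κ)) →
          (A.card : ℝ) ≤ θ * ((∑ u ∈ Ico (t0 - 2 * (n ^ 3 * n0)) (t0 + 2 * (n ^ 3 * n0)),
            ℓ u : ℕ) + (n : ℝ) ^ 3) := by
  obtain ⟨n, hn, h16, hlab⟩ := labels k0 (k0 + 8) hk θ hθ
  refine ⟨n, hn, h16, fun G _ g C S r0 Δ I0 X h1 hS hΔ hc hi L n0 hL hn0 => ?_⟩
  have n16 : 16 ≤ n := Nat.le_of_dvd hn h16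
  have p0 : 0 < n0 := by omega
  have nR : (16 : ℝ) ≤ n := by exact_mod_cast n16
  have one : (1 : G) ∈ (S : Set G) ^ r0 := Set.one_mem_pow (mem_coe.2 h1)
  have sep : ∀ κ κ' y, X.cls κ = X.cls κ' → X.phi κ y ≠ 0 → X.phi κ' y ≠ 0 → κ = κ' :=
    fun κ κ' y a b c => X.sep κ κ' y 1 one a b (by rwa [mul_one])
  obtain ⟨Y, hY1, hY2⟩ := anchors g C hc hi (S ^ L)
  choose seen hs1 hs2 using X.phi_fin
  obtain ⟨cl, cl1, cl2⟩ : ∃ cl : G → Finset X.Q, (∀ y, (cl y).card ≤ Δ) ∧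
      ∀ y q, q ∈ cl y ↔ ∃ κ, X.phi κ y ≠ 0 ∧ X.cls κ = q :=
    ⟨fun y => ((seen y).filter fun κ => X.phi κ y ≠ 0).image X.cls,
      fun y => card_image_le.trans ((card_filter_le _ _).trans (hs1 y)), fun y q =>
      mem_image.trans ⟨fun ⟨κ, a, b⟩ => ⟨κ, (mem_filter.1 a).2, b⟩,
        fun ⟨κ, a, b⟩ => ⟨κ, mem_filter.2 ⟨hs2 y κ a, a⟩, b⟩⟩⟩
  have hkap : ∀ z q, ∃ κ, q ∈ cl z → X.phi κ z ≠ 0 ∧ X.cls κ = q := fun z q => by
    by_cases h : q ∈ cl z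
    · exact ((cl2 z q).1 h).imp fun _ k _ => k
    · exact ⟨(X.phi_top 1).choose, fun k => absurd k h⟩
  choose kap hkap using hkap
  choose P hP1 hP2 using Loc.paths S
  have hT := fun M (h : M ≤ L) => rounding n n0 M (by omega)
    (by nlinarith [Nat.mul_le_mul_left (n ^ 3) hn0, Nat.le_mul_of_pos_left L (pow_pos hn 3)])
  choose! 𝒯 hT1 hT2 using hT
  have pW : (0 : ℤ) < n ^ 3 * n0 := by positivity
  obtain ⟨mx, hmx⟩ := Loc.exists_mx pW
  obtain ⟨δ, hδ, H⟩ := hlab (Y.biUnion cl) G Y (fun z => univ.filter fun v => v.1 ∈ cl z)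
    (fun z M => if M ≤ L then
      (P M ×ˢ range (M + 1) ×ˢ 𝒯 M ×ˢ range (8 * n ^ 4 + 1)).image fun d v =>
        d.2.2.2 * (n : ℝ) ^ 2 - mx (Loc.Ft n0 (n ^ 3) M
          (fun j => X.phi (kap z v.1) (z * (d.1 d.2.1)⁻¹ * d.1 j)) d.2.2.1) else ∅) L
    (fun z _ => (card_le_card_of_injOn Subtype.val (fun v hv => by simpa using hv)
      Subtype.val_injective.injOn).trans ((cl1 z).trans hΔ))
    (fun v => by
      obtain ⟨Z, z1, z2⟩ := X.deg v.1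
      have : ∀ y, ∃ z, v.1 ∈ cl y → z ∈ Z ∧ ∃ c ∈ C, y = c * z := fun y => by
        by_cases h : v.1 ∈ cl y
        · obtain ⟨c, c1, z, c2, c3⟩ := z2 _ y (hkap y _ h).2 (hkap y _ h).1
          exact ⟨z, fun _ => ⟨c2, c, c1, c3⟩⟩
        · exact ⟨1, fun k => absurd k h⟩
      choose f hf using this
      refine (card_le_card_of_injOn f (fun y hy => ?_) fun y hy y' hy' e => ?_).trans (z1.trans hΔ)
      · simp only [coe_filter, mem_filter, mem_univ, true_and, Set.mem_ofPred_eq] at hy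
        exact (hf y hy.2).1
      · simp only [coe_filter, mem_filter, mem_univ, true_and, Set.mem_ofPred_eq] at hy hy'
        obtain ⟨-, c, c1, c2⟩ := hf y hy.2
        obtain ⟨-, c', c1', c2'⟩ := hf y' hy'.2
        refine hY2 y' hy'.1 y hy.1 (c * c'⁻¹) (C.mul_mem c1 (C.inv_mem c1')) ?_
        rw [mul_assoc, c2, e]
        congr 1
        exact (inv_mul_eq_of_eq_mul c2').symm)
    (fun z M => by
      split_ifs with h
      · refine card_image_le.trans ?_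
        simp only [card_product, card_range]
        calc _ ≤ (2 ^ k0) ^ M * (2 ^ M * (2 ^ (6 * (M + n ^ 3)) * 2 ^ n ^ 3)) :=
              Nat.mul_le_mul ((hP1 M).trans (Nat.pow_le_pow_left hS M))
                (Nat.mul_le_mul Nat.lt_two_pow_self (Nat.mul_le_mul (hT1 M h) (Loc.num n16)))
          _ ≤ _ := by
              rw [← pow_mul, ← pow_add, ← pow_add, ← pow_add]
              exact Nat.pow_le_pow_right two_pos (by nlinarith [Nat.zero_le (k0 * n ^ 3)])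
      · simp)
  refine ⟨fun q => if h : q ∈ Y.biUnion cl then δ ⟨q, h⟩ else 0, fun q => ?_,
    fun γ ℓ hγ ⟨l1, l2, l3⟩ t0 a A ha hA => ?_⟩
  · simp only
    split_ifs
    · exact hδ _
    · exact ⟨le_rfl, by positivity⟩
  rcases A.eq_empty_or_nonempty with rfl | ⟨κ0, hκ0⟩
  · rw [card_empty, Nat.cast_zero]
    positivity
  obtain ⟨c, hcC, z, hz, hcz⟩ := hY1 (γ t0) (by
    have k := len_path l2 (t := t0) (t' := t0 + (L * n0 : ℕ)) (by omega)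
    rw [hγ, ← mul_assoc] at k
    rw [← mem_coe, coe_pow]
    exact Set.pow_subset_pow_right (mem_coe.2 h1) ((sum_window_le _ _ le_rfl ℓ l1 t0).trans l3) k)
  have ML := (sum_window_le (L * n0) (4 * n ^ 3 * n0) (Nat.mul_le_mul_right _ hL) ℓ l1
    (t0 - 2 * (n ^ 3 * n0))).trans l3
  have un := Loc.unroll l2 (t0 - 2 * (n ^ 3 * n0)) (4 * n ^ 3 * n0)
  rw [show t0 - 2 * (n ^ 3 * n0 : ℤ) + (4 * n ^ 3 * n0 : ℕ) = t0 + 2 * (n ^ 3 * n0) by
    push_cast; ring] at ML un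
  generalize ∑ u ∈ Ico (t0 - 2 * (n ^ 3 * n0 : ℤ)) (t0 + 2 * (n ^ 3 * n0)), ℓ u = M at ML un ⊢
  obtain ⟨y, t, u1, u2, u3, -, u5⟩ := un
  obtain ⟨j0, j1, j2, -⟩ := u5 t0 (by omega) (by omega)
  obtain ⟨p, p1, p2⟩ := hP2 M y u1
  have ey : ∀ j ≤ M, z * (p j0)⁻¹ * p j = c⁻¹ * y j := fun j hj => by
    rw [← inv_mul_eq_of_eq_mul hcz, j2, p2 j0 j1, p2 j hj]
    group
  have K1 : ∀ κ, X.phi κ (γ t0) ≠ 0 → X.cls κ ∈ cl z ∧
      ∀ j ≤ M, X.phi (kap z (X.cls κ)) (z * (p j0)⁻¹ * p j) = X.phi κ (y j) := fun κ h => by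
    have k : X.phi (X.act c⁻¹ κ) z ≠ 0 := by
      rwa [← inv_mul_eq_of_eq_mul hcz, X.phi_act _ (C.inv_mem hcC)]
    have k' := X.cls_act _ (C.inv_mem hcC) κ
    have m := (cl2 z _).2 ⟨_, k, k'⟩
    refine ⟨m, fun j hj => ?_⟩
    rw [sep _ _ z ((hkap z _ m).2.trans k'.symm) (hkap z _ m).1 k, ey j hj,
      X.phi_act _ (C.inv_mem hcC)]
  have hF : ∀ κ (σ : ℤ), |σ| < n ^ 3 * n0 → Fw n0 (n ^ 3) (fun t => X.phi κ (γ t)) (t0 + σ) =
      Loc.Ft n0 (n ^ 3) M (fun j => X.phi κ (y j)) (fun j => t j - t0) σ := fun κ σ hσ => by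
    rw [Loc.Fw_steps n0 (n ^ 3) M p0 _ (X.phi κ (y 0))
      (fun j => X.phi κ (y (j + 1)) - X.phi κ (y j)) t _ fun u hu => ?_, Loc.Ft]
    · simp only [show ∀ j, t0 + σ - t j = σ - (t j - t0) from fun j => by ring]
    · rw [abs_lt] at hu hσ
      push_cast at hu
      obtain ⟨m, m1, m2, m3⟩ := u5 u (by omega) (by omega)
      rw [m2]
      exact Loc.tele (fun j => X.phi κ (y j)) m1 _ m3
  have hD : ∀ κ j, |if j < M then X.phi κ (y (j + 1)) - X.phi κ (y j) else 0| ≤ 1 := fun κ j => by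
    split_ifs with h
    · simpa using X.phi_lip κ (y j) _ (u1 j h)
    · simp
  obtain ⟨t', t1, t2, A', a1, a2, a3⟩ := hT2 M ML (fun j => t j - t0)
    (fun i j a b => sub_le_sub_right (u2 i j a b) _)
    (fun j hj => by have := u3 j hj; constructor <;> omega) X.K A _ hD
  have hV : ∀ q ∈ cl z, q ∈ Y.biUnion cl := fun q h => mem_biUnion.2 ⟨z, hz, h⟩
  have a0 : 0 ≤ a ∧ a ≤ (8 * n ^ 4 : ℕ) * (n : ℝ) ^ 2 := by
    obtain ⟨k1, σ, -, k2⟩ := hA κ0 hκ0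
    have k3 := ha κ0 σ
    simp only [dif_pos (hV _ (K1 _ k1).1)] at k2 k3
    have k4 := hδ ⟨_, hV _ (K1 _ k1).1⟩
    have k5 := Fw_mono n0 (n ^ 3) (σ := σ) fun t _ => X.phi_nonneg κ0 (γ t)
    have k6 := Fw_mono n0 (n ^ 3) (σ := σ) fun t _ => X.phi_le κ0 (γ t)
    rw [Fw_const _ _ p0] at k5 k6
    push_cast at k5 k6 ⊢
    have k7 : (n : ℝ) ^ 2 ≤ n ^ 6 := pow_le_pow_right₀ (by linarith) (by norm_num)
    have k8 : (0 : ℝ) ≤ n ^ 2 := by positivity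
    constructor <;> nlinarith
  have n2 : (0 : ℝ) < n ^ 2 := by positivity
  have i1 : a ≤ ⌈a / (n : ℝ) ^ 2⌉₊ * (n : ℝ) ^ 2 := (div_le_iff₀ n2).1 (Nat.le_ceil _)
  have i2 : ⌈a / (n : ℝ) ^ 2⌉₊ * (n : ℝ) ^ 2 ≤ a + n ^ 2 := by
    have := mul_le_mul_of_nonneg_right (Nat.ceil_lt_add_one (div_nonneg a0.1 n2.le)).le n2.le
    rwa [add_mul, div_mul_cancel₀ _ n2.ne', one_mul] at this
  have i3 : ⌈a / (n : ℝ) ^ 2⌉₊ ≤ 8 * n ^ 4 := Nat.ceil_le.2 ((div_le_iff₀ n2).2 a0.2)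
  have up : ∀ κ (h : X.phi κ (γ t0) ≠ 0) (σ : ℤ), |σ| < n ^ 3 * n0 →
      Loc.Ft n0 (n ^ 3) M (fun j => X.phi κ (y j)) (fun j => t j - t0) σ +
        δ ⟨_, hV _ (K1 κ h).1⟩ ≤ a := fun κ h σ hσ => by
    have := ha κ (t0 + σ)
    simp only [dif_pos (hV _ (K1 κ h).1)] at this
    rwa [hF κ σ hσ] at this
  have key := H z hz M ML _ (by
    rw [if_pos ML]
    exact mem_image.2 ⟨(p, j0, t', ⌈a / (n : ℝ) ^ 2⌉₊), by
      simp only [mem_product, mem_range]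
      exact ⟨p1, by omega, t1, by omega⟩, rfl⟩) fun v hv => by
    obtain ⟨q, hq⟩ := v
    have m : q ∈ cl z := (mem_filter.1 hv).2
    have k : X.phi (X.act c (kap z q)) (γ t0) ≠ 0 := by
      rw [hcz, X.phi_act _ hcC]
      exact (hkap z q m).1
    have k' : X.cls (X.act c (kap z q)) = q := (X.cls_act _ hcC _).trans (hkap z q m).2
    generalize X.act c (kap z q) = κ at k k'
    subst k'
    simp only
    rw [Loc.Ft_congr _ _ _ (K1 κ k).2]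
    obtain ⟨σ, s1, s2⟩ := (hmx (Loc.Ft n0 (n ^ 3) M (fun j => X.phi κ (y j)) t')).2
    have b := Loc.Ft_sub n0 (n ^ 3) M (fun j => X.phi κ (y j)) (fun j => t j - t0) t' σ
    have b' := (le_abs_self _).trans ((abs_sum_le_sum_abs _ _).trans ((sum_le_sum fun j _ =>
      (abs_mul _ _).trans_le (mul_le_of_le_one_left (abs_nonneg _) (hD κ j))).trans (t2 σ)))
    linarith [up κ k σ s1]
  have fin := (Nat.cast_le (α := ℝ)).2 (card_le_card_of_injOn (s := A'.attach)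
    (fun κ => (⟨X.cls κ.1, hV _ (K1 _ (hA _ (a1 κ.2)).1).1⟩ : ↥(Y.biUnion cl)))
    (fun κ _ => ?_) fun κ _ κ' _ e => Subtype.ext (sep _ _ _ (congrArg Subtype.val e)
      (hA _ (a1 κ.2)).1 (hA _ (a1 κ'.2)).1)) |>.trans key
  · have : (A.card : ℝ) ≤ 2 * A'.card := by exact_mod_cast a2
    rw [card_attach] at fin
    linarith
  · obtain ⟨κ, hκ⟩ := κ
    obtain ⟨k, σ, s1, s2⟩ := hA κ (a1 hκ)
    refine mem_coe.2 (mem_filter.2 ⟨mem_filter.2 ⟨mem_univ _, (K1 κ k).1⟩, ?_⟩)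
    simp only
    rw [Loc.Ft_congr _ _ _ (K1 κ k).2]
    obtain ⟨m1, σ', m2, m3⟩ := hmx (Loc.Ft n0 (n ^ 3) M (fun j => X.phi κ (y j)) t')
    have b := a3 κ hκ _ s1
    have b' := a3 κ hκ _ m2
    rw [← Loc.Ft_sub n0 (n ^ 3) M (fun j => X.phi κ (y j)), abs_le] at b b'
    have f := hF κ _ s1
    rw [add_sub_cancel] at f
    simp only [dif_pos (hV _ (K1 κ k).1), f] at s2
    rw [abs_le]
    constructor <;> linarith [m1 _ s1, up κ k σ' m2]

end Pool.Agent.Lib.MP_7903c7_al.RF
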