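import Pool.Agent.Lib.MP_7903c7_al.RF.Win
import Pool.Agent.Lib.MP_7903c7_al.RF.Once

set_option autoImplicit false

namespace Pool.Agent.Lib.MP_7903c7_al.RF

open Finset
open scoped Classical Pointwise

namespace Grp

theorem mn_succ (F : ℤ → ℝ) (σ : ℤ) (i : ℕ) :
    mn F (σ + 1) (i + 1) = min (F (σ + 1)) (mn F σ i) := by
  induction i with
  | zero => simp [mn]
  | succ i ih =>
    rw [mn, ih, mn, min_assoc]
    congr 3
    push_cast; ring

theorem mn_le (F : ℤ → ℝ) (σ : ℤ) (i j : ℕ) (h : j ≤ i) : mn F σ i ≤ F (σ - j) := by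
  induction i with
  | zero =>
    obtain rfl : j = 0 := by omega
    simp [mn]
  | succ i ih =>
    rw [mn]
    rcases Nat.lt_or_ge j (i + 1) with h1 | h1
    · exact (min_le_left _ _).trans (ih (by omega))
    · obtain rfl : j = i + 1 := by omega
      exact min_le_right _ _

theorem mn_shift (F : ℤ → ℝ) (c : ℤ) (hp : ∀ t, F (t + c) = F t) (σ : ℤ) (i : ℕ) :
    mn F (σ + c) i = mn F σ i := by
  induction i with
  | zero => exact hp σ
  | succ i ih => rw [mn, mn, ih, ← hp (σ - _)]; congr 2; ring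

theorem per_mul {α : Type} (F : ℤ → α) (c : ℤ) (hp : ∀ t, F (t + c) = F t) (k t : ℤ) :
    F (t + k * c) = F t := Function.Periodic.int_mul (f := F) hp k t

theorem clip_min {a x y : ℝ} (ha : 0 < a) (hx : 2 * a ≤ x) :
    clip ((min x y - a) / a) = clip ((y - a) / a) := by
  have h1 : 1 ≤ (x - a) / a := by rw [le_div_iff₀ ha]; linarith
  rcases le_total x y with h | h
  · have h2 : 1 ≤ (y - a) / a := by rw [le_div_iff₀ ha]; linarith
    rw [min_eq_left h, clip, clip, min_eq_left h1, min_eq_left h2]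
  · rw [min_eq_right h]

theorem tau_succ (N : ℕ) (hN : 0 < N) {a : ℝ} (ha : 0 < a) (F : ℤ → ℝ)
    (hp : ∀ t, F (t + N) = F t) (hl : ∃ σ, F σ ≤ a) (σ : ℤ) (h1 : 2 * a ≤ F σ)
    (h2 : 2 * a ≤ F (σ + 1)) : tauf N a F (σ + 1) = tauf N a F σ := by
  obtain ⟨σ0, h0⟩ := hl
  have hN' : (0 : ℤ) < N := by exact_mod_cast hN
  have e0 : clip ((mn F σ N - a) / a) = 0 := by
    have h3 := mn_le F σ N ((σ - σ0) % N).toNat (by
      have := Int.emod_lt_of_pos (σ - σ0) hN'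
      omega)
    rw [Int.toNat_of_nonneg (Int.emod_nonneg _ hN'.ne')] at h3
    have h4 : σ - (σ - σ0) % N = σ0 + (σ - σ0) / N * N := by
      have := Int.emod_add_ediv_mul (σ - σ0) N
      linarith
    rw [h4, per_mul F N hp] at h3
    have : (mn F σ N - a) / a ≤ 0 := div_nonpos_of_nonpos_of_nonneg (by linarith) ha.le
    exact max_eq_left ((min_le_right _ _).trans this)
  have e1 : clip ((mn F σ 0 - a) / a) = 1 := by
    have : 1 ≤ (mn F σ 0 - a) / a := by rw [le_div_iff₀ ha, mn]; linarith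
    rw [clip, min_eq_left this]; simp
  have e2 := sum_range_succ' (fun i => clip ((mn F σ i - a) / a)) N
  rw [sum_range_succ, e0, e1] at e2
  unfold tauf
  simp only [mn_succ, clip_min ha h2]
  push_cast
  linarith

theorem lip_iter (F : ℤ → ℝ) {lam : ℝ} (hl : ∀ σ, |F (σ + 1) - F σ| ≤ lam) (σ : ℤ) (k : ℕ) :
    |F (σ + k) - F σ| ≤ k * lam := by
  induction k with
  | zero => simp
  | succ k ih =>
    have h := hl (σ + k)
    have := abs_sub_le (F (σ + k + 1)) (F (σ + k)) (F σ)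
    push_cast
    rw [← add_assoc]
    linarith

theorem tau_block (N : ℕ) (hN : 0 < N) {a lam : ℝ} (ha : 0 < a) (hlam : 0 ≤ lam) (F : ℤ → ℝ)
    (hp : ∀ t, F (t + N) = F t) (hl : ∃ σ, F σ ≤ a) (hlip : ∀ σ, |F (σ + 1) - F σ| ≤ lam)
    (σ : ℤ) (k : ℕ) (h : 2 * a + k * lam ≤ F (σ + k)) : tauf N a F (σ + k) = tauf N a F σ := by
  induction k with
  | zero => simp
  | succ k ih =>
    push_cast at h ⊢
    rw [← add_assoc] at h ⊢
    have h1 := (abs_le.1 (hlip (σ + k))).2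
    have h2 : 0 ≤ (k : ℝ) * lam := by positivity
    rw [tau_succ N hN ha F hp hl _ (by linarith) (by linarith), ih (by linarith)]

theorem ee_per (N : ℕ) (hN : 0 < N) (a : ℝ) (F : ℤ → ℝ) (hp : ∀ t, F (t + N) = F t) (σ : ℤ) :
    ee (tauf N a F (σ + N) / N) = ee (tauf N a F σ / N) := by
  have hN' : (N : ℝ) ≠ 0 := by positivity
  have : tauf N a F (σ + N) / N = tauf N a F σ / N + 1 := by
    unfold tauf
    simp only [mn_shift F N hp]
    push_cast
    field_simp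
    ring
  rw [this]
  unfold ee
  push_cast
  rw [mul_add, add_mul, mul_one, Complex.exp_add, Complex.exp_two_pi_mul_I, mul_one]

theorem Fw_le_card (n0 T : ℕ) (hn0 : 0 < n0) (hT : 0 < T) {f : ℤ → ℝ} {R : ℝ} (hR0 : 0 ≤ R)
    (hR : ∀ t, f t ≤ R) (σ : ℤ) :
    Fw n0 T f σ ≤
      ((Ioo (-(T * n0 : ℤ)) (T * n0)).filter fun u => f (σ + u) ≠ 0).card * (R / n0) := by
  unfold Fw
  rw [← sum_filter_of_ne (p := fun u => f (σ + u) ≠ 0) fun u _ h => right_ne_zero_of_mul h]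
  refine (sum_le_card_nsmul _ _ (R / n0) fun u hu => ?_).trans (nsmul_eq_mul _ _).le
  have hu' := mem_Ioo.1 (mem_filter.1 hu).1
  have h1 : |(u : ℝ)| ≤ T * n0 := by
    rw [abs_le]
    constructor
    · exact_mod_cast hu'.1.le
    · exact_mod_cast hu'.2.le
  have hn : (0 : ℝ) < n0 := by exact_mod_cast hn0
  have hT' : (0 : ℝ) < T := by exact_mod_cast hT
  calc _ ≤ ((T * n0 : ℝ) - |(u : ℝ)|) / (n0 * (T * n0)) * R :=
        mul_le_mul_of_nonneg_left (hR _) (div_nonneg (by linarith) (by positivity))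
    _ ≤ (T * n0 : ℝ) / (n0 * (T * n0)) * R := by
        gcongr
        linarith [abs_nonneg (u : ℝ)]
    _ = R / n0 := by field_simp

theorem count {K : Type} (N b : ℕ) (hb : 0 < b) (hN : 2 * (16 * b) ≤ N) (Q : K → ℤ → Prop)
    (W : K → ℤ → Prop) (B : ℤ → ℝ)
    (h1 : ∀ κ σ, W κ σ →
      4 * b ≤ ((Ioo (-(16 * b : ℤ)) (16 * b)).filter fun u => Q κ (σ + u)).card)
    (h2 : ∀ (t0 : ℤ) (A : Finset K),
      (∀ κ ∈ A, Q κ t0 ∧ ∃ σ : ℤ, |σ - t0| < 16 * b ∧ W κ σ) → (A.card : ℝ) ≤ B t0)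
    (P : Finset (K × ℤ)) (hP : ∀ p ∈ P, ∃ σ : ℤ, 0 ≤ σ ∧ σ < N ∧ σ / b = p.2 ∧ W p.1 σ) :
    (P.card : ℝ) * (4 * b) ≤ 33 * ∑ t ∈ range (2 * N), B ((t : ℤ) - 16 * b) := by
  choose! w hw using hP
  let r : K × ℤ → ℕ → Prop := fun p t =>
    Q p.1 ((t : ℤ) - 16 * b) ∧ |w p - ((t : ℤ) - 16 * b)| < 16 * b
  have e1 := sum_card_bipartiteAbove_eq_sum_card_bipartiteBelow (s := P) (t := range (2 * N)) r
  have e2 : P.card * (4 * b) ≤ ∑ p ∈ P, ((range (2 * N)).bipartiteAbove r p).card := by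
    rw [← smul_eq_mul]
    refine card_nsmul_le_sum _ _ _ fun p hp => (h1 _ _ (hw p hp).2.2.2).trans ?_
    refine card_le_card_of_injOn (fun u => (w p + u + 16 * b).toNat) (fun u hu => ?_) ?_
    · obtain ⟨hu1, hu2⟩ := mem_filter.1 (mem_coe.1 hu)
      have hu3 := mem_Ioo.1 hu1
      have h3 := (hw p hp).1
      have h4 := (hw p hp).2.1
      have h5 : ((w p + u + 16 * b).toNat : ℤ) - 16 * b = w p + u := by omega
      have h6 : (w p + u + 16 * b).toNat < 2 * N := by omega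
      refine mem_coe.2 ((mem_bipartiteAbove r).2 ⟨mem_range.2 h6, ?_, ?_⟩)
      · rw [h5]; exact hu2
      · rw [h5, abs_lt]; omega
    · intro u hu u' hu' h
      have hu3 := mem_Ioo.1 (mem_filter.1 (mem_coe.1 hu)).1
      have hu3' := mem_Ioo.1 (mem_filter.1 (mem_coe.1 hu')).1
      have h3 := (hw p hp).1
      simp only at h
      omega
  have e3 : ∀ t ∈ range (2 * N), ((P.bipartiteBelow r t).card : ℝ) ≤ 33 * B ((t : ℤ) - 16 * b) := by
    intro t _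
    have h3 : (P.bipartiteBelow r t).card ≤ 33 * ((P.bipartiteBelow r t).image Prod.fst).card := by
      refine card_le_mul_card_image _ 33 fun κ _ => ?_
      have hc : (Icc (((t : ℤ) - 32 * b) / b) (((t : ℤ) - 32 * b) / b + 32)).card = 33 := by
        rw [Int.card_Icc]; omega
      rw [← hc]
      refine card_le_card_of_injOn Prod.snd (fun p hp => ?_) ?_
      · obtain ⟨hp1, -⟩ := mem_filter.1 (mem_coe.1 hp)
        obtain ⟨hp2, -, hp3⟩ := (mem_bipartiteBelow r).1 hp1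
        rw [abs_lt] at hp3
        have hb' : (0 : ℤ) < b := by exact_mod_cast hb
        refine mem_coe.2 (mem_Icc.2 ⟨?_, ?_⟩)
        · rw [← (hw p hp2).2.2.1]
          exact Int.ediv_le_ediv hb' (by omega)
        · rw [← (hw p hp2).2.2.1, ← Int.add_mul_ediv_right _ _ hb'.ne']
          exact Int.ediv_le_ediv hb' (by omega)
      · intro p hp p' hp' h
        exact Prod.ext (((mem_filter.1 (mem_coe.1 hp)).2).trans
          ((mem_filter.1 (mem_coe.1 hp')).2).symm) h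
    have h4 := h2 ((t : ℤ) - 16 * b) ((P.bipartiteBelow r t).image Prod.fst) fun κ hκ => by
      obtain ⟨p, hp, rfl⟩ := mem_image.1 hκ
      obtain ⟨hp2, hp3, hp4⟩ := (mem_bipartiteBelow r).1 hp
      exact ⟨hp3, w p, hp4, (hw p hp2).2.2.2⟩
    have h5 : ((P.bipartiteBelow r t).card : ℝ) ≤
        33 * (((P.bipartiteBelow r t).image Prod.fst).card : ℝ) := by exact_mod_cast h3
    linarith
  rw [e1] at e2
  rw [mul_sum]
  refine le_trans ?_ (sum_le_sum e3)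
  exact_mod_cast e2

end Grp

theorem groups {K : Type} [Nonempty K] (n0 T L : ℕ) (hn0 : 0 < n0) (hT : 0 < T) (h16 : 16 ∣ T)
    (hL : 2 * T ≤ L) {R ρ θ : ℝ} (hR0 : 0 < R) (hθ : 0 ≤ θ) (hρ : ρ ≤ R * T / 8)
    (f : K → ℤ → ℝ) (δ : K → ℝ) (ℓ : ℤ → ℕ)
    (h0 : ∀ κ t, 0 ≤ f κ t) (hR : ∀ κ t, f κ t ≤ R)
    (hp : ∀ κ t, f κ (t + (L * n0 : ℕ)) = f κ t) (hδ : ∀ κ, δ κ ≤ R * T / 8)
    (hℓ : ∀ t, ℓ (t + (L * n0 : ℕ)) = ℓ t) (hℓL : ∑ t ∈ range (L * n0), ℓ t ≤ L)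
    (htop : R * T / 2 ≤ top (fun κ => Fw n0 T (f κ)) δ)
    (hpers : ∀ κ, ∃ σ, Fw n0 T (f κ) σ ≤ R * T / 16)
    (hloc : ∀ (t0 : ℤ) (A : Finset K),
      (∀ κ ∈ A, f κ t0 ≠ 0 ∧ ∃ σ : ℤ, |σ - t0| < T * n0 ∧
        wt ρ (fun κ => Fw n0 T (f κ)) δ κ σ ≠ 0) →
      (A.card : ℝ) ≤ θ * ((∑ u ∈ Ico (t0 - 2 * (T * n0)) (t0 + 2 * (T * n0)), ℓ u : ℕ) + T)) :
    ∃ Z : Finset ℂ, (Z.card : ℝ) ≤ 2000 * θ * L ∧ ∀ κ σ,
      wt ρ (fun κ => Fw n0 T (f κ)) δ κ σ ≠ 0 →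
        ee (tauf (L * n0) (R * T / 16) (Fw n0 T (f κ)) σ / (L * n0 : ℕ)) ∈ Z := by
  obtain ⟨T1, hT1⟩ := h16
  have hT10 : 0 < T1 := by omega
  obtain ⟨b, hb⟩ : ∃ b, b = T1 * n0 := ⟨_, rfl⟩
  obtain ⟨N, hN⟩ : ∃ N, N = L * n0 := ⟨_, rfl⟩
  rw [← hN] at hp hℓ hℓL ⊢
  have hb0 : 0 < b := hb ▸ Nat.mul_pos hT10 hn0
  have hTb : T * n0 = 16 * b := by rw [hT1, hb]; ring
  have hTb' : (T : ℤ) * n0 = 16 * b := by exact_mod_cast hTb
  have hTb'' : (T : ℝ) * n0 = 16 * b := by exact_mod_cast hTb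
  have hNb : 2 * (16 * b) ≤ N := by
    rw [← hTb, hN, ← mul_assoc]; exact Nat.mul_le_mul_right _ hL
  have hN0 : 0 < N := by omega
  have hn : (0 : ℝ) < n0 := by exact_mod_cast hn0
  have hT' : (0 : ℝ) < T := by exact_mod_cast hT
  have hb' : (0 : ℝ) < b := by exact_mod_cast hb0
  have hFp : ∀ κ σ, Fw n0 T (f κ) (σ + N) = Fw n0 T (f κ) σ := fun κ σ => by
    rw [← Fw_shift]; simp only [hp]
  have hW : ∀ κ σ, wt ρ (fun κ => Fw n0 T (f κ)) δ κ σ ≠ 0 → R * T / 4 < Fw n0 T (f κ) σ := by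
    intro κ σ h
    by_contra hc
    apply h
    have := hδ κ
    exact max_eq_left (by linarith)
  have key : ∀ P : Finset (K × ℤ), (∀ p ∈ P, ∃ σ : ℤ, 0 ≤ σ ∧ σ < N ∧ σ / b = p.2 ∧
      wt ρ (fun κ => Fw n0 T (f κ)) δ p.1 σ ≠ 0) → (P.card : ℝ) ≤ 2000 * θ * L := by
    intro P hP
    have h1 := Grp.count N b hb0 hNb (fun κ t => f κ t ≠ 0)
      (fun κ σ => wt ρ (fun κ => Fw n0 T (f κ)) δ κ σ ≠ 0)
      (fun t0 => θ * ((∑ u ∈ Ico (t0 - 2 * (T * n0)) (t0 + 2 * (T * n0)), ℓ u : ℕ) + T))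
      (fun κ σ h => by
        have h2 := (hW κ σ h).trans_le (Grp.Fw_le_card n0 T hn0 hT hR0.le (hR κ) σ)
        rw [hTb'] at h2
        have h3 : (4 * b : ℝ) <
            ((Ioo (-(16 * b : ℤ)) (16 * b)).filter fun u => f κ (σ + u) ≠ 0).card := by
          rw [← mul_div_assoc, lt_div_iff₀ hn] at h2
          refine lt_of_mul_lt_mul_right (a := R) ?_ hR0.le
          calc 4 * (b : ℝ) * R = R * (T * n0) / 4 := by rw [hTb'']; ring
            _ < _ := by linarith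
        exact_mod_cast h3.le)
      (fun t0 A hA => hloc t0 A (by rw [hTb']; exact hA)) P hP
    have h2 := sum_window (2 * N) (64 * b) ℓ (fun t => by
      have := Grp.per_mul ℓ N hℓ 2 t
      push_cast
      exact this) (-(48 * b))
    have h3 : ∑ t ∈ range (2 * N), ℓ t ≤ 2 * L := by
      rw [two_mul N, sum_range_add]
      have : ∀ x : ℕ, ℓ ((N + x : ℕ) : ℤ) = ℓ x := fun x => by
        rw [← hℓ x]; congr 1; push_cast; ring
      simp only [this]
      omega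
    have h4 : ∑ t ∈ range (2 * N), ∑ u ∈ Ico (((t : ℤ) - 16 * b) - 2 * (T * n0))
        (((t : ℤ) - 16 * b) + 2 * (T * n0)), ℓ u ≤ 64 * b * (2 * L) := by
      refine le_trans (le_of_eq ?_) (h2.le.trans (Nat.mul_le_mul_left _ h3))
      refine sum_congr rfl fun t _ => ?_
      rw [hTb']
      congr 2
      · ring
      · push_cast; ring
    have h5 : (N : ℝ) * T = L * (16 * b) := by rw [← hTb'', hN]; push_cast; ring
    have h6 : ((∑ t ∈ range (2 * N), ∑ u ∈ Ico (((t : ℤ) - 16 * b) - 2 * (T * n0))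
        (((t : ℤ) - 16 * b) + 2 * (T * n0)), ℓ u : ℕ) : ℝ) ≤ 64 * b * (2 * L) := by
      exact_mod_cast h4
    rw [← mul_sum, sum_add_distrib, ← Nat.cast_sum, sum_const, card_range, nsmul_eq_mul] at h1
    refine le_of_mul_le_mul_right (h1.trans ?_) (by positivity : (0 : ℝ) < 4 * b)
    calc _ ≤ 33 * (θ * (64 * b * (2 * L) + 2 * (L * (16 * b)))) := by
          have h7 : ((2 * N : ℕ) : ℝ) * T = 2 * (L * (16 * b)) := by
            rw [← h5]; push_cast; ring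
          rw [h7]
          gcongr
      _ = 1320 * (θ * L * (4 * b)) := by ring
      _ ≤ 2000 * (θ * L * (4 * b)) := by gcongr; norm_num
      _ = _ := by ring
  let S : Set (K × ℤ) := {p | ∃ σ : ℤ, 0 ≤ σ ∧ σ < N ∧ σ / b = p.2 ∧
    wt ρ (fun κ => Fw n0 T (f κ)) δ p.1 σ ≠ 0}
  have hS : S.Finite := by
    by_contra hinf
    obtain ⟨n, hn⟩ := exists_nat_gt (2000 * θ * L)
    obtain ⟨P, hP, hc⟩ := Set.Infinite.exists_subset_card_eq hinf n
    have := key P fun p hp => hP hp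
    rw [hc] at this
    linarith
  refine ⟨hS.toFinset.image fun p => ee (tauf N (R * T / 16) (Fw n0 T (f p.1)) (p.2 * b) / N),
    le_trans (by exact_mod_cast card_image_le) (key _ fun p hp => hS.mem_toFinset.1 hp),
    fun κ σ h => ?_⟩
  have hN' : (0 : ℤ) < N := by exact_mod_cast hN0
  have hbz : (0 : ℤ) < b := by exact_mod_cast hb0
  have hσ : σ = σ % N + σ / N * N := (Int.emod_add_ediv_mul σ N).symm
  have h1 : wt ρ (fun κ => Fw n0 T (f κ)) δ κ (σ % N) ≠ 0 := by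
    rw [hσ] at h
    simp only [wt] at h ⊢
    rwa [Grp.per_mul _ N (hFp κ)] at h
  refine mem_image.2 ⟨(κ, σ % N / b), hS.mem_toFinset.2 ⟨σ % N, Int.emod_nonneg _ hN'.ne',
    Int.emod_lt_of_pos _ hN', rfl, h1⟩, ?_⟩
  have h2 := Grp.per_mul (fun σ => ee (tauf N (R * T / 16) (Fw n0 T (f κ)) σ / N)) N
    (Grp.ee_per N hN0 _ _ (hFp κ)) (σ / N) (σ % N)
  rw [← hσ] at h2
  rw [h2]
  generalize σ % N = s at h1
  have h3 : s / b * b + ((s % b).toNat : ℤ) = s := by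
    rw [Int.toNat_of_nonneg (Int.emod_nonneg _ hbz.ne'), add_comm]
    exact Int.emod_add_ediv_mul s b
  have h4 : ((s % b).toNat : ℝ) ≤ b := by
    have := Int.emod_lt_of_pos s hbz
    exact_mod_cast (by omega : (s % b).toNat ≤ b)
  have h5 := Grp.tau_block N hN0 (a := R * T / 16) (lam := 2 * R / n0) (by positivity)
    (by positivity) _ (hFp κ) (hpers κ) (Fw_lip n0 T (h0 κ) (hR κ)) (s / b * b) (s % b).toNat (by
      rw [h3]
      have h6 : ((s % b).toNat : ℝ) * (2 * R / n0) ≤ R * T / 8 := by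
        calc _ ≤ b * (2 * R / n0) := by gcongr
          _ = R * (T * n0) / 8 / n0 := by rw [hTb'']; ring
          _ = _ := by field_simp
      linarith [hW κ s h1])
  rw [h3] at h5
  simp only [h5]

end Pool.Agent.Lib.MP_7903c7_al.RF
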