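import Pool.Agent.Lib.MP_7903c7_al.RF.Defs

set_option autoImplicit false

/-!
Quadratic means of exponential sums.
-/

namespace Pool.Agent.Lib.MP_7903c7_al.RF

open Finset
open scoped Classical Pointwise

namespace Quad

theorem ee_add (x y : ℝ) : ee (x + y) = ee x * ee y := by
  rw [ee, ee, ee, ← Complex.exp_add]
  congr 1
  push_cast
  ring

theorem ee_int (k : ℤ) : ee k = 1 := by
  rw [ee, ← Complex.exp_int_mul_two_pi_mul_I k]
  congr 1
  push_cast
  ring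

theorem ee_eq (x : ℝ) : ee x = Complex.exp ((2 * Real.pi * x : ℝ) * Complex.I) := by
  rw [ee]
  push_cast
  rfl

theorem norm_ee (x : ℝ) : ‖ee x‖ = 1 := by rw [ee_eq, Complex.norm_exp_ofReal_mul_I]

theorem re_ee (x : ℝ) : (ee x).re = Real.cos (2 * Real.pi * x) := by
  rw [ee_eq, Complex.exp_ofReal_mul_I_re]

theorem conj_ee (x : ℝ) : (starRingEnd ℂ) (ee x) = ee (-x) := by
  rw [ee_eq, ee_eq, ← Complex.exp_conj, map_mul, Complex.conj_ofReal, Complex.conj_I]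
  congr 1
  push_cast
  ring

theorem ee_zpow (x : ℝ) (m : ℤ) : ee x ^ m = ee (m * x) := by
  rw [ee, ee, ← Complex.exp_int_mul]
  congr 1
  push_cast
  ring

theorem sq_eq (a : ℂ) : ((‖a‖ ^ 2 : ℝ) : ℂ) = a * (starRingEnd ℂ) a := by
  rw [Complex.mul_conj, Complex.normSq_eq_norm_sq]

end Quad

open Quad

theorem quad {ι : Type} (s : Finset ι) (u z : ι → ℂ) (hz : ∀ i ∈ s, ‖z i‖ = 1) (M : ℕ) :
    ((∑ j ∈ range (M + 1), ∑ j' ∈ range (M + 1),
        ‖∑ i ∈ s, u i * z i ^ ((j : ℤ) - j')‖ ^ 2 : ℝ) : ℂ) =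
      ∑ i ∈ s, ∑ i' ∈ s, u i * (starRingEnd ℂ) (u i') *
        ((‖∑ j ∈ range (M + 1), (z i * (starRingEnd ℂ) (z i')) ^ j‖ ^ 2 : ℝ) : ℂ) := by
  simp only [Complex.ofReal_sum, sq_eq, map_sum, sum_mul_sum]
  simp only [mul_sum]
  refine (sum_congr rfl fun j _ => sum_comm).trans (sum_comm.trans (sum_congr rfl fun i hi => ?_))
  refine (sum_congr rfl fun j _ => sum_comm).trans (sum_comm.trans (sum_congr rfl fun i' hi' => ?_))
  refine sum_congr rfl fun j _ => sum_congr rfl fun j' _ => ?_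
  have n : z i ≠ 0 := fun h => by simpa [h] using hz i hi
  have n' : z i' ≠ 0 := fun h => by simpa [h] using hz i' hi'
  simp only [map_mul, map_zpow₀, map_pow, ← Complex.inv_eq_conj (hz i hi),
    ← Complex.inv_eq_conj (hz i' hi'), zpow_sub₀ n, zpow_sub₀ (inv_ne_zero n'), zpow_natCast,
    mul_pow, inv_pow, map_inv₀, inv_inv]
  field_simp

namespace Quad

theorem quad_re {ι : Type} (s : Finset ι) (u z : ι → ℂ) (hz : ∀ i ∈ s, ‖z i‖ = 1) (M : ℕ) :
    ∑ j ∈ range (M + 1), ∑ j' ∈ range (M + 1), ‖∑ i ∈ s, u i * z i ^ ((j : ℤ) - j')‖ ^ 2 =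
      ∑ i ∈ s, ∑ i' ∈ s, (u i * (starRingEnd ℂ) (u i')).re *
        ‖∑ j ∈ range (M + 1), (z i * (starRingEnd ℂ) (z i')) ^ j‖ ^ 2 := by
  have := congrArg Complex.re (quad s u z hz M)
  simpa only [Complex.ofReal_re, Complex.re_sum, Complex.re_mul_ofReal] using this

/-- The Fejer type kernel. -/
noncomputable def dk (M : ℕ) (x : ℝ) : ℝ := ‖∑ j ∈ range (M + 1), ee x ^ j‖ ^ 2

theorem dk_nonneg (M : ℕ) (x : ℝ) : 0 ≤ dk M x := sq_nonneg _

theorem dk_le (M : ℕ) (x : ℝ) : dk M x ≤ ((M : ℝ) + 1) ^ 2 := by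
  refine pow_le_pow_left₀ (norm_nonneg _) ((norm_sum_le _ _).trans (le_of_eq ?_)) 2
  simp [norm_ee]

theorem sin_lo {x : ℝ} (h0 : 0 ≤ x) (h1 : x ≤ 1 / 2) : 2 * x ≤ Real.sin (Real.pi * x) := by
  have := Real.le_sin_mul (x := 2 * x) (by linarith) (by linarith)
  rwa [show Real.pi / 2 * (2 * x) = Real.pi * x by ring] at this

theorem dk_far (M : ℕ) {x : ℝ} (h0 : 0 < x) (h1 : x < 1) :
    dk M x ≤ 1 / 4 * ((x ^ 2)⁻¹ + ((1 - x) ^ 2)⁻¹) := by
  have e : ‖ee x - 1‖ = 2 * |Real.sin (Real.pi * x)| := by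
    rw [ee_eq, mul_comm _ Complex.I, Complex.norm_exp_I_mul_ofReal_sub_one, norm_mul,
      Real.norm_eq_abs, Real.norm_eq_abs, abs_two, show 2 * Real.pi * x / 2 = Real.pi * x by ring]
  have k : ‖∑ j ∈ range (M + 1), ee x ^ j‖ * ‖ee x - 1‖ ≤ 2 := by
    rw [← norm_mul, geom_sum_mul]
    refine (norm_sub_le _ _).trans (le_of_eq ?_)
    rw [norm_pow, norm_ee, one_pow, norm_one]
    norm_num
  have g : ∀ y : ℝ, 0 < y → 2 * y ≤ Real.sin (Real.pi * x) → dk M x ≤ 1 / 4 * (y ^ 2)⁻¹ :=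
    fun y y0 hy => by
      have n0 := norm_nonneg (∑ j ∈ range (M + 1), ee x ^ j)
      have k1 : ‖∑ j ∈ range (M + 1), ee x ^ j‖ * y ≤ 1 / 2 := by
        rw [e] at k
        nlinarith [mul_le_mul_of_nonneg_left (hy.trans (le_abs_self _)) n0]
      rw [dk, ← div_eq_mul_inv, le_div_iff₀ (by positivity), ← mul_pow]
      nlinarith [mul_nonneg n0 y0.le]
  have p1 : 0 ≤ (x ^ 2)⁻¹ := by positivity
  have p2 : 0 ≤ ((1 - x) ^ 2)⁻¹ := by positivity
  rcases le_total x (1 / 2) with h | h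
  · linarith [g x h0 (sin_lo h0.le h)]
  · have := sin_lo (x := 1 - x) (by linarith) (by linarith)
    rw [mul_sub Real.pi, mul_one, Real.sin_pi_sub] at this
    linarith [g (1 - x) (by linarith) this]

theorem sum_per {N : ℕ} (g : ℤ → ℝ) (hg : ∀ t, g (t + N) = g t) (a : ℤ) :
    ∑ t ∈ range N, g (a + t) = ∑ t ∈ range N, g t := by
  have st : ∀ a : ℤ, ∑ t ∈ range N, g (a + 1 + t) = ∑ t ∈ range N, g (a + t) := fun a => by
    have k1 := sum_range_succ (fun t : ℕ => g (a + t)) N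
    have k2 := sum_range_succ' (fun t : ℕ => g (a + t)) N
    simp only [Nat.cast_add, Nat.cast_one, Nat.cast_zero, add_zero, hg] at k1 k2
    simp only [add_assoc, add_comm (1 : ℤ)]
    linarith
  induction a using Int.induction_on with
  | zero => simp
  | succ n ih => rw [st, ih]
  | pred n ih => rw [← st, sub_add_cancel, ih]

theorem quad_per {N : ℕ} (hN : 0 < N) (M : ℕ) (u : ℤ → ℂ) (hu : ∀ t, u (t + N) = u t) :
    ∑ j ∈ range (M + 1), ∑ j' ∈ range (M + 1),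
        ‖∑ t ∈ range N, u t * ee (-(t / N)) ^ ((j : ℤ) - j')‖ ^ 2 =
      ∑ t ∈ range N, ∑ i ∈ range N, (u t * (starRingEnd ℂ) (u (t + i))).re * dk M (i / N) := by
  have n0 : (N : ℝ) ≠ 0 := Nat.cast_ne_zero.2 hN.ne'
  rw [quad_re (range N) (fun t => u t) (fun t => ee (-(t / N))) (fun _ _ => norm_ee _) M]
  refine sum_congr rfl fun t _ => ?_
  have k := sum_per (N := N)
    (fun t' => (u t * (starRingEnd ℂ) (u t')).re * dk M (((t' : ℝ) - t) / N)) (fun t' => by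
      have e : (((t' + N : ℤ) : ℝ) - t) / N = ((t' : ℝ) - t) / N + (1 : ℤ) := by
        push_cast
        field_simp
        ring
      simp only [hu, dk, e, ee_add, ee_int, mul_one]) t
  simp only [Int.cast_add, Int.cast_natCast, add_sub_cancel_left] at k
  rw [k]
  refine sum_congr rfl fun t' _ => ?_
  rw [conj_ee, ← ee_add, dk, neg_neg, sub_div, neg_add_eq_sub]

/-- The tail weights. -/
noncomputable def ps (U k : ℕ) : ℝ := if U < k then ((k : ℝ) ^ 2)⁻¹ else 0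

theorem ps_nonneg (U k : ℕ) : 0 ≤ ps U k := by
  unfold ps
  split_ifs
  · positivity
  · exact le_rfl

theorem sum_ps {U : ℕ} (hU : 0 < U) (K : ℕ) : ∑ k ∈ range K, ps U k ≤ (U : ℝ)⁻¹ := by
  have k := sum_Ioc_inv_sq_le_sub (α := ℝ) hU.ne' (Nat.le_add_right U K)
  have p : (0 : ℝ) ≤ ((U + K : ℕ) : ℝ)⁻¹ := by positivity
  simp only [ps]
  rw [← sum_filter]
  refine (sum_le_sum_of_subset_of_nonneg (fun i hi => ?_) fun _ _ _ => by positivity).trans
    (k.trans (by linarith))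
  rw [mem_filter, mem_range] at hi
  exact mem_Ioc.2 ⟨hi.2, by omega⟩

theorem sum_ps' {U : ℕ} (hU : 0 < U) (N : ℕ) : ∑ k ∈ range N, ps U (N - k) ≤ (U : ℝ)⁻¹ := by
  refine le_trans ?_ (sum_ps hU (N + 1))
  rw [← sum_range_reflect (ps U) (N + 1), sum_range_succ]
  simpa using ps_nonneg U 0

theorem cos_lo {x : ℝ} {k : ℤ} (h : |x - k| ≤ 1 / 6) : 1 / 2 ≤ (ee x).re := by
  have e : ee x = ee (x - k) := by
    conv_lhs => rw [← sub_add_cancel x k, ee_add, ee_int, mul_one]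
  rw [e, re_ee, ← Real.cos_abs, ← Real.cos_pi_div_three]
  have p := Real.pi_pos
  have a : |2 * Real.pi * (x - k)| ≤ Real.pi / 3 := by
    rw [abs_mul, abs_of_pos (by linarith)]
    nlinarith
  exact Real.cos_le_cos_of_nonneg_of_le_pi (abs_nonneg _) (by linarith) a

end Quad

theorem few_points {ι : Type} (s : Finset ι) (u : ι → ℝ) (hu : ∀ i ∈ s, 0 ≤ u i) (x : ι → ℝ)
    (n1 : ℕ) (hn : 0 < n1) (Z : Finset ℂ) (hZ : Z.card ≤ n1)
    (h : ∀ i ∈ s, u i ≠ 0 → ee (x i) ∈ Z) :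
    ∃ m ∈ Icc (1 : ℤ) (2 * n1 - 1),
      ∑ i ∈ s, u i ≤ 2 * n1 * ‖∑ i ∈ s, (u i : ℂ) * ee (m * x i)‖ := by
  by_contra hc
  push Not at hc
  set A := ∑ i ∈ s, u i with hA
  have n0 : (1 : ℝ) ≤ n1 := Nat.one_le_cast.2 hn
  have A0 : 0 < A := lt_of_le_of_lt (by positivity) (hc 1 (mem_Icc.2 ⟨le_rfl, by omega⟩))
  set s' := s.filter fun i => u i ≠ 0 with hs'
  set Y := s'.image fun i => ee (x i) with hY
  set W : ℂ → ℝ := fun y => ∑ i ∈ s' with ee (x i) = y, u i with hW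
  have mp : ∀ i ∈ s', ee (x i) ∈ Y := fun i hi => mem_image_of_mem _ hi
  have W0 : ∀ y, 0 ≤ W y := fun y => sum_nonneg fun i hi =>
    hu i (mem_filter.1 (mem_filter.1 hi).1).1
  have eA : ∑ y ∈ Y, W y = A := by
    rw [sum_fiberwise_of_maps_to mp, sum_filter_ne_zero]
  have eW : ∀ m : ℤ, ∑ y ∈ Y, (W y : ℂ) * y ^ m = ∑ i ∈ s, (u i : ℂ) * ee (m * x i) := fun m => by
    rw [← sum_filter_of_ne (p := fun i => u i ≠ 0) fun i _ k e => k (by simp [e]),
      ← sum_fiberwise_of_maps_to mp]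
    refine sum_congr rfl fun y _ => ?_
    rw [hW, Complex.ofReal_sum, sum_mul]
    refine sum_congr rfl fun i hi => ?_
    rw [← (mem_filter.1 hi).2, ee_zpow]
  have cY : (Y.card : ℝ) ≤ n1 := Nat.cast_le.2 (le_trans (card_le_card fun y hy => by
    obtain ⟨i, hi, rfl⟩ := mem_image.1 hy
    exact h i (mem_filter.1 hi).1 (mem_filter.1 hi).2) hZ)
  have nY : ∀ y ∈ Y, ‖y‖ = 1 := fun y hy => by
    obtain ⟨i, -, rfl⟩ := mem_image.1 hy
    exact norm_ee _
  obtain ⟨M, hM⟩ : ∃ M, M + 1 = 2 * n1 := ⟨2 * n1 - 1, by omega⟩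
  have hM' : (M : ℝ) + 1 = 2 * n1 := by exact_mod_cast hM
  have q := quad_re Y (fun y => W y) (fun y => y) nY M
  simp only [eW] at q
  have lo : ∑ y ∈ Y, W y ^ 2 * (2 * n1) ^ 2 ≤ _ := le_of_le_of_eq (sum_le_sum fun y hy => by
    refine le_trans (le_of_eq ?_) (single_le_sum (f := fun y' => ((W y : ℂ) *
      (starRingEnd ℂ) (W y' : ℂ)).re * ‖∑ j ∈ range (M + 1), (y * (starRingEnd ℂ) y') ^ j‖ ^ 2)
      (fun y' _ => mul_nonneg (by simpa using mul_nonneg (W0 y) (W0 y')) (sq_nonneg _)) hy)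
    have : ‖((M : ℂ) + 1)‖ = 2 * n1 := by
      rw [← hM', ← Nat.cast_add_one, ← Nat.cast_add_one, Complex.norm_natCast]
    simp [← sq_eq, nY y hy, this]
    exact Or.inl (sq _)) q.symm
  have up : ∀ j ∈ range (M + 1), ∀ j' ∈ range (M + 1),
      ‖∑ i ∈ s, (u i : ℂ) * ee ((((j : ℤ) - j' : ℤ) : ℝ) * x i)‖ ^ 2 ≤
        (if j = j' then A ^ 2 else 0) + (A / (2 * n1)) ^ 2 := fun j hj j' hj' => by
    rw [mem_range] at hj hj'
    have g : ∀ m ∈ Icc (1 : ℤ) (2 * n1 - 1),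
        ‖∑ i ∈ s, (u i : ℂ) * ee (m * x i)‖ ^ 2 ≤ (A / (2 * n1)) ^ 2 := fun m hm =>
      pow_le_pow_left₀ (norm_nonneg _) (by
        rw [le_div_iff₀ (by positivity), mul_comm]
        exact (hc m hm).le) 2
    rcases lt_trichotomy j j' with k | rfl | k
    · have := g ((j' : ℤ) - j) (mem_Icc.2 ⟨by omega, by omega⟩)
      rw [← Complex.norm_conj, map_sum] at this
      simp only [map_mul, Complex.conj_ofReal, conj_ee, ← neg_mul, ← Int.cast_neg, neg_sub] at this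
      rw [if_neg k.ne, zero_add]
      exact this
    · have e : ee 0 = 1 := by simpa using ee_int 0
      simp only [sub_self, Int.cast_zero, zero_mul, e, mul_one, if_true, ← Complex.ofReal_sum,
        Complex.norm_real, Real.norm_eq_abs, sq_abs]
      exact le_add_of_nonneg_right (sq_nonneg _)
    · rw [if_neg k.ne', zero_add]
      exact g _ (mem_Icc.2 ⟨by omega, by omega⟩)
  have k := lo.trans (sum_le_sum fun j hj => sum_le_sum (up j hj))
  simp only [sum_add_distrib, sum_ite_eq, sum_const, card_range, nsmul_eq_mul] at k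
  rw [sum_congr rfl fun j hj => if_pos hj, sum_const, card_range, nsmul_eq_mul, ← sum_mul,
    Nat.cast_add_one, hM'] at k
  have e : 2 * (n1 : ℝ) * (2 * n1 * (A / (2 * n1)) ^ 2) = A ^ 2 := by field_simp
  have cs := sq_sum_le_card_mul_sum_sq (s := Y) (f := W)
  rw [eA] at cs
  have S0 : 0 ≤ ∑ y ∈ Y, W y ^ 2 := sum_nonneg fun _ _ => sq_nonneg _
  have c2 := cs.trans (mul_le_mul_of_nonneg_right cY S0)
  have A2 : 0 < A ^ 2 := by positivity
  rw [e] at k
  nlinarith [mul_le_mul_of_nonneg_left c2 (show (0 : ℝ) ≤ 4 * n1 by positivity)]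

theorem xi_lower (N U M : ℕ) (hN : 0 < N) (hU : 0 < U) (f η : ℤ → ℝ) (w : ℤ) {R c : ℝ}
    (hc : 0 < c) (hR0 : 0 ≤ R) (h0 : ∀ t, 0 ≤ f t) (hR : ∀ t, f t ≤ R)
    (hp : ∀ t, f (t + N) = f t) (hη : ∀ t, f t ≠ 0 → η (t + N) = η t + 1)
    (hs : c * N * R ≤ ∑ t ∈ range N, f t) (B : Finset ℕ)
    (hB : ∀ t ∈ range N, t ∉ B → ∀ s : ℤ, |s| ≤ U → f t ≠ 0 → f (t + s) ≠ 0 →
      ∃ k : ℤ, |w * (η t - η (t + s)) - k| ≤ 1 / 6)
    (h1 : 6 * (N : ℝ) ≤ c ^ 2 * U * (M + 1))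
    (h2 : 12 * (B.card : ℝ) * (2 * U + 1) * (M + 1) ≤ c ^ 2 * (N : ℝ) ^ 2) :
    ∃ m : ℤ, |m| ≤ M ∧ c * N * R ≤ 2 * (M + 1) * ‖xi N f η w m‖ := by
  have n0 : (0 : ℝ) < N := Nat.cast_pos.2 hN
  have u0 : (0 : ℝ) < U := Nat.cast_pos.2 hU
  set av := (∑ t' ∈ range N, f t' * (η t' - t' / N)) / ∑ t' ∈ range N, f t' with hav
  set a : ℤ → ℂ := fun t => f t * ee (w * (η t - av)) with ha
  have pa : ∀ t, a (t + N) = a t := fun t => by
    simp only [ha, hp]
    rcases eq_or_ne (f t) 0 with k | k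
    · simp [k]
    · rw [hη t k, show w * (η t + 1 - av) = w * (η t - av) + w by ring, ee_add, ee_int, mul_one]
  have ex : ∀ m : ℤ, ∑ t ∈ range N, a t * ee (-(t / N)) ^ m = xi N f η w m := fun m => by
    refine sum_congr rfl fun t _ => ?_
    rw [ee_zpow, mul_assoc, ← ee_add]
    congr 2
    ring
  have ra : ∀ t t', (a t * (starRingEnd ℂ) (a t')).re = f t * f t' * (ee (w * (η t - η t'))).re :=
    fun t t' => by
      simp only [ha, map_mul, Complex.conj_ofReal, conj_ee]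
      rw [mul_mul_mul_comm, ← ee_add, ← Complex.ofReal_mul, Complex.re_ofReal_mul]
      congr 3
      ring
  have nr : ∀ t ∈ range N, t ∉ B → ∀ s : ℤ, |s| ≤ U →
      1 / 2 * (f t * f (t + s)) ≤ (a t * (starRingEnd ℂ) (a (t + s))).re := fun t ht k s hs => by
    rw [ra, mul_comm]
    rcases eq_or_ne (f t) 0 with e | e
    · simp [e]
    rcases eq_or_ne (f (t + s)) 0 with e' | e'
    · simp [e']
    obtain ⟨k, hk⟩ := hB t ht k s hs e e'
    exact mul_le_mul_of_nonneg_left (cos_lo hk) (mul_nonneg (h0 _) (h0 _))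
  have pt : ∀ t ∈ range N, ∀ i ∈ range N,
      1 / 2 * (((f t : ℂ) * (starRingEnd ℂ) (f (t + i) : ℂ)).re * dk M (i / N)) -
        3 / 2 * R ^ 2 * ((N : ℝ) ^ 2 / 4 * (ps U i + ps U (N - i)) +
          (if t ∈ B then 1 else 0) * (if i ≤ U ∨ N - i ≤ U then 1 else 0) * ((M : ℝ) + 1) ^ 2) ≤
      (a t * (starRingEnd ℂ) (a (t + i))).re * dk M (i / N) := fun t ht i hi => by
    rw [Complex.conj_ofReal, ← Complex.ofReal_mul, Complex.ofReal_re]
    have d0 := dk_nonneg M (i / N)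
    have iN := mem_range.1 hi
    have p0 : 0 ≤ (N : ℝ) ^ 2 / 4 * (ps U i + ps U (N - i)) :=
      mul_nonneg (by positivity) (add_nonneg (ps_nonneg _ _) (ps_nonneg _ _))
    have bad : ∀ E : ℝ, dk M (i / N) ≤ E →
        1 / 2 * (f t * f (t + i) * dk M (i / N)) - 3 / 2 * R ^ 2 * E ≤
          (a t * (starRingEnd ℂ) (a (t + i))).re * dk M (i / N) := fun E hE => by
      have f0 := mul_nonneg (h0 t) (h0 (t + i))
      have f1 : f t * f (t + i) ≤ R ^ 2 := sq R ▸ mul_le_mul (hR _) (hR _) (h0 _) hR0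
      have c1 : -1 ≤ (ee (w * (η t - η (t + i)))).re := re_ee _ ▸ Real.neg_one_le_cos _
      rw [ra]
      nlinarith [mul_le_mul f1 hE d0 (sq_nonneg R),
        mul_le_mul_of_nonneg_left c1 (mul_nonneg f0 d0)]
    by_cases k : i ≤ U ∨ N - i ≤ U
    · by_cases k' : t ∈ B
      · refine bad _ ?_
        rw [if_pos k, if_pos k']
        linarith [dk_le M (i / N)]
      · have g : 1 / 2 * (f t * f (t + i)) ≤ (a t * (starRingEnd ℂ) (a (t + i))).re := by
          rcases k with k | k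
          · exact nr t ht k' i (by rw [abs_of_nonneg (by omega)]; omega)
          · have := nr t ht k' (i - N) (by rw [abs_of_nonpos (by omega)]; omega)
            rwa [← hp (t + (i - N)), ← pa (t + (i - N)),
              show (t : ℤ) + (i - N) + N = t + i by ring] at this
        rw [if_neg k', zero_mul, zero_mul, add_zero]
        nlinarith [mul_le_mul_of_nonneg_right g d0, mul_nonneg (sq_nonneg R) p0]
    · refine bad _ ?_
      rw [if_neg k, mul_zero, zero_mul, add_zero, ps, ps, if_pos (by omega), if_pos (by omega),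
        Nat.cast_sub iN.le]
      have i0 : (0 : ℝ) < i := Nat.cast_pos.2 (by omega)
      have i1 : (0 : ℝ) < N - i := sub_pos.2 (Nat.cast_lt.2 iN)
      refine (dk_far M (by positivity) ((div_lt_one n0).2 (by linarith))).trans (le_of_eq ?_)
      field_simp
  have k := sum_le_sum fun t ht => sum_le_sum (pt t ht)
  rw [← quad_per hN M a pa] at k
  simp only [ex, sum_sub_distrib, ← mul_sum] at k
  rw [← quad_per hN M (fun t => f t) fun t => by rw [hp]] at k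
  simp only [sum_add_distrib, ← mul_sum, ← sum_mul, sum_const, card_range, nsmul_eq_mul,
    sum_boole] at k
  have b1 : (((range N).filter fun t => t ∈ B).card : ℝ) ≤ B.card :=
    Nat.cast_le.2 (card_le_card fun t ht => (mem_filter.1 ht).2)
  have b2 : (((range N).filter fun i => i ≤ U ∨ N - i ≤ U).card : ℝ) ≤ 2 * U + 1 := by
    have : ((range N).filter fun i => i ≤ U ∨ N - i ≤ U).card ≤ 2 * U + 1 := by
      refine (card_le_card (t := range (U + 1) ∪ Ico (N - U) N) fun i hi => ?_).trans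
        ((card_union_le _ _).trans ?_)
      · simp only [mem_filter, mem_range, mem_union, mem_Ico] at hi ⊢
        omega
      · rw [card_range, Nat.card_Ico]
        omega
    exact_mod_cast this
  have b3 := mul_le_mul b1 b2 (Nat.cast_nonneg _) (Nat.cast_nonneg _)
  have b4 : (N : ℝ) * (U : ℝ)⁻¹ ≤ c ^ 2 * (M + 1) / 6 := by
    rw [← div_eq_mul_inv, div_le_iff₀ u0]
    linarith
  have b5 : (N : ℝ) * (∑ i ∈ range N, ps U i + ∑ i ∈ range N, ps U (N - i)) ≤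
      c ^ 2 * (M + 1) / 3 := by
    nlinarith [mul_le_mul_of_nonneg_left (add_le_add (sum_ps hU N) (sum_ps' hU N)) n0.le]
  have b6 : ((M : ℝ) + 1) * (c * N * R) ^ 2 ≤ ∑ j ∈ range (M + 1), ∑ j' ∈ range (M + 1),
      ‖∑ t ∈ range N, (f t : ℂ) * ee (-(t / N)) ^ ((j : ℤ) - j')‖ ^ 2 := by
    rw [← Nat.cast_add_one, ← nsmul_eq_mul, ← card_range (M + 1), ← sum_const, card_range]
    refine sum_le_sum fun j hj => le_trans ?_ (single_le_sum (f := fun j' : ℕ =>
      ‖∑ t ∈ range N, (f t : ℂ) * ee (-(t / N)) ^ ((j : ℤ) - j')‖ ^ 2)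
      (fun _ _ => sq_nonneg _) hj)
    simp only [sub_self, zpow_zero, mul_one, ← Complex.ofReal_sum, Complex.norm_real,
      Real.norm_eq_abs, sq_abs]
    exact pow_le_pow_left₀ (by positivity) hs 2
  have M0 : (1 : ℝ) ≤ M + 1 := by linarith [Nat.cast_nonneg (α := ℝ) M]
  have tot : (c * N * R) ^ 2 / 4 ≤ ∑ j ∈ range (M + 1), ∑ j' ∈ range (M + 1),
      ‖xi N f η w ((j : ℤ) - j')‖ ^ 2 := by
    have e1 := mul_le_mul_of_nonneg_left b5 (show (0 : ℝ) ≤ R ^ 2 * N ^ 2 by positivity)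
    have e2 := mul_le_mul_of_nonneg_left b3 (show (0 : ℝ) ≤ R ^ 2 * (M + 1) ^ 2 by positivity)
    have e3 := mul_le_mul_of_nonneg_left h2 (show (0 : ℝ) ≤ R ^ 2 * (M + 1) by positivity)
    have e4 := mul_le_mul_of_nonneg_left M0 (sq_nonneg (c * N * R))
    nlinarith
  rw [← sum_product'] at tot
  obtain ⟨q, hq, k2⟩ := exists_le_of_sum_le (s := range (M + 1) ×ˢ range (M + 1))
    (f := fun _ => (c * N * R) ^ 2 / 4 / ((M : ℝ) + 1) ^ 2) ⟨(0, 0), by simp⟩
    (le_trans (le_of_eq (by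
      rw [sum_const, card_product, card_range, nsmul_eq_mul]
      push_cast
      field_simp)) tot)
  simp only [mem_product, mem_range] at hq
  refine ⟨(q.1 : ℤ) - q.2, abs_le.2 ⟨by omega, by omega⟩, ?_⟩
  rw [div_le_iff₀ (by positivity)] at k2
  exact (abs_le_of_sq_le_sq' (by nlinarith) (by positivity)).2

end Pool.Agent.Lib.MP_7903c7_al.RF
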