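import Pool.Agent.Lib.MP_7903c7_al.RF.Nu0
import Pool.Agent.Lib.MP_7903c7_al.RF.Quad

set_option autoImplicit false

/-!
The Fourier coefficients of the first system: the lower bound.
-/

namespace Pool.Agent.Lib.MP_7903c7_al.RF

open Finset
open scoped Classical Pointwise

theorem nu1_lower {K : Type} [Nonempty K] (N n1 : ℕ) (hN : 0 < N) (hn : 0 < n1)
    {a0 ρ lam B : ℝ} (hρ : 0 < ρ) (hl : 0 < lam) (hρN : ρ / (4 * lam) < N)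
    (F : K → ℤ → ℝ) (δ : K → ℝ) (hB : ∀ κ σ, F κ σ + δ κ ≤ B)
    (hp : ∀ κ σ, F κ (σ + N) = F κ σ) (hlip : ∀ κ σ, |F κ (σ + 1) - F κ σ| ≤ lam)
    (hfin : ∀ σ, ∃ A : Finset K, ∀ κ, κ ∉ A → wt ρ F δ κ σ = 0)
    (Z : Finset ℂ) (hZ : Z.card ≤ n1)
    (h : ∀ κ σ, wt ρ F δ κ σ ≠ 0 → ee (tauf N a0 (F κ) σ / N) ∈ Z) :
    ∃ m ∈ Icc (1 : ℤ) (2 * n1 - 1), ρ ^ 2 / (8 * lam) ≤ 2 * n1 * ‖nu1 N a0 ρ F δ m‖ :=
  Nu.lower_of N n1 hρ hl hρN F δ hp hlip hfin fun s =>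
    few_points s (fun i => wt ρ F δ i.1 i.2) (fun _ _ => Nu.wt_nonneg _ _ _ _ _)
      (fun i => tauf N a0 (F i.1) i.2 / N) n1 hn Z hZ fun i _ hi => h i.1 i.2 hi

end Pool.Agent.Lib.MP_7903c7_al.RF
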