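import Pool.Agent.Lib.MP_7903c7_al.RF.Loc
import Pool.Agent.Lib.MP_7903c7_al.RF.Win
import Pool.Agent.Lib.MP_7903c7_al.RF.Nu
import Pool.Agent.Lib.MP_7903c7_al.RF.Grp

set_option autoImplicit false

/-!
The first system of circle valued functions: loops without a persistent component.
-/

namespace Pool.Agent.Lib.MP_7903c7_al.RF

open Finset
open scoped Classical Pointwise

namespace Sys1

variable {G : Type} [Group G] {g : G} {C : Subgroup G} {S : Finset G} {T r0 Δ I0 : ℕ}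
  (X : Geo g C S (4 * T) r0 Δ I0)

/-- The averaged cut-off functions along a loop. -/
noncomputable abbrev ph (n0 : ℕ) (γ : ℤ → G) : X.K → ℤ → ℝ :=
  fun κ => Fw n0 T fun t => X.phi κ (γ t)

theorem phi_le' (κ : X.K) (y : G) : X.phi κ y ≤ 4 * (T : ℝ) := by
  have := X.phi_le κ y
  push_cast at this
  exact this

theorem phi_pow (κ : X.K) (k : ℕ) : ∀ (y : G), ∀ u ∈ (S : Set G) ^ k,
    |X.phi κ (y * u) - X.phi κ y| ≤ k := by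
  induction k with
  | zero =>
    intro y u hu
    rw [pow_zero, Set.mem_one] at hu
    simp [hu]
  | succ k ih =>
    intro y u hu
    rw [pow_succ] at hu
    obtain ⟨v, hv, s, hs, rfl⟩ := hu
    have h1 := ih y v hv
    have h2 := X.phi_lip κ (y * v) s hs
    have h3 := abs_sub_le (X.phi κ (y * v * s)) (X.phi κ (y * v)) (X.phi κ y)
    show |X.phi κ (y * (v * s)) - X.phi κ y| ≤ _
    rw [← mul_assoc]
    push_cast
    linarith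

theorem phi_per {N : ℕ} {γ : ℤ → G} (h : IsLoop g N γ) (κ : X.K) (t : ℤ) :
    X.phi κ (γ (t + N)) = X.phi κ (γ t) := by rw [h, X.phi_g]

theorem ph_per {n0 N : ℕ} {γ : ℤ → G} (h : IsLoop g N γ) (κ : X.K) (σ : ℤ) :
    ph X n0 γ κ (σ + N) = ph X n0 γ κ σ := by
  rw [ph, ← Fw_shift]
  simp only [phi_per X h]

theorem ph_le {n0 : ℕ} (hn0 : 0 < n0) (γ : ℤ → G) (κ : X.K) (σ : ℤ) :
    ph X n0 γ κ σ ≤ 4 * (T : ℝ) * T := by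
  rw [← Fw_const n0 T hn0 (4 * (T : ℝ)) σ]
  exact Fw_mono n0 T fun t _ => phi_le' X κ _

theorem le_top {n0 : ℕ} (hn0 : 0 < n0) (γ : ℤ → G) {δ : X.K → ℝ} {D : ℝ} (hδ : ∀ κ, δ κ ≤ D)
    (κ : X.K) (σ : ℤ) : ph X n0 γ κ σ + δ κ ≤ top (ph X n0 γ) δ := by
  refine le_ciSup (f := fun q : X.K × ℤ => ph X n0 γ q.1 q.2 + δ q.1) ⟨4 * (T : ℝ) * T + D, ?_⟩
    (κ, σ)
  rintro _ ⟨q, rfl⟩
  exact add_le_add (ph_le X hn0 γ _ _) (hδ _)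

theorem exists_big {n0 L : ℕ} (hn0 : 0 < n0) (hL : 0 < L) {γ : ℤ → G}
    (h : Good g S (L * n0) L γ) : ∃ κ σ, 2 * (T : ℝ) * T ≤ ph X n0 γ κ σ := by
  obtain ⟨-, ℓ, hp, hs, hl⟩ := h
  have hw := sum_window (L * n0) (2 * (T * n0)) ℓ hp (-(T * n0 : ℤ))
  obtain ⟨t, -, ht⟩ : ∃ t ∈ range (L * n0),
      ∑ u ∈ Ico ((t : ℤ) + -(T * n0 : ℤ)) (t + -(T * n0 : ℤ) + (2 * (T * n0) : ℕ)), ℓ u ≤ 2 * T := by
    refine exists_le_of_sum_le (nonempty_range_iff.2 (Nat.mul_pos hL hn0).ne') ?_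
    rw [hw, sum_const, card_range, smul_eq_mul]
    calc 2 * (T * n0) * ∑ t ∈ range (L * n0), ℓ t ≤ 2 * (T * n0) * L := Nat.mul_le_mul_left _ hl
      _ = L * n0 * (2 * T) := by ring
  obtain ⟨κ, hκ⟩ := X.phi_top (γ t)
  push_cast at hκ ht
  refine ⟨κ, t, ?_⟩
  rw [← Fw_const n0 T hn0 (2 * (T : ℝ)) t]
  refine Fw_mono n0 T fun u hu => ?_
  rw [abs_lt] at hu
  have key : ∀ a b : ℤ, a ≤ b → (t : ℤ) + -(T * n0 : ℤ) ≤ a → b ≤ t + (T * n0 : ℤ) →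
      |X.phi κ (γ b) - X.phi κ (γ a)| ≤ 2 * (T : ℝ) := fun a b hab ha hb => by
    have h1 := phi_pow X κ _ (γ a) _ (len_path hs hab)
    rw [mul_inv_cancel_left] at h1
    have h2 : ∑ u ∈ Ico a b, ℓ u ≤ 2 * T :=
      (sum_le_sum_of_subset (Ico_subset_Ico ha (by linarith))).trans ht
    exact h1.trans (by exact_mod_cast h2)
  rcases le_total u t with h1 | h1
  · have := abs_le.1 (key u t h1 (by linarith) (by linarith))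
    linarith
  · have := abs_le.1 (key t u h1 (by linarith) (by linarith))
    linarith

theorem top_ge {n0 L : ℕ} (hn0 : 0 < n0) (hL : 0 < L) {γ : ℤ → G} (h : Good g S (L * n0) L γ)
    {δ : X.K → ℝ} {D : ℝ} (h0 : ∀ κ, 0 ≤ δ κ) (hδ : ∀ κ, δ κ ≤ D) :
    2 * (T : ℝ) * T ≤ top (ph X n0 γ) δ := by
  obtain ⟨κ, σ, h1⟩ := exists_big X hn0 hL h
  have := le_top X hn0 γ hδ κ σ
  have := h0 κ
  linarith

theorem wt_lt {K : Type} {ρ : ℝ} {F : K → ℤ → ℝ} {δ : K → ℝ} {κ : K} {σ : ℤ}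
    (h : wt ρ F δ κ σ ≠ 0) : top F δ - ρ < F κ σ + δ κ := by
  by_contra hc
  exact h (max_eq_left (by linarith [not_lt.1 hc]))

theorem few {n0 L : ℕ} (hn0 : 0 < n0) (hL : 0 < L) (hT : 0 < T) {γ : ℤ → G}
    (h : Good g S (L * n0) L γ) {δ : X.K → ℝ} {ρ : ℝ} (h0 : ∀ κ, 0 ≤ δ κ)
    (hδ : ∀ κ, δ κ ≤ (T : ℝ) * T / 2) (hρ : ρ ≤ (T : ℝ) * T / 2) (σ : ℤ) :
    ∃ A : Finset X.K, A.card ≤ 4 * Δ ∧ ∀ κ, κ ∉ A → wt ρ (ph X n0 γ) δ κ σ = 0 := by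
  have hT' : (0 : ℝ) < T := by exact_mod_cast hT
  obtain ⟨A, h1, h2⟩ := Fw_count n0 T Δ hn0 (fun κ t => X.phi κ (γ t)) (R := 4 * (T : ℝ))
    (c := (T : ℝ) * T) (by positivity) (by positivity) (fun κ t => X.phi_nonneg κ _)
    (fun κ t => phi_le' X κ _) (fun t => X.phi_fin (γ t)) σ
  refine ⟨A, ?_, fun κ hκ => ?_⟩
  · have h3 : (T : ℝ) * T * A.card ≤ T * T * (4 * Δ : ℕ) := by push_cast; linarith
    exact_mod_cast le_of_mul_le_mul_left h3 (by positivity)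
  · by_contra hc
    have h3 := wt_lt hc
    have h4 := top_ge X hn0 hL h h0 hδ
    have h5 := hδ κ
    exact hκ (h2 κ (by linarith))

theorem equi {n0 N : ℕ} (hN : 0 < N) (a0 ρ : ℝ) (δ : X.Q → ℝ) (j : ℤ) :
    Equi g C N (fun _ => j) fun γ => nu1 N a0 ρ (ph X n0 γ) (fun κ => δ (X.cls κ)) j := by
  intro γ hγ
  refine ⟨fun c hc => ⟨rfl, ?_⟩, rfl, ?_⟩
  · show nu1 N a0 ρ (ph X n0 fun t => c * γ t) (fun κ => δ (X.cls κ)) j = _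
    rw [← nu1_perm N a0 ρ _ _ j (X.act c)]
    simp only [ph, X.phi_act c hc, X.cls_act c hc]
  · rw [← nu1_shift N hN a0 ρ _ _ j (ph_per X hγ)]
    show nu1 N a0 ρ (ph X n0 fun t => γ (t - 1)) (fun κ => δ (X.cls κ)) j = _
    congr 1
    funext κ σ
    exact Fw_shift n0 T (fun t => X.phi κ (γ t)) σ (-1)

theorem cont {n0 L m : ℕ} (hn0 : 0 < n0) (hT : 0 < T) (hL : 2 * T ≤ L) {γ γ' : ℤ → G}
    (h : Good g S (L * n0) L γ) (h' : Good g S (L * n0) L γ') (hn : Near (L * n0) m γ γ')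
    {δ : X.K → ℝ} {a0 ρ : ℝ} (ha : 0 < a0) (hρ0 : 0 ≤ ρ) (h0 : ∀ κ, 0 ≤ δ κ)
    (hδ : ∀ κ, δ κ ≤ (T : ℝ) * T / 2) (hρ : ρ ≤ (T : ℝ) * T / 2) {j : ℤ} {b : ℝ}
    (hj : |(j : ℝ)| ≤ b) :
    ‖nu1 (L * n0) a0 ρ (ph X n0 γ) δ j - nu1 (L * n0) a0 ρ (ph X n0 γ') δ j‖ ≤
      L * (8 * Δ) * (m * (4 * T)) * (2 + ρ * (2 * Real.pi * b / a0)) := by
  have hL0 : 0 < L := by omega
  have hn' : (0 : ℝ) < n0 := by exact_mod_cast hn0
  have : Nonempty X.K := ⟨(X.phi_top 1).choose⟩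
  have h1 := nu1_cont (L * n0) (8 * Δ) (Nat.mul_pos hL0 hn0) (ζ := m * (4 * (T : ℝ)) / n0) ha hρ0
    (ph X n0 γ) (ph X n0 γ') δ j (le_top X hn0 γ hδ)
    (fun κ σ => Fw_near n0 T (L * n0) m (by nlinarith) (fun t => X.phi_nonneg κ _)
      (fun t => phi_le' X κ _) (fun t => X.phi_nonneg κ _) (fun t => phi_le' X κ _)
      (phi_per X h.1 κ) (phi_per X h'.1 κ)
      ((card_le_card (monotone_filter_right _ fun t _ ht e => ht (congrArg (X.phi κ) e))).trans hn) σ)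
    (fun σ => by
      obtain ⟨A, a1, a2⟩ := few X hn0 hL0 hT h h0 hδ hρ σ
      obtain ⟨B, b1, b2⟩ := few X hn0 hL0 hT h' h0 hδ hρ σ
      refine ⟨A ∪ B, (card_union_le A B).trans (by omega), fun κ hκ => ?_⟩
      rw [mem_union, not_or] at hκ
      exact ⟨a2 κ hκ.1, b2 κ hκ.2⟩)
  refine h1.trans ?_
  have h2 : ((L * n0 : ℕ) : ℝ) * (8 * Δ : ℕ) * (2 * (m * (4 * (T : ℝ)) / n0) +
      ρ * (2 * Real.pi * |(j : ℝ)| * (m * (4 * (T : ℝ)) / n0 / a0))) =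
      L * (8 * Δ) * (m * (4 * T)) * (2 + ρ * (2 * Real.pi * |(j : ℝ)| / a0)) := by
    push_cast
    field_simp
  rw [h2]
  have := Real.pi_pos
  gcongr

theorem re_pos' {z z' z'' : ℂ} {e : ℝ} (h : 3 * e < ‖z‖) (h' : ‖z - z'‖ ≤ e)
    (h'' : ‖z - z''‖ ≤ e) : 0 < (z' * (starRingEnd ℂ) z'').re := by
  have he : 0 ≤ e := (norm_nonneg _).trans h'
  have h1 : z' * (starRingEnd ℂ) z'' = z * (starRingEnd ℂ) z - (z * (starRingEnd ℂ) (z - z'') +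
      (z - z') * (starRingEnd ℂ) z - (z - z') * (starRingEnd ℂ) (z - z'')) := by
    rw [map_sub]; ring
  have h2 : ‖z * (starRingEnd ℂ) (z - z'') + (z - z') * (starRingEnd ℂ) z -
      (z - z') * (starRingEnd ℂ) (z - z'')‖ ≤ ‖z‖ * e + e * ‖z‖ + e * e := by
    refine (norm_sub_le _ _).trans (add_le_add ((norm_add_le _ _).trans (add_le_add ?_ ?_)) ?_) <;>
      rw [norm_mul, Complex.norm_conj] <;> gcongr
  have h3 := (Complex.re_le_norm _).trans h2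
  rw [h1, Complex.sub_re, Complex.mul_conj, Complex.ofReal_re, Complex.normSq_eq_norm_sq]
  nlinarith

end Sys1

open Sys1 in
theorem sys1 (k0 : ℕ) (hk : 0 < k0) (θ : ℝ) (hθ : 0 < θ) :
    ∃ n : ℕ, 0 < n ∧ 16 ∣ n ∧ ∀ (G : Type) [Group G] (g : G) (C : Subgroup G) (S : Finset G)
      (r0 Δ I0 : ℕ) (X : Geo g C S (4 * n ^ 3) r0 Δ I0), (1 : G) ∈ S → (∀ s ∈ S, s⁻¹ ∈ S) →
      S.card ≤ 2 ^ k0 → Δ ≤ 2 ^ (k0 * (4 * n ^ 3)) → (∀ c ∈ C, c * g = g * c) →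
      C.relIndex (Subgroup.centralizer {g}) ≠ 0 → ∀ L n1 m : ℕ, 4 * n ^ 3 ≤ L →
      2000 * θ * L ≤ n1 → ∃ n00 : ℕ, ∀ n0 ≥ n00, ∃ F : ℤ → (ℤ → G) → ℂ,
        (∀ j, Equi g C (L * n0) (fun _ => j) (F j)) ∧ ∀ γ, Good g S (L * n0) L γ →
          (∀ κ, pers (Fw n0 (n ^ 3) fun t => X.phi κ (γ t)) ≤ (n : ℝ) ^ 6 / 8) →
          ∃ j ∈ Icc (1 : ℤ) (2 * n1 - 1), Fine g S (L * n0) L m (fun _ => j) (F j) γ := by
  obtain ⟨n, hn, h16, H⟩ := local_count k0 hk θ hθ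
  refine ⟨n, hn, h16, fun G _ g C S r0 Δ I0 X h1 _ hcard hΔ hc hi L n1 m hL hn1 => ?_⟩
  have hT : 0 < n ^ 3 := by positivity
  have hL0 : 0 < L := by omega
  have hL2 : 2 * n ^ 3 ≤ L := by omega
  have hnR : (16 : ℝ) ≤ n := by exact_mod_cast Nat.le_of_dvd hn h16
  have hLR : (1 : ℝ) ≤ L := by exact_mod_cast hL0
  have hn1R : (0 : ℝ) < n1 := lt_of_lt_of_le (by positivity) hn1
  have hn10 : 0 < n1 := by exact_mod_cast hn1R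
  obtain ⟨e, he⟩ : ∃ e : ℝ, e = L * (8 * Δ) * (m * (4 * (n ^ 3 : ℕ))) *
    (2 + (n : ℝ) ^ 2 * (2 * Real.pi * (2 * n1) / ((n : ℝ) ^ 6 / 4))) := ⟨_, rfl⟩
  obtain ⟨n00, hn00⟩ := exists_nat_gt (3 * e * (128 * n1))
  refine ⟨n00 + (L + 1), fun n0 hn0 => ?_⟩
  have hn00' : 0 < n0 := by omega
  have hn0R : (0 : ℝ) < n0 := by exact_mod_cast hn00'
  have hN : 0 < L * n0 := Nat.mul_pos hL0 hn00'
  obtain ⟨δ, hδ, hloc⟩ := H G g C S r0 Δ I0 X h1 hcard hΔ hc hi L n0 hL (by omega)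
  have hTT : ((n ^ 3 : ℕ) : ℝ) * (n ^ 3 : ℕ) = (n : ℝ) ^ 6 := by push_cast; ring
  have h0 : ∀ κ, 0 ≤ δ (X.cls κ) := fun κ => (hδ _).1
  have hδ' : ∀ κ, δ (X.cls κ) ≤ ((n ^ 3 : ℕ) : ℝ) * (n ^ 3 : ℕ) / 2 := fun κ => hTT ▸ (hδ _).2
  have hρ : (n : ℝ) ^ 2 ≤ ((n ^ 3 : ℕ) : ℝ) * (n ^ 3 : ℕ) / 2 := by
    have h4 : (2 : ℝ) ≤ (n : ℝ) ^ 4 := le_trans (by norm_num) (pow_le_pow_left₀ (by norm_num) hnR 4)
    rw [hTT]
    nlinarith [mul_le_mul_of_nonneg_left h4 (sq_nonneg (n : ℝ))]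
  refine ⟨fun j γ => nu1 (L * n0) ((n : ℝ) ^ 6 / 4) ((n : ℝ) ^ 2) (ph X n0 γ)
    (fun κ => δ (X.cls κ)) j, fun j => equi X hN _ _ δ j, fun γ hγ hpers => ?_⟩
  have : Nonempty X.K := ⟨(X.phi_top 1).choose⟩
  have hn6 : (0 : ℝ) < (n : ℝ) ^ 6 := by positivity
  have ha : 4 * ((n ^ 3 : ℕ) : ℝ) * (n ^ 3 : ℕ) / 16 = (n : ℝ) ^ 6 / 4 := by push_cast; ring
  obtain ⟨ℓ, hℓ⟩ := hγ.2
  obtain ⟨Z, hZ, hZ'⟩ := groups n0 (n ^ 3) L hn00' hT (Dvd.dvd.pow h16 (by norm_num)) hL2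
    (R := 4 * ((n ^ 3 : ℕ) : ℝ)) (ρ := (n : ℝ) ^ 2) (θ := θ) (by positivity) hθ.le (by linarith)
    (fun κ t => X.phi κ (γ t)) (fun κ => δ (X.cls κ)) ℓ (fun κ t => X.phi_nonneg κ _)
    (fun κ t => phi_le' X κ _) (phi_per X hγ.1) (fun κ => by linarith [hδ' κ]) hℓ.1 hℓ.2.2
    (by linarith [top_ge X hn00' hL0 hγ h0 hδ'])
    (fun κ => by
      obtain ⟨σ, hσ⟩ := exists_lt_of_ciInf_lt ((hpers κ).trans_lt (by linarith :
        (n : ℝ) ^ 6 / 8 < (n : ℝ) ^ 6 / 4))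
      exact ⟨σ, ha ▸ hσ.le⟩)
    (fun t0 A hA => by
      have := hloc γ ℓ hγ.1 hℓ t0 _ A (le_top X hn00' γ hδ') fun κ hκ => by
        obtain ⟨a1, σ, a2, a3⟩ := hA κ hκ
        exact ⟨a1, σ, by exact_mod_cast a2, wt_lt a3⟩
      exact_mod_cast this)
  rw [ha] at hZ'
  obtain ⟨j, hj, hlow⟩ := nu1_lower (L * n0) n1 hN hn10 (a0 := (n : ℝ) ^ 6 / 4)
    (ρ := (n : ℝ) ^ 2) (lam := 2 * (4 * ((n ^ 3 : ℕ) : ℝ)) / n0) (by positivity) (by positivity)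
    (by
      have h2 : (n : ℝ) ^ 2 / (4 * (2 * (4 * ((n ^ 3 : ℕ) : ℝ)) / n0)) = n0 / (32 * n) := by
        push_cast
        field_simp
        ring
      rw [h2, div_lt_iff₀ (by positivity)]
      push_cast
      nlinarith [mul_le_mul hLR hnR (by norm_num) (by linarith)])
    (ph X n0 γ) (fun κ => δ (X.cls κ)) (le_top X hn00' γ hδ') (ph_per X hγ.1)
    (fun κ σ => Fw_lip n0 (n ^ 3) (fun t => X.phi_nonneg κ _) (fun t => phi_le' X κ _) σ)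
    (fun σ => (few X hn00' hL0 hT hγ h0 hδ' hρ σ).imp fun _ h => h.2) Z
    (by exact_mod_cast hZ.trans hn1) hZ'
  refine ⟨j, hj, fun γ' γ'' h' h'' hn' hn'' => ⟨rfl, ?_⟩⟩
  have hjb : |(j : ℝ)| ≤ 2 * n1 := by
    rw [mem_Icc] at hj
    have h2 : |j| ≤ 2 * n1 := abs_le.2 ⟨by omega, by omega⟩
    exact_mod_cast h2
  have h3 : ((n : ℝ) ^ 2) ^ 2 / (8 * (2 * (4 * ((n ^ 3 : ℕ) : ℝ)) / n0)) = n * n0 / 64 := by
    push_cast
    field_simp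
    ring
  have h4 : (n00 : ℝ) ≤ n0 := by exact_mod_cast (by omega : n00 ≤ n0)
  rw [h3] at hlow
  refine re_pos' (e := e) ?_
    (he ▸ cont X hn00' hT hL2 hγ h' hn' (by positivity) (by positivity) h0 hδ' hρ hjb)
    (he ▸ cont X hn00' hT hL2 hγ h'' hn'' (by positivity) (by positivity) h0 hδ' hρ hjb)
  refine lt_of_mul_lt_mul_right ?_ (by positivity : (0 : ℝ) ≤ 128 * n1)
  nlinarith [mul_le_mul_of_nonneg_right hnR hn0R.le]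

end Pool.Agent.Lib.MP_7903c7_al.RF
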