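import Pool.Agent.Lib.MP_7903c7_al.RF.Defs

set_option autoImplicit false

/-!
The Fourier coefficients of the second system: equivariance, invariance and continuity.
-/

namespace Pool.Agent.Lib.MP_7903c7_al.RF

open Finset
open scoped Classical Pointwise

namespace XiA

theorem ee_add (x y : ℝ) : ee (x + y) = ee x * ee y := by
  unfold ee; rw [← Complex.exp_add]; congr 1; push_cast; ring

theorem ee_int (n : ℤ) : ee n = 1 := by
  unfold ee
  rw [← Complex.exp_int_mul_two_pi_mul_I n]; congr 1; push_cast; ring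

theorem norm_ee (x : ℝ) : ‖ee x‖ = 1 := by
  unfold ee
  rw [show 2 * (Real.pi : ℂ) * x * Complex.I = ((2 * Real.pi * x : ℝ) : ℂ) * Complex.I by
    push_cast; ring, Complex.norm_exp_ofReal_mul_I]

theorem norm_ee_sub (x y : ℝ) : ‖ee x - ee y‖ ≤ 2 * Real.pi * |x - y| := by
  have e : ee x - ee y = ee y * (ee (x - y) - 1) := by
    rw [mul_sub, ← ee_add, mul_one]; congr 2; ring
  rw [e, norm_mul, norm_ee, one_mul]
  unfold ee
  rw [show 2 * (Real.pi : ℂ) * (x - y : ℝ) * Complex.I =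
    Complex.I * ((2 * Real.pi * (x - y) : ℝ) : ℂ) by push_cast; ring]
  refine Real.norm_exp_I_mul_ofReal_sub_one_le.trans (le_of_eq ?_)
  rw [Real.norm_eq_abs, abs_mul, abs_of_pos (by positivity)]

theorem per_sum {A : Type} [AddCommGroup A] (N : ℕ) (h : ℤ → A) (hp : h (-1 + N) = h (-1)) :
    ∑ t ∈ range N, h ((t : ℤ) - 1) = ∑ t ∈ range N, h t := by
  have e1 := sum_range_succ (fun t : ℕ => h ((t : ℤ) - 1)) N
  have e2 := sum_range_succ' (fun t : ℕ => h ((t : ℤ) - 1)) N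
  simp only [Nat.cast_add, Nat.cast_one, add_sub_cancel_right, Nat.cast_zero, zero_sub] at e2
  rw [show (N : ℤ) - 1 = -1 + N by ring, hp, e2] at e1
  exact (add_right_cancel e1).symm

theorem sum_diff {N k : ℕ} {B : Finset ℕ} (hB : B.card ≤ k) {A : Type} [SeminormedAddCommGroup A]
    (u : ℕ → A) (v : ℕ → ℝ) {c : ℝ} (hc : 0 ≤ c) (hv : ∀ t ∈ range N, 0 ≤ v t)
    (h1 : ∀ t ∈ range N, t ∈ B → ‖u t‖ ≤ c) (h2 : ∀ t ∈ range N, t ∉ B → ‖u t‖ ≤ v t) :
    ‖∑ t ∈ range N, u t‖ ≤ k * c + ∑ t ∈ range N, v t := by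
  refine (norm_sum_le _ _).trans ?_
  have : ∀ t ∈ range N, ‖u t‖ ≤ (if t ∈ B then c else 0) + v t := fun t ht => by
    split_ifs with h
    · linarith [h1 t ht h, hv t ht]
    · linarith [h2 t ht h]
  refine (sum_le_sum this).trans ?_
  rw [sum_add_distrib, ← sum_filter, sum_const, nsmul_eq_mul]
  have : (((range N).filter (· ∈ B)).card : ℝ) ≤ k := by
    exact_mod_cast (card_le_card fun t ht => (mem_filter.1 ht).2).trans hB
  nlinarith

end XiA

open XiA

theorem xi_shift (N : ℕ) (hN : 0 < N) (f η : ℤ → ℝ) (w m : ℤ) (h0 : ∀ t, 0 ≤ f t)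
    (hp : ∀ t, f (t + N) = f t) (hη : ∀ t, f t ≠ 0 → η (t + N) = η t + 1) :
    xi N (fun t => f (t - 1)) (fun t => η (t - 1)) w m =
      ee (((w - m : ℤ) : ℝ) / N) * xi N f η w m := by
  have hN' : (N : ℝ) ≠ 0 := by exact_mod_cast hN.ne'
  have e1 : ∑ t ∈ range N, f ((t : ℤ) - 1) = ∑ t ∈ range N, f t := per_sum N f (hp _)
  have e2 : ∑ t ∈ range N, f ((t : ℤ) - 1) * (η ((t : ℤ) - 1) - (((t : ℤ) - 1 : ℤ) : ℝ) / N) =
      ∑ t ∈ range N, f t * (η t - ((t : ℤ) : ℝ) / N) :=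
    per_sum N (fun t => f t * (η t - (t : ℝ) / N)) (by
      by_cases h : f (-1) = 0
      · simp only [hp, h, zero_mul]
      · simp only [hp, hη _ h]; push_cast; field_simp; ring)
  unfold xi
  simp only [e1]
  set S := ∑ t ∈ range N, f t with hS
  set A := ∑ t ∈ range N, f t * (η t - (t : ℝ) / N) with hA
  by_cases hS0 : S = 0
  · have z1 := (sum_eq_zero_iff_of_nonneg fun t _ => h0 _).1 (e1.trans hS0)
    have z2 := (sum_eq_zero_iff_of_nonneg fun t _ => h0 _).1 (hS.symm.trans hS0)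
    rw [sum_eq_zero fun t ht => by rw [z1 t ht]; simp,
      sum_eq_zero fun t ht => by rw [z2 t ht]; simp, mul_zero]
  have e3 : ∑ t ∈ range N, f ((t : ℤ) - 1) * (η ((t : ℤ) - 1) - (t : ℝ) / N) = A - S / N := by
    rw [hA, ← e1, sum_div]
    simp only [Int.cast_natCast] at e2
    rw [← e2, ← sum_sub_distrib]
    exact sum_congr rfl fun t _ => by push_cast; ring
  have e4 := per_sum N (fun t : ℤ => (f t : ℂ) * ee (w * (η t - A / S) - m * (t : ℝ) / N)) (by
    by_cases h : f (-1) = 0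
    · simp only [hp, h, Complex.ofReal_zero, zero_mul]
    · simp only [hp, hη _ h]
      rw [← mul_one (ee (w * (η (-1) - A / S) - m * ((-1 : ℤ) : ℝ) / N)), ← ee_int (w - m),
        ← ee_add]
      congr 2; push_cast; field_simp; ring)
  simp only [Int.cast_natCast] at e4
  rw [e3, ← e4, mul_sum]
  refine sum_congr rfl fun t _ => ?_
  rw [mul_left_comm, ← ee_add]
  congr 2; push_cast; field_simp; ring

theorem xi_congr (N : ℕ) (f η η' : ℤ → ℝ) (w m : ℤ) (h0 : ∀ t, 0 ≤ f t)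
    (h : ∀ t t', f t ≠ 0 → f t' ≠ 0 → η' t - η' t' = η t - η t') :
    xi N f η' w m = xi N f η w m := by
  unfold xi
  refine sum_congr rfl fun t ht => ?_
  by_cases hf : f t = 0
  · simp [hf]
  have hS : ∑ t' ∈ range N, f t' ≠ 0 := fun e =>
    hf ((sum_eq_zero_iff_of_nonneg fun t _ => h0 _).1 e t ht)
  have e : ∑ t' ∈ range N, f t' * (η' t' - (t' : ℝ) / N) =
      ∑ t' ∈ range N, f t' * (η t' - (t' : ℝ) / N) + (η' t - η t) * ∑ t' ∈ range N, f t' := by
    rw [mul_sum, ← sum_add_distrib]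
    refine sum_congr rfl fun s _ => ?_
    by_cases hs : f s = 0
    · simp [hs]
    · linear_combination (- f s) * h t s hf hs
  rw [e]
  congr 2; field_simp; ring

theorem xi_cont (N k : ℕ) (f f' η η' : ℤ → ℝ) (w m : ℤ) {R c Cη : ℝ} (hc : 0 < c) (hR0 : 0 < R)
    (hC : 0 ≤ Cη) (h0 : ∀ t, 0 ≤ f t) (hR : ∀ t, f t ≤ R) (h0' : ∀ t, 0 ≤ f' t)
    (hR' : ∀ t, f' t ≤ R) (hs : c * N * R ≤ ∑ t ∈ range N, f t) (hk : (k : ℝ) < c * N)
    (hn : Near N k (fun t => (f t, η t)) (fun t => (f' t, η' t)))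
    (hη : ∀ t ∈ range N, ∀ t' ∈ range N, f t ≠ 0 → f t' ≠ 0 → |η t - η t'| ≤ Cη)
    (hη' : ∀ t ∈ range N, ∀ t' ∈ range N, f' t ≠ 0 → f' t' ≠ 0 → |η' t - η' t'| ≤ Cη) :
    ‖xi N f η w m - xi N f' η' w m‖ ≤
      k * R * (2 + 6 * Real.pi * |(w : ℝ)| * (Cη + 1) / c) := by
  obtain ⟨B, hn, hb⟩ : ∃ B : Finset ℕ, B.card ≤ k ∧
      ∀ t ∈ range N, t ∉ B → f' t = f t ∧ η' t = η t := by
    refine ⟨_, hn, fun t ht h => ?_⟩
    have : (f t, η t) = (f' t, η' t) := by
      by_contra hc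
      simp only [mem_filter] at h
      exact h ⟨ht, hc⟩
    exact ⟨(congrArg Prod.fst this).symm, (congrArg Prod.snd this).symm⟩
  have hk0 : (0 : ℝ) ≤ k := Nat.cast_nonneg k
  have hN : (0 : ℝ) < N := (pos_iff_pos_of_mul_pos (hk0.trans_lt hk)).1 hc
  unfold xi
  set S := ∑ t ∈ range N, f t with hS
  set S' := ∑ t ∈ range N, f' t with hS'
  set A := ∑ t ∈ range N, f t * (η t - (t : ℝ) / N) with hA
  set A' := ∑ t ∈ range N, f' t * (η' t - (t : ℝ) / N) with hA'
  have hc1 : c ≤ 1 := by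
    have : S ≤ N * R := by
      simpa using sum_le_card_nsmul (range N) (fun t : ℕ => f t) R fun t _ => hR _
    have h2 : 0 < (N : ℝ) * R := by positivity
    nlinarith
  have hS0 : 0 < S := lt_of_lt_of_le (by positivity) hs
  have dS : |S - S'| ≤ k * R := by
    have := sum_diff (N := N) hn (fun t : ℕ => f t - f' t) (fun _ => 0) hR0.le (fun _ _ => le_rfl)
      (fun t _ _ => by
        rw [Real.norm_eq_abs, abs_le]; constructor <;> linarith [h0 t, hR t, h0' t, hR' t])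
      (fun t ht h => by rw [(hb t ht h).1]; simp)
    simpa [sum_sub_distrib] using this
  have hS0' : 0 < S' := by nlinarith [(abs_le.1 dS).2]
  have key : ∀ t0 ∈ range N, t0 ∉ B → f t0 ≠ 0 →
      S * |A / S - A' / S'| ≤ 3 * (k * R) * (Cη + 1) := fun t0 ht0 hB0 hf0 => by
    obtain ⟨q1, q2⟩ := hb t0 ht0 hB0
    have bd : ∀ (u θ : ℤ → ℝ), (∀ t, 0 ≤ u t) →
        (∀ t ∈ range N, u t ≠ 0 → |θ t - η t0| ≤ Cη) →
        ∀ t ∈ range N, |u t * (θ t - (t : ℝ) / N - η t0)| ≤ u t * (Cη + 1) := by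
      intro u θ hu hθ t ht
      by_cases h : u t = 0
      · simp [h]
      rw [abs_mul, abs_of_nonneg (hu t)]
      refine mul_le_mul_of_nonneg_left ?_ (hu t)
      have a1 := abs_le.1 (hθ t ht h)
      have a2 : (0 : ℝ) ≤ (t : ℝ) / N := by positivity
      have a3 : (t : ℝ) / N ≤ 1 := by
        rw [div_le_one hN]; exact_mod_cast (mem_range.1 ht).le
      rw [abs_le]; constructor <;> linarith
    have b1 := bd f η h0 fun t ht h => hη t ht t0 ht0 h hf0
    have b2 := bd f' η' h0' fun t ht h => q2 ▸ hη' t ht t0 ht0 h (q1 ▸ hf0)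
    have eA : A - S * η t0 = ∑ t ∈ range N, f t * (η t - (t : ℝ) / N - η t0) := by
      rw [hA, hS, sum_mul, ← sum_sub_distrib]; exact sum_congr rfl fun t _ => by ring
    have eA' : A' - S' * η t0 = ∑ t ∈ range N, f' t * (η' t - (t : ℝ) / N - η t0) := by
      rw [hA', hS', sum_mul, ← sum_sub_distrib]; exact sum_congr rfl fun t _ => by ring
    have d1 : |A' - S' * η t0| ≤ S' * (Cη + 1) := by
      rw [eA', hS', sum_mul]
      exact (abs_sum_le_sum_abs _ _).trans (sum_le_sum b2)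
    have d2 : |(A - S * η t0) - (A' - S' * η t0)| ≤ k * (2 * R * (Cη + 1)) := by
      have := sum_diff (N := N) hn
        (fun t : ℕ => f t * (η t - (t : ℝ) / N - η t0) - f' t * (η' t - (t : ℝ) / N - η t0))
        (fun _ => 0) (c := 2 * R * (Cη + 1)) (by positivity) (fun _ _ => le_rfl)
        (fun t ht _ => by
          rw [Real.norm_eq_abs]
          refine (abs_sub _ _).trans ?_
          nlinarith [b1 t ht, b2 t ht, hR t, hR' t])
        (fun t ht h => by rw [(hb t ht h).1, (hb t ht h).2]; simp)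
      rw [eA, eA', ← sum_sub_distrib]
      simpa using this
    have e : S * (A / S - A' / S') = ((A - S * η t0) - (A' - S' * η t0)) -
        (A' - S' * η t0) / S' * (S - S') := by field_simp; ring
    have d3 : |(A' - S' * η t0) / S'| ≤ Cη + 1 := by
      rw [abs_div, abs_of_pos hS0', div_le_iff₀ hS0']; linarith
    rw [← abs_of_pos hS0, ← abs_mul, abs_of_pos hS0, e]
    refine (abs_sub _ _).trans ?_
    rw [abs_mul]
    have := mul_le_mul d3 dS (abs_nonneg _) (by positivity)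
    linarith
  set D := 2 * Real.pi * |(w : ℝ)| * (3 * (k * R) * (Cη + 1) / S) with hD
  have hD0 : 0 ≤ D := by positivity
  rw [← sum_sub_distrib]
  refine (sum_diff (N := N) hn _ (fun t : ℕ => f t * D) (c := 2 * R) (by positivity)
    (fun t _ => mul_nonneg (h0 _) hD0) (fun t _ _ => ?_) (fun t ht h => ?_)).trans ?_
  · refine (norm_sub_le _ _).trans ?_
    rw [norm_mul, norm_mul, norm_ee, norm_ee, Complex.norm_real, Complex.norm_real,
      Real.norm_eq_abs, Real.norm_eq_abs, abs_of_nonneg (h0 _), abs_of_nonneg (h0' _)]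
    linarith [hR t, hR' t]
  · by_cases hf : f t = 0
    · simp [(hb t ht h).1, hf]
    rw [(hb t ht h).1, (hb t ht h).2, ← mul_sub, norm_mul, Complex.norm_real, Real.norm_eq_abs,
      abs_of_nonneg (h0 _)]
    refine mul_le_mul_of_nonneg_left ((norm_ee_sub _ _).trans ?_) (h0 _)
    rw [show (w : ℝ) * (η t - A / S) - m * (t : ℝ) / N - (w * (η t - A' / S') - m * (t : ℝ) / N) =
      - (w * (A / S - A' / S')) by ring, abs_neg, abs_mul, hD, ← mul_assoc]
    refine mul_le_mul_of_nonneg_left ?_ (by positivity)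
    rw [le_div_iff₀' hS0]; exact key t ht h hf
  · rw [← sum_mul, ← hS, hD]
    have e : S * (2 * Real.pi * |(w : ℝ)| * (3 * (k * R) * (Cη + 1) / S)) =
        k * R * (6 * Real.pi * |(w : ℝ)| * (Cη + 1)) := by field_simp; ring
    have e2 : 6 * Real.pi * |(w : ℝ)| * (Cη + 1) ≤ 6 * Real.pi * |(w : ℝ)| * (Cη + 1) / c := by
      rw [le_div_iff₀ hc]; exact mul_le_of_le_one_right (by positivity) hc1
    rw [e]
    have := mul_le_mul_of_nonneg_left e2 (show 0 ≤ (k : ℝ) * R by positivity)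
    linarith

theorem re_pos {z z' z'' : ℂ} {e : ℝ} (h : 3 * e < ‖z‖) (h' : ‖z - z'‖ ≤ e) (h'' : ‖z - z''‖ ≤ e) :
    0 < (z' * (starRingEnd ℂ) z'').re := by
  have he : 0 ≤ e := (norm_nonneg _).trans h'
  have b : ∀ u v : ℂ, |(u * (starRingEnd ℂ) v).re| ≤ ‖u‖ * ‖v‖ := fun u v =>
    (Complex.abs_re_le_norm _).trans (by rw [norm_mul, Complex.norm_conj])
  have e1 : (z' * (starRingEnd ℂ) z'').re = ‖z‖ ^ 2 - (z * (starRingEnd ℂ) (z - z'')).re -
      ((z - z') * (starRingEnd ℂ) z).re + ((z - z') * (starRingEnd ℂ) (z - z'')).re := by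
    rw [← Complex.normSq_eq_norm_sq, Complex.normSq_apply]
    simp; ring
  have b1 := (abs_le.1 (b z (z - z''))).2
  have b2 := (abs_le.1 (b (z - z') z)).2
  have b3 := (abs_le.1 (b (z - z') (z - z''))).1
  have c1 := mul_le_mul_of_nonneg_left h'' (norm_nonneg z)
  have c2 := mul_le_mul_of_nonneg_right h' (norm_nonneg z)
  have c3 := mul_le_mul h' h'' (norm_nonneg _) he
  rw [e1]
  nlinarith

end Pool.Agent.Lib.MP_7903c7_al.RF
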