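import Pool.Agent.Lib.MP_7903c7_al.RF.Anch
import Pool.Agent.Lib.MP_7903c7_al.RF.Win
import Pool.Agent.Lib.MP_7903c7_al.RF.Quad
import Pool.Agent.Lib.MP_7903c7_al.RF.Xi

/-!
The system of circle valued functions attached to the persistent components.
-/

namespace Pool.Agent.Lib.MP_7903c7_al.RF

open Finset
open scoped Classical Pointwise

namespace S3

theorem Fw_nonneg (n0 T : ℕ) (hn0 : 0 < n0) {f : ℤ → ℝ} (h0 : ∀ t, 0 ≤ f t) (σ : ℤ) :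
    0 ≤ Fw n0 T f σ := by
  have := Fw_mono n0 T (f := fun _ => 0) (f' := f) (σ := σ) (fun t _ => h0 t)
  rwa [Fw_const n0 T hn0, zero_mul] at this

theorem pers_le {F : ℤ → ℝ} (h0 : ∀ σ, 0 ≤ F σ) (σ : ℤ) : pers F ≤ F σ :=
  ciInf_le ⟨0, by rintro _ ⟨σ, rfl⟩; exact h0 σ⟩ σ

theorem pers_le_add {F F' : ℤ → ℝ} {ζ : ℝ} (h0 : ∀ σ, 0 ≤ F σ) (h : ∀ σ, F σ ≤ F' σ + ζ) :
    pers F ≤ pers F' + ζ := by
  have : pers F - ζ ≤ pers F' := le_ciInf fun σ => by linarith [pers_le h0 σ, h σ]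
  linarith

theorem pers_shift (F : ℤ → ℝ) (c : ℤ) : pers (fun σ => F (σ + c)) = pers F :=
  (Equiv.addRight c).iInf_comp (g := F)

theorem exists_ne_zero (n0 T : ℕ) (hn0 : 0 < n0) {f : ℤ → ℝ} {σ : ℤ} (h : 0 < Fw n0 T f σ) :
    ∃ t, |t - σ| < T * n0 ∧ f t ≠ 0 := by
  by_contra hcon
  push Not at hcon
  have := Fw_mono n0 T (f := f) (f' := fun _ => 0) (σ := σ) (fun t ht => (hcon t ht).le)
  rw [Fw_const n0 T hn0, zero_mul] at this
  linarith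

theorem near_comp {α β : Type} {N m : ℕ} {γ γ' : ℤ → α} (h : Near N m γ γ') (φ : α → β) :
    Near N m (fun t => φ (γ t)) (fun t => φ (γ' t)) := by
  refine le_trans (card_le_card ?_) h
  intro t ht
  simp only [mem_filter] at ht ⊢
  exact ⟨ht.1, fun he => ht.2 (by rw [he])⟩

variable {G : Type} [Group G] {g : G} {C : Subgroup G} {S : Finset G} {R r0 Δ I0 : ℕ}

theorem path_mem (h1 : (1 : G) ∈ S) {γ : ℤ → G} {ℓ : ℤ → ℕ}
    (h : ∀ t, (γ t)⁻¹ * γ (t + 1) ∈ (S : Set G) ^ ℓ t) {a b t t' : ℤ} {r : ℕ} (hat : a ≤ t)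
    (htt : t ≤ t') (htb : t' ≤ b) (hr : ∑ u ∈ Ico a b, ℓ u ≤ r) :
    (γ t)⁻¹ * γ t' ∈ (S : Set G) ^ r := by
  refine Set.pow_subset_pow_right (Finset.mem_coe.2 h1) ?_ (len_path h htt)
  exact le_trans (sum_le_sum_of_subset (Ico_subset_Ico hat htb)) hr

/-- The persistence of a component along a loop. -/
noncomputable def ps (X : Geo g C S R r0 Δ I0) (n0 T : ℕ) (γ : ℤ → G) (κ : X.K) : ℝ :=
  pers (Fw n0 T fun t => X.phi κ (γ t))

/-- A class of persistent components. -/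
noncomputable def qq (X : Geo g C S R r0 Δ I0) (n0 T : ℕ) (θ : ℝ) (γ : ℤ → G) : X.Q :=
  @Classical.epsilon X.Q ⟨X.cls (X.phi_top 1).choose⟩
    fun q => ∃ κ, θ < ps X n0 T γ κ ∧ X.cls κ = q

/-- The function attached to a threshold and a frequency. -/
noncomputable def FF (X : Geo g C S R r0 Δ I0) (N n0 T : ℕ) (θ : ℝ) (i : X.Q → ℕ) (P j : ℤ)
    (γ : ℤ → G) : ℂ :=
  ∑ᶠ κ, if θ < ps X n0 T γ κ ∧ X.cls κ = qq X n0 T θ γ then
    xi N (fun t => X.phi κ (γ t)) (fun t => X.eta κ (γ t)) (i (qq X n0 T θ γ) * P) j else 0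

theorem ps_act (X : Geo g C S R r0 Δ I0) (n0 T : ℕ) (γ : ℤ → G) (κ : X.K) {c : G} (hc : c ∈ C) :
    ps X n0 T (fun t => c * γ t) (X.act c κ) = ps X n0 T γ κ := by
  simp only [ps, X.phi_act c hc]

theorem ps_shift (X : Geo g C S R r0 Δ I0) (n0 T : ℕ) (γ : ℤ → G) (κ : X.K) :
    ps X n0 T (fun t => γ (t - 1)) κ = ps X n0 T γ κ := by
  unfold ps
  rw [← pers_shift (Fw n0 T fun t => X.phi κ (γ t)) (-1)]
  congr 1
  funext σ
  rw [← Fw_shift]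
  simp only [sub_eq_add_neg]

theorem ps_le (X : Geo g C S R r0 Δ I0) {n0 : ℕ} (hn0 : 0 < n0) (T : ℕ) (γ : ℤ → G) (κ : X.K)
    (σ : ℤ) : ps X n0 T γ κ ≤ Fw n0 T (fun t => X.phi κ (γ t)) σ :=
  pers_le (fun σ => Fw_nonneg n0 T hn0 (fun _ => X.phi_nonneg κ _) σ) σ

theorem qq_congr (X : Geo g C S R r0 Δ I0) (n0 T : ℕ) (θ : ℝ) {γ γ' : ℤ → G}
    (h : ∀ q, (∃ κ, θ < ps X n0 T γ' κ ∧ X.cls κ = q) ↔ ∃ κ, θ < ps X n0 T γ κ ∧ X.cls κ = q) :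
    qq X n0 T θ γ' = qq X n0 T θ γ := by
  unfold qq
  congr 1
  funext q
  exact propext (h q)

theorem qq_act (X : Geo g C S R r0 Δ I0) (n0 T : ℕ) (θ : ℝ) (γ : ℤ → G) {c : G} (hc : c ∈ C) :
    qq X n0 T θ (fun t => c * γ t) = qq X n0 T θ γ := by
  refine qq_congr X n0 T θ fun q => ⟨?_, ?_⟩
  · rintro ⟨κ, h, hq⟩
    obtain ⟨κ', rfl⟩ := (X.act c).surjective κ
    rw [ps_act X n0 T γ κ' hc] at h
    rw [X.cls_act c hc] at hq
    exact ⟨κ', h, hq⟩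
  · rintro ⟨κ, h, hq⟩
    exact ⟨X.act c κ, by rwa [ps_act X n0 T γ κ hc], by rwa [X.cls_act c hc]⟩

theorem qq_shift (X : Geo g C S R r0 Δ I0) (n0 T : ℕ) (θ : ℝ) (γ : ℤ → G) :
    qq X n0 T θ (fun t => γ (t - 1)) = qq X n0 T θ γ :=
  qq_congr X n0 T θ fun q => by simp only [ps_shift]

theorem phi_per (X : Geo g C S R r0 Δ I0) {N : ℕ} {γ : ℤ → G} (hγ : IsLoop g N γ) (κ : X.K)
    (t : ℤ) : X.phi κ (γ (t + N)) = X.phi κ (γ t) := by
  rw [hγ t, X.phi_g]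

theorem eta_per (X : Geo g C S R r0 Δ I0) {N : ℕ} {γ : ℤ → G} (hγ : IsLoop g N γ) (κ : X.K)
    (t : ℤ) (h : X.phi κ (γ t) ≠ 0) : X.eta κ (γ (t + N)) = X.eta κ (γ t) + 1 := by
  rw [hγ t, X.eta_g κ _ h]

theorem equi (X : Geo g C S R r0 Δ I0) {N : ℕ} (hN : 0 < N) (n0 T : ℕ) (θ : ℝ) (i : X.Q → ℕ)
    (P j : ℤ) :
    Equi g C N (fun γ => (i (qq X n0 T θ γ) : ℤ) * P - j) (FF X N n0 T θ i P j) := by
  intro γ hγ
  refine ⟨fun c hc => ⟨by simp only [qq_act X n0 T θ γ hc], ?_⟩,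
    by simp only [qq_shift X n0 T θ γ], ?_⟩
  · unfold FF
    rw [← finsum_comp_equiv (X.act c)]
    refine finsum_congr fun κ => ?_
    rw [qq_act X n0 T θ γ hc, ps_act X n0 T γ κ hc, X.cls_act c hc]
    split_ifs with h
    · simp only [X.phi_act c hc]
      exact xi_congr N _ _ _ _ _ (fun t => X.phi_nonneg κ _)
        (fun t t' h h' => X.eta_act c hc κ _ _ h h')
    · rfl
  · unfold FF
    rw [← smul_eq_mul (ee _), smul_finsum]
    refine finsum_congr fun κ => ?_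
    rw [qq_shift X n0 T θ γ, ps_shift X n0 T γ κ, smul_eq_mul]
    split_ifs with h
    · exact xi_shift N hN (fun t => X.phi κ (γ t)) (fun t => X.eta κ (γ t)) _ j
        (fun t => X.phi_nonneg κ _) (phi_per X hγ κ) (eta_per X hγ κ)
    · rw [mul_zero]

/-- Persistent components of one class coincide. -/
theorem uniq (X : Geo g C S R r0 Δ I0) (h1 : (1 : G) ∈ S) {L n0 T : ℕ} (hn0 : 0 < n0)
    (hL : 0 < L) (hr : 2 * T ≤ r0) {γ : ℤ → G} (hγ : Good g S (L * n0) L γ) {κ κ' : X.K}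
    (hκ : 0 < ps X n0 T γ κ) (hκ' : 0 < ps X n0 T γ κ') (hq : X.cls κ = X.cls κ') : κ = κ' := by
  obtain ⟨-, ℓ, hp, hs, hℓ⟩ := hγ
  have hw := sum_window (L * n0) (2 * (T * n0)) ℓ hp (-(T * n0 : ℕ))
  have hex : ∃ t ∈ range (L * n0),
      ∑ u ∈ Ico ((t : ℤ) + -(T * n0 : ℕ)) (t + -(T * n0 : ℕ) + (2 * (T * n0) : ℕ)), ℓ u ≤
        2 * T := by
    refine exists_le_of_sum_le ⟨0, mem_range.2 (Nat.mul_pos hL hn0)⟩ ?_
    rw [hw, sum_const, card_range, smul_eq_mul]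
    calc 2 * (T * n0) * ∑ t ∈ range (L * n0), ℓ t ≤ 2 * (T * n0) * L :=
          Nat.mul_le_mul_left _ hℓ
      _ = L * n0 * (2 * T) := by ring
  obtain ⟨σ, -, hσ⟩ := hex
  obtain ⟨t, ht, hf⟩ := exists_ne_zero n0 T hn0 (lt_of_lt_of_le hκ (ps_le X hn0 T γ κ σ))
  obtain ⟨t', ht', hf'⟩ := exists_ne_zero n0 T hn0 (lt_of_lt_of_le hκ' (ps_le X hn0 T γ κ' σ))
  rw [abs_lt] at ht ht'
  rcases le_total t t' with h | h
  · have hu := path_mem h1 hs (t := t) (t' := t') (by push_cast; linarith [ht.1]) h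
      (by push_cast; linarith [ht'.2]) (hσ.trans hr)
    exact X.sep κ κ' (γ t) _ hu hq hf (by rwa [mul_inv_cancel_left])
  · have hu := path_mem h1 hs (t := t') (t' := t) (by push_cast; linarith [ht'.1]) h
      (by push_cast; linarith [ht.2]) (hσ.trans hr)
    exact (X.sep κ' κ (γ t') _ hu hq.symm hf' (by rwa [mul_inv_cancel_left])).symm

/-- The heights vary boundedly along a period of a good loop. -/
theorem eta_bound (X : Geo g C S R r0 Δ I0) (h1 : (1 : G) ∈ S) (hc : ∀ c ∈ C, c * g = g * c)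
    (hi : C.relIndex (Subgroup.centralizer {g}) ≠ 0) (L : ℕ) :
    ∃ B : ℝ, 0 ≤ B ∧ ∀ (N : ℕ) (γ : ℤ → G), Good g S N L γ → ∀ κ, ∀ t ∈ range N, ∀ t' ∈ range N,
      X.phi κ (γ t) ≠ 0 → X.phi κ (γ t') ≠ 0 → |X.eta κ (γ t) - X.eta κ (γ t')| ≤ B := by
  obtain ⟨Y, hY, -⟩ := anchors g C hc hi (S ^ L)
  choose A hA hA' using X.phi_fin
  refine ⟨∑ z ∈ Y, ∑ κ ∈ A z, ∑ u ∈ S ^ L, |X.eta κ z - X.eta κ (z * u)|, by positivity, ?_⟩
  rintro N γ ⟨hγ, ℓ, hp, hs, hℓ⟩ κ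
  have key : ∀ t ∈ range N, ∀ t' ∈ range N, t ≤ t' → X.phi κ (γ t) ≠ 0 → X.phi κ (γ t') ≠ 0 →
      |X.eta κ (γ t) - X.eta κ (γ t')| ≤
        ∑ z ∈ Y, ∑ κ ∈ A z, ∑ u ∈ S ^ L, |X.eta κ z - X.eta κ (z * u)| := by
    intro t ht t' ht' htt hf hf'
    have hw := (sum_window_le N N le_rfl ℓ hp t).trans hℓ
    have h1' : (γ t)⁻¹ * γ (t + N) ∈ (S : Set G) ^ L :=
      path_mem h1 hs le_rfl (by omega) le_rfl hw
    have h2' : (γ t)⁻¹ * γ t' ∈ (S : Set G) ^ L :=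
      path_mem h1 hs le_rfl (by exact_mod_cast htt)
        (by have := mem_range.1 ht'; omega) hw
    rw [hγ t, ← mul_assoc, ← Finset.coe_pow, Finset.mem_coe] at h1'
    rw [← Finset.coe_pow, Finset.mem_coe] at h2'
    obtain ⟨c, hcC, z, hz, he⟩ := hY _ h1'
    obtain ⟨κ', rfl⟩ := (X.act c).surjective κ
    set u := (γ t)⁻¹ * γ t' with hu
    have he' : γ t' = c * (z * u) := by rw [← mul_assoc, ← he, hu, mul_inv_cancel_left]
    rw [he, X.phi_act c hcC] at hf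
    rw [he', X.phi_act c hcC] at hf'
    rw [he', he, X.eta_act c hcC κ' _ _ hf hf']
    calc |X.eta κ' z - X.eta κ' (z * u)|
        ≤ ∑ u ∈ S ^ L, |X.eta κ' z - X.eta κ' (z * u)| :=
          single_le_sum (f := fun u => |X.eta κ' z - X.eta κ' (z * u)|)
            (fun _ _ => abs_nonneg _) h2'
      _ ≤ ∑ κ ∈ A z, ∑ u ∈ S ^ L, |X.eta κ z - X.eta κ (z * u)| :=
          single_le_sum (f := fun κ => ∑ u ∈ S ^ L, |X.eta κ z - X.eta κ (z * u)|)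
            (fun _ _ => by positivity) (hA' z κ' hf)
      _ ≤ _ :=
          single_le_sum (f := fun z => ∑ κ ∈ A z, ∑ u ∈ S ^ L, |X.eta κ z - X.eta κ (z * u)|)
            (fun _ _ => by positivity) hz
  intro t ht t' ht' hf hf'
  rcases le_total t t' with h | h
  · exact key t ht t' ht' h hf hf'
  · rw [abs_sub_comm]
    exact key t' ht' t ht h hf' hf

/-- A persistent component is seen during a fixed proportion of the time. -/
theorem mass (X : Geo g C S R r0 Δ I0) {N n0 T : ℕ} (hn0 : 0 < n0) (hT : 0 < T) {γ : ℤ → G}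
    (hγ : IsLoop g N γ) {κ : X.K} (hκ : (T : ℝ) ^ 2 / 16 ≤ ps X n0 T γ κ) :
    1 / 64 * (N : ℝ) * (4 * T : ℕ) ≤ ∑ t ∈ range N, X.phi κ (γ t) := by
  have h := Fw_avg n0 T N hn0 (f := fun t => X.phi κ (γ t)) (phi_per X hγ κ)
  have h2 : ∑ _σ ∈ range N, (T : ℝ) ^ 2 / 16 ≤
      ∑ σ ∈ range N, Fw n0 T (fun t => X.phi κ (γ t)) σ :=
    sum_le_sum fun σ _ => hκ.trans (ps_le X hn0 T γ κ σ)
  rw [h, sum_const, card_range, nsmul_eq_mul] at h2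
  have hT' : (0 : ℝ) < T := by exact_mod_cast hT
  push_cast
  refine le_of_mul_le_mul_left ?_ hT'
  linarith

/-- One of the Fourier coefficients is large. -/
theorem lower {T : ℕ} (X : Geo g C S (4 * T) r0 Δ I0) (h1 : (1 : G) ∈ S) {T2 L M3 n0 : ℕ}
    (hn0 : 0 < n0) (hT : 0 < T) (hT2 : 0 < T2) (hL : 0 < L) (hr' : 864 * 64 ^ 4 * T2 ≤ r0)
    (hM : 6 * 64 ^ 2 * L ≤ T2 * (M3 + 1)) (hM' : T2 * (M3 + 1) ≤ 12 * 64 ^ 2 * L)
    {γ : ℤ → G} (hγ : Good g S (L * n0) L γ) {κ : X.K} (hκ : (T : ℝ) ^ 2 / 16 ≤ ps X n0 T γ κ)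
    (w : ℤ) (hw : ∀ y, ∀ u ∈ (S : Set G) ^ r0, X.phi κ y ≠ 0 → X.phi κ (y * u) ≠ 0 →
      ∃ n : ℤ, |(w : ℝ) * (X.eta κ y - X.eta κ (y * u)) - n| ≤ 1 / 6) :
    ∃ j : ℤ, |j| ≤ M3 ∧ 1 / 64 * ((L * n0 : ℕ) : ℝ) * (4 * T : ℕ) ≤
      2 * (M3 + 1) * ‖xi (L * n0) (fun t => X.phi κ (γ t)) (fun t => X.eta κ (γ t)) w j‖ := by
  obtain ⟨hγ, ℓ, hp, hs, hℓ⟩ := hγ
  set U := T2 * n0 with hU
  have hU0 : 0 < U := Nat.mul_pos hT2 hn0
  set B := (range (L * n0)).filter fun t : ℕ =>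
    r0 < ∑ u ∈ Ico ((t : ℤ) + -(U : ℤ)) (t + -(U : ℤ) + (2 * U : ℕ)), ℓ u with hB
  have hBc : B.card * r0 ≤ 2 * U * L := by
    calc B.card * r0 = ∑ _t ∈ B, r0 := by rw [sum_const, smul_eq_mul]
      _ ≤ ∑ t ∈ B, ∑ u ∈ Ico ((t : ℤ) + -(U : ℤ)) (t + -(U : ℤ) + (2 * U : ℕ)), ℓ u :=
          sum_le_sum fun t ht => (mem_filter.1 ht).2.le
      _ ≤ ∑ t ∈ range (L * n0),
            ∑ u ∈ Ico ((t : ℤ) + -(U : ℤ)) (t + -(U : ℤ) + (2 * U : ℕ)), ℓ u :=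
          sum_le_sum_of_subset (filter_subset _ _)
      _ = 2 * U * ∑ t ∈ range (L * n0), ℓ t := sum_window _ _ ℓ hp _
      _ ≤ 2 * U * L := Nat.mul_le_mul_left _ hℓ
  refine xi_lower (L * n0) U M3 (Nat.mul_pos hL hn0) hU0 _ _ w (by norm_num) (by positivity)
    (fun t => X.phi_nonneg κ _) (fun t => X.phi_le κ _) (phi_per X hγ κ) (eta_per X hγ κ)
    (mass X hn0 hT hγ hκ) B ?_ ?_ ?_
  · intro t ht htB s hs' hf hf'
    have hslow : ∑ u ∈ Ico ((t : ℤ) + -(U : ℤ)) (t + -(U : ℤ) + (2 * U : ℕ)), ℓ u ≤ r0 := by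
      by_contra hcon
      exact htB (mem_filter.2 ⟨ht, not_le.1 hcon⟩)
    rw [abs_le] at hs'
    rcases le_total 0 s with h | h
    · have hu := path_mem h1 hs (t := t) (t' := t + s) (by omega) (by omega)
        (by push_cast; omega) hslow
      have := hw (γ t) _ hu hf (by rwa [mul_inv_cancel_left])
      rwa [mul_inv_cancel_left] at this
    · have hu := path_mem h1 hs (t := t + s) (t' := t) (by omega) (by omega)
        (by push_cast; omega) hslow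
      obtain ⟨n, hn⟩ := hw (γ (t + s)) _ hu hf' (by rwa [mul_inv_cancel_left])
      rw [mul_inv_cancel_left] at hn
      refine ⟨-n, ?_⟩
      rw [← abs_neg]
      convert hn using 2
      push_cast
      ring
  · have : 6 * 64 ^ 2 * (L * n0) ≤ U * (M3 + 1) := by
      calc 6 * 64 ^ 2 * (L * n0) = 6 * 64 ^ 2 * L * n0 := by ring
        _ ≤ T2 * (M3 + 1) * n0 := Nat.mul_le_mul_right _ hM
        _ = U * (M3 + 1) := by rw [hU]; ring
    have h' : (6 * 64 ^ 2 * ((L * n0 : ℕ) : ℝ)) ≤ U * (M3 + 1) := by exact_mod_cast this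
    linarith
  · have hb : B.card * (864 * 64 ^ 4) ≤ 2 * n0 * L := by
      refine Nat.le_of_mul_le_mul_right ?_ hT2
      calc B.card * (864 * 64 ^ 4) * T2 = B.card * (864 * 64 ^ 4 * T2) := by ring
        _ ≤ B.card * r0 := Nat.mul_le_mul_left _ hr'
        _ ≤ 2 * U * L := hBc
        _ = 2 * n0 * L * T2 := by rw [hU]; ring
    have hb2 : (2 * U + 1) * (M3 + 1) ≤ 3 * n0 * (12 * 64 ^ 2 * L) := by
      calc (2 * U + 1) * (M3 + 1) ≤ 3 * U * (M3 + 1) := Nat.mul_le_mul_right _ (by omega)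
        _ = 3 * n0 * (T2 * (M3 + 1)) := by rw [hU]; ring
        _ ≤ _ := Nat.mul_le_mul_left _ hM'
    have hb3 := Nat.mul_le_mul hb hb2
    have hb4 : 64 ^ 2 * (12 * B.card * (2 * U + 1) * (M3 + 1)) ≤ (L * n0) ^ 2 := by
      refine Nat.le_of_mul_le_mul_right (c := 72 * 64 ^ 2) ?_ (by norm_num)
      calc _ = B.card * (864 * 64 ^ 4) * ((2 * U + 1) * (M3 + 1)) := by ring
        _ ≤ _ := hb3
        _ = _ := by ring
    have h' : (64 ^ 2 * (12 * (B.card : ℝ) * (2 * U + 1) * (M3 + 1))) ≤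
        ((L * n0 : ℕ) : ℝ) ^ 2 := by exact_mod_cast hb4
    linarith

/-- One of the bands contains no persistence. -/
theorem band {T : ℕ} (X : Geo g C S (4 * T) r0 Δ I0) {n0 : ℕ} (hn0 : 0 < n0) (hT : 0 < T)
    (γ : ℤ → G) {h : ℝ} (hh : 0 < h) :
    ∃ b ≤ 64 * Δ, ∀ κ, ps X n0 T γ κ < (T : ℝ) ^ 2 / 16 + b * h ∨
      (T : ℝ) ^ 2 / 16 + (b + 1) * h ≤ ps X n0 T γ κ := by
  have hT' : (0 : ℝ) < T := by exact_mod_cast hT
  obtain ⟨A, hA, hA'⟩ := Fw_count n0 T Δ hn0 (fun κ t => X.phi κ (γ t))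
    (R := ((4 * T : ℕ) : ℝ)) (c := (T : ℝ) ^ 2 / 16) (by positivity) (by positivity)
    (fun κ t => X.phi_nonneg κ _) (fun κ t => X.phi_le κ _) (fun t => X.phi_fin (γ t)) 0
  have hcard : A.card ≤ 64 * Δ := by
    have : (A.card : ℝ) ≤ 64 * Δ := by
      refine le_of_mul_le_mul_left ?_ (show 0 < (T : ℝ) ^ 2 / 16 by positivity)
      push_cast at hA
      linarith
    exact_mod_cast this
  have hlt : (A.image fun κ => ⌊(ps X n0 T γ κ - (T : ℝ) ^ 2 / 16) / h⌋₊).card <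
      (range (64 * Δ + 1)).card := by
    rw [card_range]
    exact Nat.lt_succ_of_le (card_image_le.trans hcard)
  obtain ⟨b, hb, hb'⟩ := exists_mem_notMem_of_card_lt_card hlt
  refine ⟨b, Nat.lt_succ_iff.1 (mem_range.1 hb), fun κ => ?_⟩
  by_contra hcon
  push Not at hcon
  have hb0 : (0 : ℝ) ≤ b * h := by positivity
  refine hb' (mem_image.2 ⟨κ, hA' κ ?_, ?_⟩)
  · exact le_trans (by linarith [hcon.1]) (ps_le X hn0 T γ κ 0)
  · rw [Nat.floor_eq_iff (div_nonneg (by linarith [hcon.1]) hh.le), le_div_iff₀ hh,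
      div_lt_iff₀ hh]
    constructor <;> linarith [hcon.1, hcon.2]

theorem ps_near (X : Geo g C S R r0 Δ I0) {N n0 T m : ℕ} (hn0 : 0 < n0) (hN : 2 * (T * n0) ≤ N)
    {γ γ' : ℤ → G} (hγ : IsLoop g N γ) (hγ' : IsLoop g N γ') (h : Near N m γ γ') (κ : X.K) :
    ps X n0 T γ κ ≤ ps X n0 T γ' κ + m * R / n0 ∧
      ps X n0 T γ' κ ≤ ps X n0 T γ κ + m * R / n0 := by
  have hk := fun σ => abs_le.1 (Fw_near n0 T N m hN (R := R) (fun t => X.phi_nonneg κ (γ t))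
    (fun t => X.phi_le κ _) (fun t => X.phi_nonneg κ (γ' t)) (fun t => X.phi_le κ _)
    (phi_per X hγ κ) (phi_per X hγ' κ) (near_comp h (X.phi κ)) σ)
  exact ⟨pers_le_add (fun σ => Fw_nonneg n0 T hn0 (fun _ => X.phi_nonneg κ _) σ)
      fun σ => by linarith [(hk σ).2],
    pers_le_add (fun σ => Fw_nonneg n0 T hn0 (fun _ => X.phi_nonneg κ _) σ)
      fun σ => by linarith [(hk σ).1]⟩

end S3

open S3 in
theorem sys3 {G : Type} [Group G] (g : G) (C : Subgroup G) (S : Finset G) (T T2 r0 Δ I0 : ℕ)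
    (X : Geo g C S (4 * T) r0 Δ I0) (h1 : (1 : G) ∈ S) (hS : ∀ s ∈ S, s⁻¹ ∈ S) (hT : 0 < T)
    (hT2 : 0 < T2) (hr : 4 * T ≤ r0) (hr' : 864 * 64 ^ 4 * T2 ≤ r0)
    (hc : ∀ c ∈ C, c * g = g * c) (hi : C.relIndex (Subgroup.centralizer {g}) ≠ 0)
    (L M3 m : ℕ) (P : ℤ) (hL : 4 * T ≤ L) (hM : 6 * 64 ^ 2 * L ≤ T2 * (M3 + 1))
    (hM' : T2 * (M3 + 1) ≤ 12 * 64 ^ 2 * L) :
    ∃ n00 : ℕ, ∀ n0 ≥ n00, ∃ (i : ℕ → (ℤ → G) → ℕ) (F : ℕ × ℤ → (ℤ → G) → ℂ),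
      (∀ b γ, 1 ≤ i b γ ∧ i b γ ≤ I0) ∧
      (∀ b j, Equi g C (L * n0) (fun γ => i b γ * P - j) (F (b, j))) ∧
      ∀ γ, Good g S (L * n0) L γ →
        (∃ κ, (T : ℝ) ^ 2 / 8 < pers (Fw n0 T fun t => X.phi κ (γ t))) →
        ∃ b ≤ 64 * Δ, ∃ j : ℤ, |j| ≤ M3 ∧
          Fine g S (L * n0) L m (fun γ => i b γ * P - j) (F (b, j)) γ := by
  have hT' : (0 : ℝ) < T := by exact_mod_cast hT
  have hL0 : 0 < L := by omega
  obtain ⟨idir, hdir⟩ := X.dir P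
  obtain ⟨Cη, hCη, hη⟩ := eta_bound X h1 hc hi L
  obtain ⟨h, hh, hh'⟩ : ∃ h : ℝ, 0 < h ∧ (64 * Δ + 1) * h = (T : ℝ) ^ 2 / 16 :=
    ⟨(T : ℝ) ^ 2 / 16 / (64 * Δ + 1), by positivity, by field_simp⟩
  obtain ⟨e, he⟩ : ∃ e : ℝ, e = m * (4 * T : ℕ) *
    (2 + 6 * Real.pi * (I0 * |(P : ℝ)|) * (Cη + 1) / (1 / 64)) := ⟨_, rfl⟩
  have he0 : 0 ≤ e := by rw [he]; positivity
  obtain ⟨n00, hn00⟩ := exists_nat_gt
    (max (max (2 * (m * (4 * T : ℕ)) / h) (64 * m)) (3 * e * (2 * (M3 + 1)) * 16))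
  refine ⟨n00, fun n0 hn0' => ?_⟩
  have hn : (n00 : ℝ) ≤ n0 := by exact_mod_cast hn0'
  have ha : 2 * (m * (4 * T : ℕ)) / h < n0 :=
    lt_of_lt_of_le (lt_of_le_of_lt ((le_max_left _ _).trans (le_max_left _ _)) hn00) hn
  have hb : (64 * m : ℝ) < n0 :=
    lt_of_lt_of_le (lt_of_le_of_lt ((le_max_right _ _).trans (le_max_left _ _)) hn00) hn
  have hd : 3 * e * (2 * (M3 + 1)) * 16 < n0 :=
    lt_of_lt_of_le (lt_of_le_of_lt (le_max_right _ _) hn00) hn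
  have hn0r : (0 : ℝ) < n0 := lt_of_le_of_lt (by positivity) hb
  have hn0 : 0 < n0 := by exact_mod_cast hn0r
  have hζ : (m : ℝ) * (4 * T : ℕ) / n0 < h / 2 := by
    rw [div_lt_iff₀ hh] at ha
    rw [div_lt_iff₀ hn0r]
    linarith
  have hNn : (n0 : ℝ) ≤ ((L * n0 : ℕ) : ℝ) := by
    exact_mod_cast Nat.le_mul_of_pos_left n0 hL0
  let thr : ℕ → ℝ := fun b => (T : ℝ) ^ 2 / 16 + (b + 1 / 2) * h
  refine ⟨fun b γ => idir (qq X n0 T (thr b) γ),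
    fun bj => FF X (L * n0) n0 T (thr bj.1) idir P bj.2,
    fun b γ => ⟨(hdir _).1, (hdir _).2.1⟩,
    fun b j => equi X (Nat.mul_pos hL0 hn0) n0 T (thr b) idir P j, ?_⟩
  rintro γ hγ ⟨κ0, hκ0⟩
  obtain ⟨b, hbΔ, hband⟩ := band X hn0 hT γ hh
  have hb0 : (0 : ℝ) ≤ b * h := by positivity
  have hthr : thr b = (T : ℝ) ^ 2 / 16 + (b + 1 / 2) * h := rfl
  have hsame : ∀ γ', Good g S (L * n0) L γ' → Near (L * n0) m γ γ' → ∀ κ,
      thr b < ps X n0 T γ' κ ↔ thr b < ps X n0 T γ κ := by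
    intro γ' hγ' hnear κ
    have hk := ps_near X (T := T) hn0 (by nlinarith) hγ.1 hγ'.1 hnear κ
    rw [hthr]
    rcases hband κ with h' | h'
    · constructor <;> intro h'' <;> linarith [hk.1, hk.2]
    · constructor <;> intro h'' <;> linarith [hk.1, hk.2]
  have hq : ∀ γ', Good g S (L * n0) L γ' → Near (L * n0) m γ γ' →
      qq X n0 T (thr b) γ' = qq X n0 T (thr b) γ := fun γ' hγ' hnear =>
    qq_congr X n0 T _ fun q => by simp only [hsame γ' hγ' hnear]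
  have hκ0' : thr b < ps X n0 T γ κ0 := by
    have hbr : (b : ℝ) ≤ 64 * Δ := by exact_mod_cast hbΔ
    have : (b : ℝ) * h ≤ 64 * Δ * h := mul_le_mul_of_nonneg_right hbr hh.le
    change thr b < pers _
    rw [hthr]
    linarith
  obtain ⟨κ1, hκ1, hcls⟩ : ∃ κ, thr b < ps X n0 T γ κ ∧ X.cls κ = qq X n0 T (thr b) γ :=
    Classical.epsilon_spec (p := fun q => ∃ κ, thr b < ps X n0 T γ κ ∧ X.cls κ = q)
      ⟨X.cls κ0, κ0, hκ0', rfl⟩
  have hthr0 : (T : ℝ) ^ 2 / 16 ≤ thr b := by rw [hthr]; linarith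
  have hpos : 0 < thr b := lt_of_lt_of_le (by positivity) hthr0
  set q := qq X n0 T (thr b) γ with hqdef
  have hF : ∀ j, ∀ γ', Good g S (L * n0) L γ' → Near (L * n0) m γ γ' →
      FF X (L * n0) n0 T (thr b) idir P j γ' =
        xi (L * n0) (fun t => X.phi κ1 (γ' t)) (fun t => X.eta κ1 (γ' t)) (idir q * P) j := by
    intro j γ' hγ' hnear
    unfold FF
    rw [finsum_eq_single _ κ1, hq γ' hγ' hnear,
      if_pos ⟨(hsame γ' hγ' hnear κ1).2 hκ1, hcls⟩]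
    intro κ hκ
    rw [if_neg]
    rintro ⟨h', h''⟩
    rw [hsame γ' hγ' hnear] at h'
    rw [hq γ' hγ' hnear] at h''
    exact hκ (uniq X h1 hn0 hL0 (by omega) hγ (hpos.trans h') (hpos.trans hκ1)
      (h''.trans hcls.symm))
  obtain ⟨j, hj, hlow⟩ := lower X h1 hn0 hT hT2 hL0 hr' hM hM' hγ (hthr0.trans hκ1.le)
    (idir q * P) (fun y u hu hf hf' => by
      have := (hdir q).2.2 κ1 y u hu hcls hf hf'
      push_cast
      exact this)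
  refine ⟨b, hbΔ, j, hj, fun γ' γ'' hγ' hγ'' hn' hn'' => ⟨?_, ?_⟩⟩
  · simp only [hq γ' hγ' hn', hq γ'' hγ'' hn'']
  · have hcont : ∀ γ', Good g S (L * n0) L γ' → Near (L * n0) m γ γ' →
        ‖xi (L * n0) (fun t => X.phi κ1 (γ t)) (fun t => X.eta κ1 (γ t)) (idir q * P) j -
          xi (L * n0) (fun t => X.phi κ1 (γ' t)) (fun t => X.eta κ1 (γ' t)) (idir q * P) j‖ ≤
            e := by
      intro γ' hγ' hnear
      refine le_trans (xi_cont (L * n0) m _ _ _ _ _ j (R := ((4 * T : ℕ) : ℝ)) (c := 1 / 64)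
        (Cη := Cη) (by norm_num) (by positivity) hCη (fun t => X.phi_nonneg κ1 _)
        (fun t => X.phi_le κ1 _) (fun t => X.phi_nonneg κ1 _) (fun t => X.phi_le κ1 _)
        (mass X hn0 hT hγ.1 (hthr0.trans hκ1.le)) (by linarith)
        (near_comp hnear fun y => (X.phi κ1 y, X.eta κ1 y)) (hη _ γ hγ κ1) (hη _ γ' hγ' κ1)) ?_
      have hw : |((idir q * P : ℤ) : ℝ)| ≤ I0 * |(P : ℝ)| := by
        push_cast
        rw [abs_mul, Nat.abs_cast]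
        exact mul_le_mul_of_nonneg_right (by exact_mod_cast (hdir q).2.1) (abs_nonneg _)
      rw [he]
      gcongr
    change 0 < (FF X (L * n0) n0 T (thr b) idir P j γ' *
      (starRingEnd ℂ) (FF X (L * n0) n0 T (thr b) idir P j γ'')).re
    rw [hF j γ' hγ' hn', hF j γ'' hγ'' hn'']
    refine re_pos ?_ (hcont γ' hγ' hn') (hcont γ'' hγ'' hn'')
    have hT1 : (1 : ℝ) ≤ T := by exact_mod_cast hT
    have hM0 : (0 : ℝ) < 2 * (M3 + 1) := by positivity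
    refine lt_of_mul_lt_mul_left (lt_of_lt_of_le ?_ hlow) hM0.le
    have : ((L * n0 : ℕ) : ℝ) * 1 ≤ ((L * n0 : ℕ) : ℝ) * T :=
      mul_le_mul_of_nonneg_left hT1 (by positivity)
    have h4 : ((4 * T : ℕ) : ℝ) = 4 * T := by push_cast; ring
    rw [h4]
    linarith

end Pool.Agent.Lib.MP_7903c7_al.RF
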