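import Pool.Agent.Lib.MP_7903c7_al.RF.Defs

set_option autoImplicit false

/-!
The components, cut-off functions and heights attached to a pair satisfying `HypH`.
-/

namespace Pool.Agent.Lib.MP_7903c7_al.RF

open Finset
open scoped Classical Pointwise

namespace GeoAux

/-- Simultaneous approximation by the pigeonhole principle. -/
theorem dirichlet {ι : Type} (B : Finset ι) (θ : ι → ℝ) (d : ℕ) (hd : B.card ≤ d) :
    ∃ i : ℕ, 1 ≤ i ∧ i ≤ 6 ^ d ∧ ∀ b ∈ B, ∃ n : ℤ, |(i : ℝ) * θ b - n| ≤ 1 / 6 := by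
  have hlt : ∀ x : ℝ, ⌊6 * Int.fract x⌋₊ < 6 := fun x => by
    have h0 := Int.fract_nonneg x
    have h1 := Int.fract_lt_one x
    rw [Nat.floor_lt (by positivity)]
    push_cast
    linarith
  let f : ℕ → (B → Fin 6) := fun i b => ⟨⌊6 * Int.fract ((i : ℝ) * θ b)⌋₊, hlt _⟩
  have hcard : (univ : Finset (B → Fin 6)).card < (range (6 ^ d + 1)).card := by
    rw [card_univ, Fintype.card_fun, Fintype.card_fin, Fintype.card_coe, card_range]
    exact Nat.lt_succ_of_le (Nat.pow_le_pow_right (by norm_num) hd)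
  have key : ∀ i j : ℕ, i < j → j < 6 ^ d + 1 → f i = f j →
      ∃ i : ℕ, 1 ≤ i ∧ i ≤ 6 ^ d ∧ ∀ b ∈ B, ∃ n : ℤ, |(i : ℝ) * θ b - n| ≤ 1 / 6 := by
    intro i j hij hj hf
    refine ⟨j - i, by omega, by omega, fun b hb => ?_⟩
    have h := congrArg Fin.val (congrFun hf ⟨b, hb⟩)
    simp only [f] at h
    refine ⟨⌊(j : ℝ) * θ b⌋ - ⌊(i : ℝ) * θ b⌋, ?_⟩
    have e : ((j - i : ℕ) : ℝ) * θ b - ((⌊(j : ℝ) * θ b⌋ - ⌊(i : ℝ) * θ b⌋ : ℤ) : ℝ) =
        Int.fract ((j : ℝ) * θ b) - Int.fract ((i : ℝ) * θ b) := by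
      rw [Nat.cast_sub hij.le]
      simp only [Int.fract]
      push_cast
      ring
    rw [e]
    have a0 := Int.fract_nonneg ((i : ℝ) * θ b)
    have b0 := Int.fract_nonneg ((j : ℝ) * θ b)
    have a1 := Nat.floor_le (a := 6 * Int.fract ((i : ℝ) * θ b)) (by positivity)
    have a2 := Nat.lt_floor_add_one (6 * Int.fract ((i : ℝ) * θ b))
    have b1 := Nat.floor_le (a := 6 * Int.fract ((j : ℝ) * θ b)) (by positivity)
    have b2 := Nat.lt_floor_add_one (6 * Int.fract ((j : ℝ) * θ b))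
    rw [h] at a1 a2
    rw [abs_le]
    constructor <;> linarith
  obtain ⟨i, hi, j, hj, hij, hf⟩ :=
    exists_ne_map_eq_of_card_lt_of_maps_to hcard (f := f) (fun _ _ => mem_univ _)
  rcases lt_or_gt_of_ne hij with h | h
  · exact key i j h (mem_range.1 hj) hf
  · exact key j i h (mem_range.1 hi) hf.symm

variable {G : Type} [Group G]

theorem inv_mem_pow {S : Finset G} (hS : ∀ s ∈ S, s⁻¹ ∈ S) (n : ℕ) :
    ∀ u ∈ (S : Set G) ^ n, u⁻¹ ∈ (S : Set G) ^ n := by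
  induction n with
  | zero =>
    intro u hu
    rw [pow_zero, Set.mem_one] at hu ⊢
    rw [hu, inv_one]
  | succ n ih =>
    intro u hu
    rw [pow_succ] at hu
    obtain ⟨a, ha, s, hs, rfl⟩ := hu
    rw [pow_succ']
    refine ⟨s⁻¹, hS s hs, a⁻¹, ih a ha, ?_⟩
    simp only [mul_inv_rev]

theorem mul_mem_pow {S : Finset G} {m n : ℕ} {u v : G} (hu : u ∈ (S : Set G) ^ m)
    (hv : v ∈ (S : Set G) ^ n) : u * v ∈ (S : Set G) ^ (m + n) := by
  rw [pow_add]
  exact Set.mul_mem_mul hu hv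

theorem mem_pow_mono {S : Finset G} (h1 : (1 : G) ∈ S) {m n : ℕ} (h : m ≤ n) {u : G}
    (hu : u ∈ (S : Set G) ^ m) : u ∈ (S : Set G) ^ n :=
  Set.pow_subset_pow_right (mem_coe.2 h1) h hu

/-- The data given by the hypothesis. -/
structure Dt (g : G) (S : Finset G) (R r0 : ℕ) where
  C : Subgroup G
  H : G → Subgroup G
  chi : G → G → ℝ
  one : (1 : G) ∈ S
  inv : ∀ s ∈ S, s⁻¹ ∈ S
  comm : ∀ c ∈ C, c * g = g * c
  le : ∀ x, H x ≤ C
  gH : ∀ x, g ∈ H x
  chi_g : ∀ x, chi x g = 1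
  add : ∀ x, ∀ a ∈ H x, ∀ b ∈ H x, chi x (a * b) = chi x a + chi x b
  loc : ∀ x, ∀ b ∈ (S : Set G) ^ (2 * R + r0), x * b * x⁻¹ ∈ C → x * b * x⁻¹ ∈ H x

namespace Dt

variable {g : G} {S : Finset G} {R r0 : ℕ} (D : Dt g S R r0)

/-- The right cosets of `C`. -/
def Q : Type := Quotient (QuotientGroup.rightRel D.C)

/-- The class of an element. -/
def cl (y : G) : D.Q := Quotient.mk (QuotientGroup.rightRel D.C) y

/-- The representative of a class. -/
noncomputable def x (q : D.Q) : G := Quotient.out q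

theorem cl_x (q : D.Q) : D.cl (D.x q) = q := Quotient.out_eq q

theorem cl_mul {c : G} (hc : c ∈ D.C) (y : G) : D.cl (c * y) = D.cl y := by
  apply Quotient.sound
  change QuotientGroup.rightRel D.C (c * y) y
  rw [QuotientGroup.rightRel_apply]
  simpa using hc

/-- The coordinate in `C` of an element. -/
noncomputable def co (y : G) : G := y * (D.x (D.cl y))⁻¹

theorem co_mem (y : G) : D.co y ∈ D.C := by
  have h : QuotientGroup.rightRel D.C (D.x (D.cl y)) y := Quotient.exact (D.cl_x (D.cl y))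
  rwa [QuotientGroup.rightRel_apply] at h

theorem co_x (y : G) : D.co y * D.x (D.cl y) = y := by
  simp [co]

theorem co_mul {c : G} (hc : c ∈ D.C) (y : G) : D.co (c * y) = c * D.co y := by
  simp only [co, D.cl_mul hc, mul_assoc]

/-- The components. -/
def K : Type := D.Q × Set G

/-- `c` represents the component `κ`. -/
def Rep (κ : D.K) (c : G) : Prop := c ∈ D.C ∧ κ.2 = c • (D.H (D.x κ.1) : Set G)

/-- The action on components. -/
noncomputable def act (c : G) : Equiv.Perm D.K :=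
  Equiv.prodCongr (Equiv.refl D.Q) (MulAction.toPerm c : Equiv.Perm (Set G))

theorem act_fst (c : G) (κ : D.K) : (D.act c κ).1 = κ.1 := rfl

theorem act_snd (c : G) (κ : D.K) : (D.act c κ).2 = c • κ.2 := rfl

variable {D}

theorem Rep.act {κ : D.K} {c d : G} (h : D.Rep κ c) (hd : d ∈ D.C) :
    D.Rep (D.act d κ) (d * c) :=
  ⟨D.C.mul_mem hd h.1, by rw [act_snd, act_fst, h.2, mul_smul]⟩

theorem Rep.act_inv {κ : D.K} {c d : G} (h : D.Rep (D.act d κ) c) (hd : d ∈ D.C) :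
    D.Rep κ (d⁻¹ * c) := by
  refine ⟨D.C.mul_mem (D.C.inv_mem hd) h.1, ?_⟩
  have h2 := h.2
  rw [act_snd, act_fst] at h2
  rw [mul_smul, ← h2, inv_smul_smul]

theorem Rep.mem {κ : D.K} {c c' : G} (h : D.Rep κ c) (h' : D.Rep κ c') :
    c⁻¹ * c' ∈ D.H (D.x κ.1) :=
  (leftCoset_eq_iff _).1 (h.2.symm.trans h'.2)

theorem Rep.mul {κ : D.K} {c c' : G} (h : D.Rep κ c) (h' : c⁻¹ * c' ∈ D.H (D.x κ.1)) :
    D.Rep κ c' := by
  refine ⟨?_, h.2.trans ((leftCoset_eq_iff _).2 h')⟩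
  have := D.C.mul_mem h.1 (D.le _ h')
  simpa using this

theorem Rep.g_mul {κ : D.K} {c : G} (h : D.Rep κ c) : D.Rep κ (g * c) := by
  refine h.mul ?_
  rw [← D.comm c h.1, inv_mul_cancel_left]
  exact D.gH _

theorem Rep.g_inv_mul {κ : D.K} {c : G} (h : D.Rep κ c) : D.Rep κ (g⁻¹ * c) := by
  refine h.mul ?_
  have e : g⁻¹ * c = c * g⁻¹ := by
    have := D.comm c h.1
    rw [inv_mul_eq_iff_eq_mul, ← mul_assoc, ← this, mul_inv_cancel_right]
  rw [e, inv_mul_cancel_left]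
  exact (D.H _).inv_mem (D.gH _)

variable (D)

/-- The component `κ` sees `y` within distance `r`. -/
def See (κ : D.K) (r : ℕ) (y : G) : Prop :=
  ∃ c, D.Rep κ c ∧ ∃ u ∈ (S : Set G) ^ r, y = c * D.x κ.1 * u

/-- The cut-off function of a component. -/
noncomputable def phi (κ : D.K) (y : G) : ℝ := (((range R).filter fun r => D.See κ r y).card : ℝ)

theorem see_act {d : G} (hd : d ∈ D.C) (κ : D.K) (r : ℕ) (y : G) :
    D.See (D.act d κ) r (d * y) ↔ D.See κ r y := by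
  constructor
  · rintro ⟨c, hc, u, hu, e⟩
    refine ⟨d⁻¹ * c, hc.act_inv hd, u, hu, ?_⟩
    rw [act_fst] at e
    rw [mul_assoc, mul_assoc, ← mul_assoc c, ← e, inv_mul_cancel_left]
  · rintro ⟨c, hc, u, hu, e⟩
    refine ⟨d * c, hc.act hd, u, hu, ?_⟩
    rw [act_fst, e]
    simp only [mul_assoc]

theorem see_g (κ : D.K) (r : ℕ) (y : G) : D.See κ r (g * y) ↔ D.See κ r y := by
  constructor
  · rintro ⟨c, hc, u, hu, e⟩
    refine ⟨g⁻¹ * c, hc.g_inv_mul, u, hu, ?_⟩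
    rw [mul_assoc, mul_assoc, ← mul_assoc c, ← e, inv_mul_cancel_left]
  · rintro ⟨c, hc, u, hu, e⟩
    refine ⟨g * c, hc.g_mul, u, hu, ?_⟩
    rw [e]
    simp only [mul_assoc]

variable {D}

theorem See.step {κ : D.K} {r : ℕ} {y s : G} (h : D.See κ r y) (hs : s ∈ S) :
    D.See κ (r + 1) (y * s) := by
  obtain ⟨c, hc, u, hu, e⟩ := h
  refine ⟨c, hc, u * s, ?_, by rw [e, mul_assoc _ u s]⟩
  rw [pow_succ]
  exact Set.mul_mem_mul hu (mem_coe.2 hs)

theorem phi_step (κ : D.K) (y : G) {s : G} (hs : s ∈ S) : D.phi κ y ≤ D.phi κ (y * s) + 1 := by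
  have hsub : ((range R).filter fun r => D.See κ r y).image (· + 1) ⊆
      insert R ((range R).filter fun r => D.See κ r (y * s)) := by
    intro r hr
    obtain ⟨r', hr', rfl⟩ := mem_image.1 hr
    obtain ⟨h1, h2⟩ := mem_filter.1 hr'
    rw [mem_range] at h1
    rcases Nat.lt_or_eq_of_le (Nat.succ_le_of_lt h1) with h | h
    · exact mem_insert_of_mem (mem_filter.2 ⟨mem_range.2 h, h2.step hs⟩)
    · exact mem_insert.2 (Or.inl h)
  have h := (card_le_card hsub).trans (card_insert_le _ _)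
  rw [card_image_of_injective _ (add_left_injective 1)] at h
  unfold phi
  exact_mod_cast h

theorem see_of_phi {κ : D.K} {y : G} (h : D.phi κ y ≠ 0) : D.See κ R y := by
  unfold phi at h
  rw [Nat.cast_ne_zero, card_ne_zero] at h
  obtain ⟨r, hr⟩ := h
  obtain ⟨h1, c, hc, u, hu, e⟩ := mem_filter.1 hr
  exact ⟨c, hc, u, mem_pow_mono D.one (mem_range.1 h1).le hu, e⟩

/-- Two elements of `C` placing close points near the same representative differ by `H`. -/
theorem close {z c c' v v' u : G} (hc : c ∈ D.C) (hc' : c' ∈ D.C) (hv : v ∈ (S : Set G) ^ R)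
    (hv' : v' ∈ (S : Set G) ^ R) (hu : u ∈ (S : Set G) ^ r0)
    (e : c * z * v * u = c' * z * v') :
    ∃ b ∈ (S : Set G) ^ (2 * R + r0), c⁻¹ * c' = z * b * z⁻¹ ∧ c⁻¹ * c' ∈ D.H z := by
  have hb : v * u * v'⁻¹ ∈ (S : Set G) ^ (2 * R + r0) := by
    have := mul_mem_pow (mul_mem_pow hv hu) (inv_mem_pow D.inv R v' hv')
    rwa [show R + r0 + R = 2 * R + r0 by ring] at this
  have e' : c⁻¹ * c' = z * (v * u * v'⁻¹) * z⁻¹ := by
    have : c' = c * z * v * u * v'⁻¹ * z⁻¹ := by rw [e]; group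
    rw [this]; group
  refine ⟨_, hb, e', ?_⟩
  rw [e']
  refine D.loc z _ hb ?_
  rw [← e']
  exact D.C.mul_mem (D.C.inv_mem hc) hc'

variable (D)

/-- A choice for the representative of a class. -/
noncomputable def n0 (q p : D.Q) : G :=
  Classical.epsilon fun c => c ∈ D.C ∧ ∃ u ∈ (S : Set G) ^ R, D.x p = c * D.x q * u

/-- The equivariant choice. -/
noncomputable def nn (q : D.Q) (y : G) : G := D.co y * D.n0 q (D.cl y)

theorem nn_mul {c : G} (hc : c ∈ D.C) (q : D.Q) (y : G) : D.nn q (c * y) = c * D.nn q y := by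
  simp only [nn, D.cl_mul hc, D.co_mul hc, mul_assoc]

/-- The base point of a component. -/
noncomputable def base (κ : D.K) : G := Classical.epsilon fun c => D.Rep κ c

/-- The height function of a component. -/
noncomputable def eta (κ : D.K) (y : G) : ℝ := D.chi (D.x κ.1) ((D.base κ)⁻¹ * D.nn κ.1 y)

variable {D}

theorem See.base {κ : D.K} {r : ℕ} {y : G} (h : D.See κ r y) : D.Rep κ (D.base κ) := by
  obtain ⟨c, hc, -⟩ := h
  exact Classical.epsilon_spec (p := fun c => D.Rep κ c) ⟨c, hc⟩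

theorem See.nn {κ : D.K} {y : G} (h : D.See κ R y) :
    D.Rep κ (D.nn κ.1 y) ∧ ∃ u ∈ (S : Set G) ^ R, y = D.nn κ.1 y * D.x κ.1 * u := by
  obtain ⟨c, hc, u, hu, e⟩ := h
  have hex : ∃ c, c ∈ D.C ∧ ∃ u ∈ (S : Set G) ^ R, D.x (D.cl y) = c * D.x κ.1 * u := by
    refine ⟨(D.co y)⁻¹ * c, D.C.mul_mem (D.C.inv_mem (D.co_mem y)) hc.1, u, hu, ?_⟩
    rw [mul_assoc, mul_assoc, ← mul_assoc c, ← e, eq_inv_mul_iff_mul_eq, co_x]
  obtain ⟨h1, u', hu', e'⟩ : D.n0 κ.1 (D.cl y) ∈ D.C ∧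
      ∃ u ∈ (S : Set G) ^ R, D.x (D.cl y) = D.n0 κ.1 (D.cl y) * D.x κ.1 * u :=
    Classical.epsilon_spec hex
  have e2 : y = D.nn κ.1 y * D.x κ.1 * u' := by
    rw [Dt.nn, mul_assoc, mul_assoc, ← mul_assoc (D.n0 _ _), ← e', co_x]
  have hn : D.nn κ.1 y ∈ D.C := D.C.mul_mem (D.co_mem y) h1
  refine ⟨?_, u', hu', e2⟩
  obtain ⟨-, -, -, hH⟩ := close (u := 1) hc.1 hn hu hu' (Set.one_mem_pow (mem_coe.2 D.one))
    (by rw [mul_one, ← e, ← e2])
  exact hc.mul hH

theorem eta_sub {κ : D.K} {y y' : G} (h : D.See κ R y) (h' : D.See κ R y') :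
    D.eta κ y' - D.eta κ y = D.chi (D.x κ.1) ((D.nn κ.1 y)⁻¹ * D.nn κ.1 y') := by
  have e : (D.base κ)⁻¹ * D.nn κ.1 y' =
      ((D.base κ)⁻¹ * D.nn κ.1 y) * ((D.nn κ.1 y)⁻¹ * D.nn κ.1 y') := by group
  unfold eta
  rw [e, D.add _ _ (h.base.mem h.nn.1) _ (h.nn.1.mem h'.nn.1)]
  ring

theorem card_pow_le' (n : ℕ) : (S ^ n).card ≤ S.card ^ n := Finset.card_pow_le

variable (D)

/-- The geometric data. -/
noncomputable def geo : Geo g D.C S R r0 (S.card ^ R) (6 ^ (S.card ^ (2 * R + r0))) where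
  K := D.K
  Q := D.Q
  cls := fun κ => κ.1
  act := D.act
  phi := D.phi
  eta := D.eta
  phi_act := fun c hc κ y => by simp only [phi, D.see_act hc]
  cls_act := fun _ _ _ => rfl
  phi_g := fun κ y => by simp only [phi, D.see_g]
  phi_nonneg := fun κ y => Nat.cast_nonneg _
  phi_le := fun κ y => by
    unfold phi
    exact_mod_cast (card_filter_le _ _).trans (card_range R).le
  phi_lip := fun κ y s hs => by
    have h1 := phi_step κ y hs
    have h2 := phi_step κ (y * s) (D.inv s hs)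
    rw [mul_inv_cancel_right] at h2
    rw [abs_le]
    constructor <;> linarith
  phi_top := fun y => by
    refine ⟨(D.cl y, D.co y • (D.H (D.x (D.cl y)) : Set G)), ?_⟩
    unfold phi
    rw [filter_true_of_mem, card_range]
    intro r _
    exact ⟨D.co y, ⟨D.co_mem y, rfl⟩, 1, Set.one_mem_pow (mem_coe.2 D.one), by
      rw [mul_one, co_x]⟩
  phi_fin := fun y => by
    refine ⟨(S ^ R).image fun u =>
      ((D.cl (y * u⁻¹), D.co (y * u⁻¹) • (D.H (D.x (D.cl (y * u⁻¹))) : Set G)) : D.K),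
      card_image_le.trans (card_pow_le' R), fun κ h => ?_⟩
    obtain ⟨c, hc, u, hu, e⟩ := see_of_phi h
    refine mem_image.2 ⟨u, by rwa [← mem_coe, coe_pow], ?_⟩
    have e1 : y * u⁻¹ = c * D.x κ.1 := by rw [e, mul_inv_cancel_right]
    have e2 : D.cl (c * D.x κ.1) = κ.1 := by rw [D.cl_mul hc.1, cl_x]
    have e3 : D.co (c * D.x κ.1) = c := by rw [co, e2, mul_inv_cancel_right]
    rw [e1, e2, e3, ← hc.2]
    rfl
  deg := fun q => by
    refine ⟨(S ^ R).image fun u => D.x q * u, card_image_le.trans (card_pow_le' R),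
      fun κ y hq h => ?_⟩
    obtain ⟨c, hc, u, hu, e⟩ := see_of_phi h
    refine ⟨c, hc.1, D.x q * u, mem_image.2 ⟨u, by rwa [← mem_coe, coe_pow], rfl⟩, ?_⟩
    rw [e, hq, mul_assoc]
  sep := fun κ κ' y u hu hq h h' => by
    obtain ⟨c, hc, v, hv, e⟩ := see_of_phi h
    obtain ⟨c', hc', v', hv', e'⟩ := see_of_phi h'
    rw [← hq] at e'
    obtain ⟨-, -, -, hH⟩ := close hc.1 hc'.1 hv hv' hu (by rw [← e, ← e'])
    have h3 := (hc.mul hH).2
    have h4 := hc'.2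
    rw [← hq] at h4
    exact Prod.ext hq (h3.trans h4.symm)
  eta_g := fun κ y h => by
    have hs := see_of_phi h
    have hs' := (D.see_g κ R y).2 hs
    have e := eta_sub hs hs'
    rw [D.nn_mul (D.le 1 (D.gH 1)), ← D.comm _ hs.nn.1.1, inv_mul_cancel_left, D.chi_g] at e
    linarith
  eta_act := fun c hc κ y y' h h' => by
    have hs := see_of_phi h
    have hs' := see_of_phi h'
    rw [eta_sub ((D.see_act hc κ R y').2 hs') ((D.see_act hc κ R y).2 hs), eta_sub hs' hs,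
      act_fst, D.nn_mul hc, D.nn_mul hc]
    congr 1
    group
  dir := fun P => by
    have key : ∀ q : D.Q, ∃ i : ℕ, 1 ≤ i ∧ i ≤ 6 ^ (S.card ^ (2 * R + r0)) ∧
        ∀ b ∈ S ^ (2 * R + r0), ∃ n : ℤ,
          |(i : ℝ) * (-(P * D.chi (D.x q) (D.x q * b * (D.x q)⁻¹))) - n| ≤ 1 / 6 := fun q =>
      dirichlet _ _ _ (card_pow_le' _)
    choose i hi1 hi2 hi3 using key
    refine ⟨i, fun q => ⟨hi1 q, hi2 q, fun κ y u hu hq h h' => ?_⟩⟩
    have hs := see_of_phi h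
    have hs' := see_of_phi h'
    obtain ⟨r1, v, hv, e⟩ := hs.nn
    obtain ⟨r2, v', hv', e'⟩ := hs'.nn
    obtain ⟨b, hb, eb, -⟩ := close r1.1 r2.1 hv hv' hu (by rw [← e, ← e'])
    obtain ⟨n, hn⟩ := hi3 q b (by rwa [← mem_coe, coe_pow])
    refine ⟨n, ?_⟩
    have e3 := eta_sub hs hs'
    rw [eb, hq] at e3
    rw [← e3] at hn
    convert hn using 2
    ring

end Dt

end GeoAux

theorem exists_geo {G : Type} [Group G] (g : G) (S : Finset G) (h1 : (1 : G) ∈ S)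
    (hS : ∀ s ∈ S, s⁻¹ ∈ S) (H : HypH g) (R r0 : ℕ) :
    ∃ C : Subgroup G, g ∈ C ∧ (∀ c ∈ C, c * g = g * c) ∧
      C.relIndex (Subgroup.centralizer {g}) ≠ 0 ∧
      Nonempty (Geo g C S R r0 (S.card ^ R) (6 ^ (S.card ^ (2 * R + r0)))) := by
  obtain ⟨C, hg, hc, hi, hx⟩ := H (S ^ (2 * R + r0))
  choose HH χ h2 h3 h4 h5 h6 using hx
  let D : GeoAux.Dt g S R r0 :=
    { C := C, H := HH, chi := χ, one := h1, inv := hS, comm := hc, le := h2, gH := h3,
      chi_g := h4, add := h5,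
      loc := fun x b hb => h6 x b (by rwa [← mem_coe, coe_pow]) }
  exact ⟨C, hg, hc, hi, ⟨D.geo⟩⟩

end Pool.Agent.Lib.MP_7903c7_al.RF
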