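import Pool.Agent.Lib.MP_7903c7_al.RF.Defs

set_option autoImplicit false

/-!
Two sufficient conditions for the hypothesis `HypH`.
-/

namespace Pool.Agent.Lib.MP_7903c7_al.RF

open Finset
open scoped Classical Pointwise commutatorElement

namespace Cor

/-- An element of infinite order of a commutative group is sent to one by a real character. -/
theorem ext_char {A : Type} [CommGroup A] (a : A) (ha : orderOf a = 0) :
    ∃ χ : A → ℝ, χ a = 1 ∧ ∀ x y, χ (x * y) = χ x + χ y := by
  have hinj : Function.Injective (zmultiplesHom (Additive A) (Additive.ofMul a)) := by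
    intro m n h
    have h' : a ^ m = a ^ n := by
      simpa [zmultiplesHom_apply, ← ofMul_zpow] using h
    exact (injective_zpow_iff_not_isOfFinOrder.2 (orderOf_eq_zero_iff.1 ha)) h'
  obtain ⟨h, hh⟩ := (Module.Baer.of_divisible ℝ).extension_property_addMonoidHom
    (zmultiplesHom (Additive A) (Additive.ofMul a)) hinj (Int.castAddHom ℝ)
  refine ⟨fun x => h (Additive.ofMul x), ?_, fun x y => by simp [ofMul_mul]⟩
  have := DFunLike.congr_fun hh 1
  simpa using this

variable {G : Type} [Group G]

theorem char_of_ab (H : Subgroup G) (g : G) (hgH : g ∈ H)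
    (hg : ∀ m : ℕ, 0 < m → g ^ m ∉ ⁅H, H⁆) :
    ∃ χ : G → ℝ, χ g = 1 ∧ ∀ a ∈ H, ∀ b ∈ H, χ (a * b) = χ a + χ b := by
  have ho : orderOf (Abelianization.of (⟨g, hgH⟩ : H)) = 0 := by
    rw [orderOf_eq_zero_iff']
    intro m hm h
    rw [← map_pow, ← MonoidHom.mem_ker, Abelianization.ker_of] at h
    apply hg m hm
    rw [← Subgroup.map_subtype_commutator]
    exact ⟨_, h, rfl⟩
  obtain ⟨χ, h1, h2⟩ := ext_char _ ho
  refine ⟨fun y => if h : y ∈ H then χ (Abelianization.of (⟨y, h⟩ : H)) else 0, ?_, ?_⟩
  · simp only [dif_pos hgH, h1]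
  · intro a ha b hb
    simp only [dif_pos ha, dif_pos hb, dif_pos (H.mul_mem ha hb)]
    rw [← h2, ← map_mul]
    rfl

theorem comm_closure {Q : Type} [Group Q] (π : G →* Q) (s : Set G)
    (h1 : ∀ a ∈ s, ∀ b ∈ s, Commute (π a) (π b)) :
    ∀ a ∈ Subgroup.closure s, ∀ b ∈ Subgroup.closure s, Commute (π a) (π b) := by
  have h2 : ∀ a ∈ s, ∀ b ∈ Subgroup.closure s, Commute (π a) (π b) := by
    intro a ha b hb
    induction hb using Subgroup.closure_induction with
    | mem x hx => exact h1 a ha x hx
    | one => simp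
    | mul x y _ _ hx hy => rw [map_mul]; exact hx.mul_right hy
    | inv x _ hx => rw [map_inv]; exact hx.inv_right
  intro a ha b hb
  induction ha using Subgroup.closure_induction with
  | mem x hx => exact h2 x hx b hb
  | one => simp
  | mul x y _ _ hx hy => rw [map_mul]; exact hx.mul_left hy
  | inv x _ hx => rw [map_inv]; exact hx.inv_left

/-- A normal subgroup of finite index that misses finitely many nontrivial elements. -/
theorem exists_normal {Q : Type} [Group Q] [Group.ResiduallyFinite Q] (F : Finset Q) :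
    ∃ N : Subgroup Q, N.Normal ∧ N.FiniteIndex ∧ ∀ y ∈ F, y ∈ N → y = 1 := by
  induction F using Finset.induction_on with
  | empty => exact ⟨⊤, inferInstance, inferInstance, by simp⟩
  | insert y F _ ih =>
    obtain ⟨N, hN, hF, h⟩ := ih
    by_cases hy : y = 1
    · refine ⟨N, hN, hF, fun z hz hzN => ?_⟩
      rcases Finset.mem_insert.1 hz with rfl | hz
      · exact hy
      · exact h z hz hzN
    · obtain ⟨M, hM⟩ := Group.exists_finiteIndexNormalSubgroup_notMem y hy
      haveI := M.isNormal'
      haveI := M.isFiniteIndex'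
      refine ⟨N ⊓ M.toSubgroup, inferInstance, inferInstance, fun z hz hzN => ?_⟩
      rcases Finset.mem_insert.1 hz with rfl | hz
      · exact absurd hzN.2 hM
      · exact h z hz hzN.1

end Cor

section C
variable {G : Type} [Group G]

theorem hypH_of_quot {Q : Type} [Group Q] [Group.ResiduallyFinite Q] (π : G →* Q) (g : G)
    (hg : orderOf (π g) = 0) : HypH g := by
  intro B
  obtain ⟨N, hN, hF, h⟩ := Cor.exists_normal ((B ×ˢ B).image fun z => ⁅π z.1, π z.2⁆)
  let φ : G →* Q ⧸ N := (QuotientGroup.mk' N).comp π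
  let D : Subgroup G := (Subgroup.zpowers (φ g)).comap φ
  haveI : Finite (Q ⧸ N) := Subgroup.finite_quotient_of_finiteIndex
  haveI : D.FiniteIndex := by
    refine ⟨?_⟩
    rw [Subgroup.index_comap]
    exact Subgroup.FiniteIndex.index_ne_zero
  let C : Subgroup G := D ⊓ Subgroup.centralizer {g}
  have hgC : g ∈ C := ⟨Subgroup.mem_zpowers _, Subgroup.mem_centralizer_singleton_iff.2 rfl⟩
  have hcomm : ∀ c ∈ C, c * g = g * c := fun c hc =>
    Subgroup.mem_centralizer_singleton_iff.1 hc.2
  refine ⟨C, hgC, hcomm, ?_, fun x => ?_⟩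
  · rw [Subgroup.inf_relIndex_right]
    exact Subgroup.FiniteIndex.index_ne_zero
  · let s : Set G := {y | y = g ∨ (y ∈ C ∧ ∃ b ∈ B, y = x * b * x⁻¹)}
    have hsC : Subgroup.closure s ≤ C := by
      rw [Subgroup.closure_le]
      rintro y (rfl | hy)
      · exact hgC
      · exact hy.1
    have h1 : ∀ a ∈ s, ∀ b ∈ s, Commute (π a) (π b) := by
      rintro a (rfl | ⟨ha, b1, hb1, ea⟩) b hb
      · exact Commute.map (hcomm b (hsC (Subgroup.subset_closure hb))).symm π
      · rcases hb with rfl | ⟨hb, b2, hb2, eb⟩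
        · exact Commute.map (hcomm a ha) π
        · have hc : Commute (φ a) (φ b) := by
            obtain ⟨i, hi⟩ := Subgroup.mem_zpowers_iff.1 ha.1
            obtain ⟨j, hj⟩ := Subgroup.mem_zpowers_iff.1 hb.1
            rw [← hi, ← hj]
            exact Commute.zpow_zpow_self _ _ _
          have e : ⁅π a, π b⁆ = π x * ⁅π b1, π b2⁆ * (π x)⁻¹ := by
            rw [ea, eb]
            simp only [commutatorElement_def, map_mul, map_inv]
            group
          have hm : ⁅π a, π b⁆ ∈ N := by
            rw [← QuotientGroup.eq_one_iff, ← QuotientGroup.mk'_apply, map_commutatorElement]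
            exact commutatorElement_eq_one_iff_commute.2 hc
          have hm2 : ⁅π b1, π b2⁆ ∈ N := by
            have := hN.conj_mem _ hm (π x)⁻¹
            rw [e] at this
            simpa [mul_assoc] using this
          have h0 := h _ (Finset.mem_image.2 ⟨(b1, b2), Finset.mem_product.2 ⟨hb1, hb2⟩, rfl⟩) hm2
          rw [← commutatorElement_eq_one_iff_commute, e]
          simp only at h0
          rw [h0]; simp
    have h3 := Cor.comm_closure π s h1
    have hgs : g ∈ Subgroup.closure s := Subgroup.subset_closure (Or.inl rfl)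
    have hk : ⁅Subgroup.closure s, Subgroup.closure s⁆ ≤ π.ker := by
      rw [Subgroup.commutator_le]
      intro a ha b hb
      rw [MonoidHom.mem_ker, map_commutatorElement]
      exact commutatorElement_eq_one_iff_commute.2 (h3 a ha b hb)
    obtain ⟨χ, hχ1, hχ2⟩ := Cor.char_of_ab (Subgroup.closure s) g hgs fun m hm hmem => by
      have := hk hmem
      rw [MonoidHom.mem_ker, map_pow] at this
      exact orderOf_eq_zero_iff'.1 hg m hm this
    exact ⟨Subgroup.closure s, χ, hsC, hgs, hχ1, hχ2, fun b hb hbC =>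
      Subgroup.subset_closure (Or.inr ⟨hbC, b, hb, rfl⟩)⟩

theorem hypH_of_ab (g : G)
    (hg : ∀ m : ℕ, 0 < m →
      g ^ m ∉ ⁅Subgroup.centralizer ({g} : Set G), Subgroup.centralizer ({g} : Set G)⁆) :
    HypH g := by
  intro B
  have hgC : g ∈ Subgroup.centralizer ({g} : Set G) :=
    Subgroup.mem_centralizer_singleton_iff.2 rfl
  obtain ⟨χ, h1, h2⟩ := Cor.char_of_ab _ g hgC hg
  refine ⟨Subgroup.centralizer {g}, hgC,
    fun c hc => Subgroup.mem_centralizer_singleton_iff.1 hc, by simp, fun x => ?_⟩
  exact ⟨Subgroup.centralizer {g}, χ, le_rfl, hgC, h1, h2, fun _ _ h => h⟩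

end C

end Pool.Agent.Lib.MP_7903c7_al.RF
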