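import Pool.Agent.Lib.MP_7903c7_al.RF.Abc

set_option autoImplicit false

/-!
From a cover of the good loops by circle valued functions to the vanishing of the trace.
-/

namespace Pool.Agent.Lib.MP_7903c7_al.RF

open Finset
open scoped Classical Pointwise

namespace Abc2

variable {G : Type} [Group G] {g : G} {C : Subgroup G} {N : ℕ}

theorem loop_sub {γ : ℤ → G} (h : IsLoop g N γ) (n : ℤ) : IsLoop g N fun t => γ (t - n) :=
  fun t => by
    show γ (t + N - n) = g * γ (t - n)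
    rw [← h, add_sub_right_comm]

theorem loop_mul {γ : ℤ → G} (h : IsLoop g N γ) {c : G} (hc : c * g = g * c) :
    IsLoop g N fun t => c * γ t := fun t => by
  show c * γ (t + N) = g * (c * γ t)
  rw [h, ← mul_assoc, hc, mul_assoc]

theorem loop_std (g : G) (hN : 0 < N) : IsLoop g N fun t => g ^ (t / (N : ℤ)) := fun t => by
  show g ^ ((t + N) / (N : ℤ)) = g * g ^ (t / (N : ℤ))
  have e : (t + N) / (N : ℤ) = 1 + t / (N : ℤ) := by
    have := Int.add_mul_ediv_right t 1 (c := (N : ℤ)) (by omega)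
    rw [one_mul] at this
    omega
  rw [e, zpow_add, zpow_one]

/-- The rotation of the classes of loops. -/
def rot (g : G) (C : Subgroup G) (N : ℕ) : Quotient (lpS g C N) → Quotient (lpS g C N) :=
  Quotient.map (fun x => ⟨fun t => x.1 (t - 1), loop_sub x.2 1⟩)
    fun _ _ ⟨c, hc, h⟩ => ⟨c, hc, fun i => h (i - 1)⟩

theorem rot_iter (n : ℕ) (x : {x : ℤ → G // IsLoop g N x}) :
    (rot g C N)^[n] (Quotient.mk _ x) =
      Quotient.mk _ ⟨fun t => x.1 (t - n), loop_sub x.2 n⟩ := by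
  induction n with
  | zero => simp
  | succ n ih =>
    rw [Function.iterate_succ_apply', ih]
    refine Quotient.sound ⟨1, C.one_mem, fun i => ?_⟩
    show x.1 (i - ((n + 1 : ℕ) : ℤ)) = 1 * x.1 (i - 1 - n)
    rw [one_mul, Nat.cast_succ, sub_sub, add_comm]

theorem rot_period (hg : g ∈ C) (v : Quotient (lpS g C N)) : (rot g C N)^[N] v = v := by
  induction v using Quotient.inductionOn with
  | h x =>
    rw [rot_iter]
    refine Quotient.sound ⟨g, hg, fun i => ?_⟩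
    show x.1 i = g * x.1 (i - N)
    rw [← x.2, sub_add_cancel]

/-- The class of a loop. -/
noncomputable def cl (g : G) (C : Subgroup G) {N : ℕ} (hN : 0 < N) (γ : ℤ → G) :
    Quotient (lpS g C N) :=
  if h : IsLoop g N γ then Quotient.mk _ ⟨γ, h⟩ else Quotient.mk _ ⟨_, loop_std g hN⟩

theorem cl_eq (hN : 0 < N) {γ : ℤ → G} (h : IsLoop g N γ) :
    cl g C hN γ = Quotient.mk _ ⟨γ, h⟩ := dif_pos h

theorem out_eq {w : (ℤ → G) → ℤ} {F : (ℤ → G) → ℂ} (hE : Equi g C N w F)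
    (x : {x : ℤ → G // IsLoop g N x}) :
    w (Quotient.mk (lpS g C N) x).out.1 = w x.1 ∧ F (Quotient.mk (lpS g C N) x).out.1 = F x.1 := by
  obtain ⟨c, hc, h⟩ : (lpS g C N).r x (Quotient.mk (lpS g C N) x).out :=
    Quotient.exact (Quotient.out_eq _).symm
  rw [funext h]
  exact (hE x.1 x.2).1 c hc

end Abc2

open Abc2

variable {G I Λ : Type} [Group G] [Fintype I] [DecidableEq I] [CommRing Λ]

theorem abc_cover (d : Dat G I Λ) (S : Finset G) (h1 : (1 : G) ∈ S) {p J : ℕ} (hp : p.Prime)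
    (hJ : (p : Λ) ^ J = 0)
    (hfil : ∀ h j, h ∉ (S : Set G) ^ (2 * j + 1) →
      ∀ i i', ∃ y, d.E h i i' = (p : Λ) ^ (j + 1) * y)
    (N L : ℕ) (hN0 : 0 < N) (hN : (N : Λ) = 0) {ι : Type}
    (s : Finset ι) (a : ι → ℕ) (w : ι → (ℤ → G) → ℤ) (F : ι → (ℤ → G) → ℂ)
    (hL : 2 * J + (4 * s.card + 1) ≤ L)
    (hw : ∀ i ∈ s, ∀ γ, ¬ (p : ℤ) ^ (a i + 1) ∣ w i γ)
    (hE : ∀ i ∈ s, Equi d.g d.C N (w i) (F i))
    (hcov : ∀ γ, Good d.g S N L γ → ∃ i ∈ s, Fine d.g S N L (4 * s.card + 1) (w i) (F i) γ) :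
    (p : Λ) ^ (∑ i ∈ s, a i) *
      ((d.C.relIndex (Subgroup.centralizer {d.g}) : Λ) * d.tr) = 0 := by
  have key : ∀ i ∈ s, ∀ v : Quotient (lpS d.g d.C N),
      w i (rot d.g d.C N v).out.1 = w i v.out.1 ∧
        F i (rot d.g d.C N v).out.1 = ee ((w i v.out.1 : ℝ) / N) * F i v.out.1 := by
    intro i hi v
    induction v using Quotient.inductionOn with
    | h x =>
      have e1 := out_eq (hE i hi) x
      have e2 := out_eq (hE i hi) ⟨fun t => x.1 (t - 1), loop_sub x.2 1⟩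
      have e3 := (hE i hi x.1 x.2).2
      rw [e1.1, e1.2]
      exact ⟨e2.1.trans e3.1, e2.2.trans e3.2⟩
  refine abc d S h1 hp hJ hfil N hN0 hN (rot d.g d.C N) (rot_period d.gC) s a
    (fun i v => w i v.out.1) (fun i v => F i v.out.1) (fun i hi v => hw i hi _)
    (fun i hi v => (key i hi v).1) (fun i hi v => (key i hi v).2)
    (fun l => Finsupp.single (l.map (cl d.g d.C hN0)) 1) (fun l hl c hc => ?_) (fun l hl => ?_)
    (fun l _ j _ _ => ?_) (fun l _ l' hl' => ?_) (fun γ _ => ?_) (fun l hne hG hn l' hl' => ?_)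
  · rw [List.map_map]
    refine congrArg (Finsupp.single · (1 : Λ)) (List.map_congr_left fun γ hγ => ?_)
    rw [Function.comp_apply, cl_eq hN0 (hl γ hγ), cl_eq hN0 (loop_mul (hl γ hγ) (d.comm c hc))]
    symm
    exact Quotient.sound ⟨c, hc, fun _ => rfl⟩
  · rw [Finsupp.mapDomain_single, List.map_map, List.map_map]
    refine congrArg (Finsupp.single · (1 : Λ)) (List.map_congr_left fun γ hγ => ?_)
    rw [Function.comp_apply, Function.comp_apply, cl_eq hN0 (hl γ hγ),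
      cl_eq hN0 (loop_sub (hl γ hγ) 1)]
    rfl
  · rw [Finsupp.mapDomain_single, List.eraseIdx_map]
  · rw [Finset.mem_singleton.1 (Finsupp.support_single_subset hl'), List.length_map]
  · simp [eps]
  · rw [Finset.mem_singleton.1 (Finsupp.support_single_subset hl')]
    have good : ∀ γ ∈ l, Good d.g S N L γ := fun γ hγ => by
      obtain ⟨k1, ℓ, k2, k3, k4⟩ := hG γ hγ
      exact ⟨k1, ℓ, k2, k3, k4.trans hL⟩
    obtain ⟨γ0, h0⟩ := List.exists_mem_of_ne_nil l hne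
    obtain ⟨i, hi, hf⟩ := hcov γ0 (good γ0 h0)
    refine ⟨i, hi, fun v hv v' hv' => ?_⟩
    obtain ⟨γ, hγ, rfl⟩ := List.mem_map.1 hv
    obtain ⟨γ', hγ', rfl⟩ := List.mem_map.1 hv'
    have e1 := out_eq (hE i hi) ⟨γ, (good γ hγ).1⟩
    have e2 := out_eq (hE i hi) ⟨γ', (good γ' hγ').1⟩
    rw [cl_eq hN0 (good γ hγ).1, cl_eq hN0 (good γ' hγ').1, e1.1, e1.2, e2.1, e2.2]
    exact hf γ γ' (good γ hγ) (good γ' hγ') (hn γ0 h0 γ hγ) (hn γ0 h0 γ' hγ')

end Pool.Agent.Lib.MP_7903c7_al.RF
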