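import Pool.Agent.Lib.MP_7903c7_al.RF.Lift
import Pool.Agent.Lib.MP_7903c7_al.RF.Geo
import Pool.Agent.Lib.MP_7903c7_al.RF.Abc2
import Pool.Agent.Lib.MP_7903c7_al.RF.Sys1
import Pool.Agent.Lib.MP_7903c7_al.RF.Sys3

set_option autoImplicit false

namespace Pool.Agent.Lib.MP_7903c7_al.RF

open Finset
open scoped Classical Pointwise

lemma Main.sum_val {p : ℕ} [Fact p.Prime] (M : ℕ) :
    ∑ j ∈ Icc (-(M : ℤ)) M, padicValNat p j.natAbs ≤ 2 * M := by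
  suffices h : ∑ j ∈ Icc (-(M : ℤ)) M, padicValNat p j.natAbs = 2 * padicValNat p M.factorial by
    have := padicValNat_factorial_le (p := p) M
    omega
  induction M with
  | zero => simp
  | succ M ih =>
    have : Icc (-((M + 1 : ℕ) : ℤ)) (M + 1 : ℕ) =
        insert ((M + 1 : ℕ) : ℤ) (insert (-((M + 1 : ℕ) : ℤ)) (Icc (-(M : ℤ)) M)) := by
      ext j; simp only [mem_Icc, mem_insert]; omega
    rw [this, sum_insert (by simp only [mem_Icc, mem_insert]; omega),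
      sum_insert (by simp only [mem_Icc]; omega), ih, Int.natAbs_neg, Int.natAbs_natCast,
      Nat.factorial_succ, padicValNat.mul (by omega) (Nat.factorial_ne_zero M)]
    ring

lemma Main.not_dvd {p : ℕ} [Fact p.Prime] {j : ℤ} (hj : j ≠ 0) :
    ¬ (p : ℤ) ^ (padicValNat p j.natAbs + 1) ∣ j := fun h =>
  pow_succ_padicValNat_not_dvd (p := p) (Int.natAbs_ne_zero.2 hj) (by
    simpa using Int.natAbs_dvd_natAbs.2 h)

lemma Main.not_dvd3 {p : ℕ} [hp : Fact p.Prime] {i I0 M : ℕ} (h1 : 1 ≤ i) (h2 : i ≤ I0) {j : ℤ}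
    (hj : j ∈ Icc (-(M : ℤ)) M) :
    ¬ (p : ℤ) ^ (padicValNat p j.natAbs + (if j = 0 then M + I0 else 0) + 1) ∣
      i * (p : ℤ) ^ M - j := by
  intro h
  split_ifs at h with h0
  · subst h0
    simp only [Int.natAbs_zero, padicValNat_zero_right, zero_add, sub_zero] at h
    rw [add_assoc, pow_add, mul_comm (i : ℤ), mul_dvd_mul_iff_left
      (pow_ne_zero _ (by exact_mod_cast hp.out.ne_zero))] at h
    have h3 := Nat.le_of_dvd h1 (by exact_mod_cast h : p ^ (I0 + 1) ∣ i)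
    have h4 := Nat.lt_pow_self (n := I0 + 1) hp.out.one_lt
    omega
  · rw [add_zero] at h
    have h3 : padicValNat p j.natAbs < M := by
      have h4 := Nat.le_of_dvd (Int.natAbs_pos.2 h0) (pow_padicValNat_dvd (p := p))
      have h5 := Nat.lt_pow_self (n := padicValNat p j.natAbs) hp.out.one_lt
      rw [mem_Icc] at hj
      omega
    exact Main.not_dvd h0 (by
      simpa using dvd_sub ((pow_dvd_pow (p : ℤ) (Nat.succ_le_of_lt h3)).mul_left i) h)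

theorem core {G I k : Type} [Group G] [Fintype I] [DecidableEq I] [Field k] [IsAlgClosed k]
    {p : ℕ} (hp : p.Prime) [CharP k p] {A : Matrix I I (MonoidAlgebra k G)} (hA : A * A = A)
    {g : G} (H : HypH g) : tau (fun h => IsConj h g) A = 0 := by
  have := Fact.mk hp
  obtain ⟨S, h1, hS, hl⟩ := lift hp hA g
  obtain ⟨n, hn, -, H1⟩ := sys1 S.card (card_pos.2 ⟨1, h1⟩) (1 / 200000) (by norm_num)
  have hT : 0 < n ^ 3 := by positivity
  obtain ⟨Δ, hΔ⟩ : ∃ Δ, Δ = S.card ^ (4 * n ^ 3) := ⟨_, rfl⟩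
  obtain ⟨T2, hT2⟩ : ∃ T2, T2 = (64 * Δ + 1) * (600 * 64 ^ 2) := ⟨_, rfl⟩
  have hT2' : 0 < T2 := by rw [hT2]; positivity
  obtain ⟨r0, hr0⟩ : ∃ r0, r0 = 4 * n ^ 3 + 864 * 64 ^ 4 * T2 := ⟨_, rfl⟩
  obtain ⟨C, hg, hc, hi, ⟨X⟩⟩ := exists_geo g S h1 hS H (4 * n ^ 3) r0
  rw [← hΔ] at X
  generalize 6 ^ S.card ^ (2 * (4 * n ^ 3) + r0) = I0 at X
  obtain ⟨v, ix, hix, hv⟩ := Nat.exists_eq_pow_mul_and_not_dvd hi p hp.ne_one
  obtain ⟨x, hx⟩ : ∃ x, x = (64 * Δ + 1) * I0 + v + 4 * n ^ 3 + 1 := ⟨_, rfl⟩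
  obtain ⟨n1, hn1⟩ : ∃ n1, n1 = T2 * x := ⟨_, rfl⟩
  have hxn : x ≤ n1 := hn1 ▸ Nat.le_mul_of_pos_left x hT2'
  obtain ⟨M3, hM3⟩ : ∃ M3, M3 + 1 = 600 * 64 ^ 2 * x := ⟨600 * 64 ^ 2 * x - 1, by omega⟩
  have hK : (64 * Δ + 1) * (M3 + 1) = n1 := by rw [hM3, hn1, hT2]; ring
  have hT2M : T2 * (M3 + 1) = 6 * 64 ^ 2 * (100 * n1) := by rw [hM3, hn1]; ring
  let s : Finset (ℤ ⊕ ℕ × ℤ) :=
    (Icc (1 : ℤ) (2 * n1 - 1)).disjSum (range (64 * Δ + 1) ×ˢ Icc (-(M3 : ℤ)) M3)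
  have hs : s.card ≤ 4 * n1 := by
    rw [card_disjSum, card_product, card_range, Int.card_Icc, Int.card_Icc,
      show (M3 + 1 - -M3 : ℤ).toNat = 2 * M3 + 1 by omega]
    have : (64 * Δ + 1) * (2 * M3 + 1) ≤ 2 * n1 := by rw [← hK]; nlinarith
    omega
  obtain ⟨Λ, _, E, U, hJ, hU, hE, hfil, hfin⟩ := hl (40 * n1) (by omega)
  obtain ⟨a1, H1⟩ := H1 G g C S r0 Δ I0 X h1 hS Nat.lt_two_pow_self.le
    (by rw [hΔ, pow_mul 2]; exact Nat.pow_le_pow_left Nat.lt_two_pow_self.le _) hc hi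
    (100 * n1) n1 (4 * s.card + 1) (by omega) (by push_cast; linarith)
  obtain ⟨a3, H3⟩ := sys3 g C S (n ^ 3) T2 r0 Δ I0 X h1 hS hT hT2' (by omega) (by omega) hc hi
    (100 * n1) M3 (4 * s.card + 1) ((p : ℤ) ^ M3) (by omega) hT2M.ge (by omega)
  obtain ⟨n0, hn0⟩ : ∃ n0, n0 = p ^ (40 * n1) * (a1 + a3 + 1) := ⟨_, rfl⟩
  have hn0' : a1 + a3 + 1 ≤ n0 := hn0 ▸ Nat.le_mul_of_pos_left _ (pow_pos hp.pos _)
  obtain ⟨F1, hF1, hc1⟩ := H1 n0 (by omega)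
  obtain ⟨i, F3, hi3, hF3, hc3⟩ := H3 n0 (by omega)
  let a : ℤ ⊕ ℕ × ℤ → ℕ := Sum.elim (fun j => padicValNat p j.natAbs)
    fun q => padicValNat p q.2.natAbs + if q.2 = 0 then M3 + I0 else 0
  have ha : ∑ j ∈ s, a j ≤ 7 * n1 + (64 * Δ + 1) * I0 := by
    have e1 : ∑ j ∈ Icc (1 : ℤ) (2 * n1 - 1), padicValNat p j.natAbs ≤ 2 * (2 * n1) :=
      (sum_le_sum_of_subset (Icc_subset_Icc (by omega) (by omega))).trans (Main.sum_val _)
    have e2 := Main.sum_val (p := p) M3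
    rw [sum_disjSum, sum_product]
    simp only [a, Sum.elim_inl, Sum.elim_inr, sum_add_distrib, sum_ite_eq', sum_const, card_range,
      smul_eq_mul, mem_Icc, Left.neg_nonpos_iff, Nat.cast_nonneg, and_self, if_true]
    nlinarith [Nat.mul_le_mul_left (64 * Δ + 1) e2]
  have key := abc_cover (⟨g, C, E, U, hg, hc, hi, hU, hE⟩ : Dat G I Λ) S h1 hp hJ hfil
    (100 * n1 * n0) (100 * n1) (Nat.mul_pos (by omega) (by omega))
    (by rw [hn0]; push_cast; rw [hJ]; ring) s a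
    (Sum.elim (fun j _ => j) fun q γ => i q.1 γ * (p : ℤ) ^ M3 - q.2) (Sum.elim F1 F3) (by omega)
    (by
      rintro (j | ⟨b, j⟩) hj γ
      · rw [inl_mem_disjSum, mem_Icc] at hj
        exact Main.not_dvd (j := j) (by omega)
      · rw [inr_mem_disjSum, mem_product] at hj
        exact Main.not_dvd3 (hi3 b γ).1 (hi3 b γ).2 hj.2)
    (by
      rintro (j | ⟨b, j⟩) -
      · exact hF1 j
      · exact hF3 b j)
    (fun γ hγ => by
      by_cases hpers : ∀ κ, pers (Fw n0 (n ^ 3) fun t => X.phi κ (γ t)) ≤ (n : ℝ) ^ 6 / 8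
      · obtain ⟨j, hj, hf⟩ := hc1 γ hγ hpers
        exact ⟨.inl j, inl_mem_disjSum.2 hj, hf⟩
      · push Not at hpers
        obtain ⟨b, hb, j, hj, hf⟩ := hc3 γ hγ (hpers.imp fun κ h => by
          push_cast; rwa [← pow_mul])
        exact ⟨.inr (b, j), inr_mem_disjSum.2 (mem_product.2
          ⟨mem_range.2 (by omega), mem_Icc.2 (abs_le.1 hj)⟩), hf⟩)
  refine hfin (∑ j ∈ s, a j + v) ix (by omega) hix ?_
  rw [← key]
  simp only [Dat.tr, hv]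
  push_cast
  ring

end Pool.Agent.Lib.MP_7903c7_al.RF
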