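import Pool.Agent.Lib.MP_7903c7_al.RF.Cover

set_option autoImplicit false

namespace Pool.Agent.Lib.MP_7903c7_al.RF

open Finset
open scoped Classical Pointwise

variable {G : Type} [Group G]

theorem comm_of_hypH {g : G} (H : HypH g) (B : Finset G) :
    ∃ C : Subgroup G, g ∈ C ∧ C ≤ Subgroup.centralizer {g} ∧
      C.relIndex (Subgroup.centralizer {g}) ≠ 0 ∧ ∀ (x : G) (m : ℕ), 0 < m →
        g ^ m ∉ ⁅Subgroup.closure (insert g {c | c ∈ C ∧ x⁻¹ * c * x ∈ B}),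
          Subgroup.closure (insert g {c | c ∈ C ∧ x⁻¹ * c * x ∈ B})⁆ := by
  obtain ⟨C, h1, h2, h3, h4⟩ := H B
  refine ⟨C, h1, fun c hc => Subgroup.mem_centralizer_singleton_iff.2 (h2 c hc), h3,
    fun x m hm hmem => ?_⟩
  obtain ⟨K, χ, -, k2, k3, k4, k5⟩ := h4 x
  let f : K →* Multiplicative ℝ := MonoidHom.mk' (fun y => Multiplicative.ofAdd (χ y))
    fun a b => by simp [k4 _ a.2 _ b.2, ofAdd_add]
  have hle : Subgroup.closure (insert g {c | c ∈ C ∧ x⁻¹ * c * x ∈ B}) ≤ K := by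
    rw [Subgroup.closure_le]
    rintro y (rfl | ⟨hy, hb⟩)
    · exact k2
    · have := k5 _ hb (by simpa [mul_assoc] using hy)
      simpa [mul_assoc] using this
  have h5 := Subgroup.commutator_mono hle hle hmem
  rw [← Subgroup.map_subtype_commutator] at h5
  obtain ⟨y, hy, e⟩ := h5
  have h6 : f y = 1 := Abelianization.commutator_subset_ker f hy
  have h7 : y = (⟨g, k2⟩ : K) ^ m := Subtype.ext e
  rw [h7, map_pow] at h6
  have h8 := congrArg Multiplicative.toAdd h6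
  simp [f, k3] at h8
  exact hm.ne' h8

theorem loc_of_lef
    (H : ∀ B : Finset G, ∃ (F : Type) (_ : Group F) (_ : Finite F) (φ : G → F),
      (∀ a ∈ B, ∀ b ∈ B, φ (a * b) = φ a * φ b) ∧ Set.InjOn φ B)
    {g : G} (h0 : orderOf g = 0) (B₀ : Finset G) : ∃ (Q : Type) (_ : Group Q) (φ : G → Q),
      (∀ a ∈ B₀, ∀ b ∈ B₀, φ (a * b) = φ a * φ b) ∧
      ∀ B : Finset Q, ∃ C : Subgroup Q, φ g ∈ C ∧ C ≤ Subgroup.centralizer {φ g} ∧
        C.relIndex (Subgroup.centralizer {φ g}) ≠ 0 ∧ ∀ (x : Q) (m : ℕ), 0 < m →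
          φ g ^ m ∉ ⁅Subgroup.closure (insert (φ g) {c | c ∈ C ∧ x⁻¹ * c * x ∈ B}),
            Subgroup.closure (insert (φ g) {c | c ∈ C ∧ x⁻¹ * c * x ∈ B})⁆ := by
  choose F i1 i2 φ h1 h2 using fun m : ℕ => H (B₀ ∪ (range (m + 2)).image (g ^ ·))
  have : Group.ResiduallyFinite (∀ m, F m) :=
    Group.residuallyFinite_of_forall_exists_finite_monoidHom.{0} fun y hy => by
      obtain ⟨m, hm⟩ := Function.ne_iff.mp hy
      exact ⟨F m, i1 m, i2 m, Pi.evalMonoidHom F m, hm⟩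
  refine ⟨∀ m, F m, inferInstance, fun a m => φ m a, fun a ha b hb => funext fun m =>
    h1 m a (mem_union_left _ ha) b (mem_union_left _ hb),
    comm_of_hypH (hypH_of_quot (MonoidHom.id _) _ ?_)⟩
  rw [orderOf_eq_zero_iff']
  intro m hm h
  have hB : ∀ j, j ≤ m + 1 → g ^ j ∈ B₀ ∪ (range (m + 2)).image (g ^ ·) := fun j hj =>
    mem_union_right _ (mem_image_of_mem _ (mem_range.2 (by omega)))
  have h3 : ∀ j, j ≤ m → φ m (g ^ (j + 1)) = φ m g ^ (j + 1) := by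
    intro j hj
    induction j with
    | zero => simp
    | succ j ih =>
      rw [pow_succ g, h1 m _ (hB _ (by omega)) _ (by simpa using hB 1 (by omega)),
        ih (by omega), ← pow_succ]
  have h4 : φ m g ^ m = 1 := congrFun h m
  have h5 : g ^ (m + 1) = g ^ 1 := h2 m (hB _ le_rfl) (hB 1 (by omega)) (by
    rw [h3 m le_rfl, pow_succ, h4, one_mul, pow_one])
  rw [pow_succ, pow_one, mul_eq_right] at h5
  exact orderOf_eq_zero_iff'.1 h0 m hm h5

end Pool.Agent.Lib.MP_7903c7_al.RF
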