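import Pool.Agent.Lib.MP_7903c7_al.RF.Defs
import Pool.Agent.Lib.MP_7903c7_al.B.Lift

set_option autoImplicit false

namespace Pool.Agent.Lib.MP_7903c7_al.RF

open Finset
open scoped Classical Pointwise

variable {G I : Type} [Group G] [Fintype I] [DecidableEq I]

theorem lift {k : Type} [Field k] [IsAlgClosed k] {p : ℕ} (hp : p.Prime) [CharP k p]
    {A : Matrix I I (MonoidAlgebra k G)} (hA : A * A = A) (g : G) :
    ∃ S : Finset G, (1 : G) ∈ S ∧ (∀ s ∈ S, s⁻¹ ∈ S) ∧ ∀ J : ℕ, 0 < J →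
      ∃ (Λ : Type) (_ : CommRing Λ) (E : G → Matrix I I Λ) (U : Finset G),
        (p : Λ) ^ J = 0 ∧ (∀ h, h ∉ U → E h = 0) ∧ (∀ h, ∑ u ∈ U, E u * E (u⁻¹ * h) = E h) ∧
        (∀ h j, h ∉ (S : Set G) ^ (2 * j + 1) → ∀ i i', ∃ y, E h i i' = (p : Λ) ^ (j + 1) * y) ∧
        ∀ a m : ℕ, a < J → ¬ p ∣ m →
          (p : Λ) ^ a * m * (∑ h ∈ U.filter fun h => IsConj h g, Matrix.trace (E h)) = 0 →
          tau (fun h => IsConj h g) A = 0 := by
  have := Fact.mk hp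
  let S0 : Finset G := insert 1 (univ.biUnion fun q : I × I => (A q.1 q.2).coeff.support)
  have h1 : (1 : G) ∈ S0 ∪ S0⁻¹ := mem_union_left _ (mem_insert_self _ _)
  refine ⟨S0 ∪ S0⁻¹, h1, fun u hu => ?_, fun J _ => ?_⟩
  · rcases mem_union.mp hu with h | h
    · exact mem_union_right _ (inv_mem_inv h)
    · exact mem_union_left _ (by simpa using inv_mem_inv h)
  obtain ⟨Λ, _, E, H, hf⟩ := Lift.lift (p := p) hA h1 (fun i j h hh =>
    Finsupp.notMem_support_iff.1 fun hu => hh (mem_union_left _ (mem_insert_of_mem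
      (mem_biUnion.mpr ⟨(i, j), mem_univ _, hu⟩)))) J
  refine ⟨Λ, inferInstance, E, _, H.pJ, H.supp, H.idem, fun h j hh i i' => ?_,
    fun a m ha hm h0 => hf _ (p ^ a * m) (fun hd => hm ?_) (by exact_mod_cast h0)⟩
  · by_cases h0 : E h = 0
    · exact ⟨0, by simp [h0]⟩
    obtain ⟨M, hM⟩ := H.val h
    have h2 : 2 * j + 1 < Lift.wl (S0 ∪ S0⁻¹) h := not_le.1 fun hle => hh (by
      exact_mod_cast pow_subset_pow_right h1 hle (H.mem h0))
    obtain ⟨c, hc⟩ := Nat.exists_eq_add_of_le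
      (show j + 1 ≤ Lift.wl (S0 ∪ S0⁻¹) h / 2 by omega)
    exact ⟨p ^ c * M i i', by rw [hM, hc, pow_add, Matrix.smul_apply, smul_eq_mul, mul_assoc]⟩
  · have := (pow_dvd_pow p (Nat.succ_le_of_lt ha)).trans hd
    rwa [pow_succ, Nat.mul_dvd_mul_iff_left (pow_pos hp.pos a)] at this

end Pool.Agent.Lib.MP_7903c7_al.RF
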