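import Pool.Agent.Lib.MP_7903c7_al.RF.Main
import Pool.Agent.Lib.MP_7903c7_al.RF.Cor
import Pool.Agent.Lib.MP_7903c7_al.B.Fin

set_option autoImplicit false

namespace Pool.Agent.Lib.MP_7903c7_al.RF

open Finset
open scoped Classical Pointwise

variable {G : Type} [Group G]

theorem hypH_comap {Q : Type} [Group Q] (π : G →* Q) (g : G) (H : HypH (π g)) : HypH g := by
  intro B
  obtain ⟨C, h1, h2, h3, h4⟩ := H (B.image π)
  refine ⟨C.comap π ⊓ Subgroup.centralizer {g},
    ⟨h1, Subgroup.mem_centralizer_singleton_iff.2 rfl⟩,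
    fun c hc => Subgroup.mem_centralizer_singleton_iff.1 hc.2, ?_, fun x => ?_⟩
  · rw [Subgroup.inf_relIndex_right, Subgroup.relIndex_comap]
    refine mt (Subgroup.relIndex_eq_zero_of_le_right ?_) h3
    rintro _ ⟨z, hz, rfl⟩
    rw [Subgroup.mem_centralizer_singleton_iff, ← map_mul, ← map_mul,
      Subgroup.mem_centralizer_singleton_iff.1 hz]
  · obtain ⟨K, χ, k1, k2, k3, k4, k5⟩ := h4 (π x)
    refine ⟨K.comap π ⊓ Subgroup.centralizer {g}, fun y => χ (π y),
      inf_le_inf_right _ (Subgroup.comap_mono k1),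
      ⟨k2, Subgroup.mem_centralizer_singleton_iff.2 rfl⟩, k3, fun a ha b hb => ?_,
      fun b hb hc => ⟨?_, hc.2⟩⟩
    · simp only [map_mul]
      exact k4 _ ha.1 _ hb.1
    · have := k5 (π b) (mem_image_of_mem _ hb) (by simpa using hc.1)
      simpa using this

/-- The relations that make the generators multiplicative on `B`. -/
def rels (B : Finset G) : Set (FreeGroup G) :=
  {r | ∃ a ∈ B, ∃ b ∈ B, r = FreeGroup.of a * FreeGroup.of b * (FreeGroup.of (a * b))⁻¹}

lemma of_mul {B : Finset G} {a b : G} (ha : a ∈ B) (hb : b ∈ B) :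
    (PresentedGroup.of (a * b) : PresentedGroup (rels B)) =
      PresentedGroup.of a * PresentedGroup.of b := by
  have := PresentedGroup.mk_eq_mk_of_mul_inv_mem (rels := rels B) ⟨a, ha, b, hb, rfl⟩
  rw [map_mul] at this
  exact this.symm

lemma exists_hom {B : Finset G} {Q : Type} [Group Q] (φ : G → Q)
    (hφ : ∀ a ∈ B, ∀ b ∈ B, φ (a * b) = φ a * φ b) :
    ∃ π : PresentedGroup (rels B) →* Q, ∀ a, π (PresentedGroup.of a) = φ a := by
  refine ⟨PresentedGroup.toGroup (f := φ) ?_, fun a => PresentedGroup.toGroup.of _⟩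
  rintro _ ⟨a, ha, b, hb, rfl⟩
  simp [hφ a ha b hb]

lemma mapDomain_mul_on {k G' : Type} [CommRing k] [Group G'] (j : G → G') {B : Finset G}
    (hj : ∀ a ∈ B, ∀ b ∈ B, j (a * b) = j a * j b) {x y : MonoidAlgebra k G}
    (hx : x.coeff.support ⊆ B) (hy : y.coeff.support ⊆ B) :
    MonoidAlgebra.mapDomain j (x * y) =
      MonoidAlgebra.mapDomain j x * MonoidAlgebra.mapDomain j y := by
  have e : ∀ z : MonoidAlgebra k G, MonoidAlgebra.mapDomain j z =
      MonoidAlgebra.mapDomainLinearMap k k j z := fun _ => rfl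
  rw [← x.sum_coeff_single, ← y.sum_coeff_single]
  simp only [Finsupp.sum, e, sum_mul_sum, map_sum, MonoidAlgebra.single_mul_single,
    MonoidAlgebra.mapDomainLinearMap_single]
  exact sum_congr rfl fun a ha => sum_congr rfl fun b hb => by rw [hj a (hx ha) b (hy hb)]

omit [Group G] in
lemma tau0_mapDomain {k G' : Type} [CommRing k] (j : G → G') (C : G' → Prop)
    (x : MonoidAlgebra k G) :
    tau0 C (MonoidAlgebra.mapDomain j x) = tau0 (fun h => C (j h)) x := by
  induction x using MonoidAlgebra.induction_linear with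
  | zero => simp
  | add a a' h1 h2 => rw [MonoidAlgebra.mapDomain_add, map_add, map_add, h1, h2]
  | single h r => rw [MonoidAlgebra.mapDomain_single, tau0_single, tau0_single]

theorem core_loc {I k : Type} [Fintype I] [DecidableEq I] [Field k] [IsAlgClosed k]
    {p : ℕ} (hp : p.Prime) [CharP k p] {A : Matrix I I (MonoidAlgebra k G)} (hA : A * A = A)
    {g : G} (H : ∀ B : Finset G, HypH (PresentedGroup.of g : PresentedGroup (rels B))) :
    tau (fun h => IsConj h g) A = 0 := by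
  have hx : ∀ h : G, ∃ x : G, IsConj h g → h * x = x * g := by
    intro h
    by_cases hc : IsConj h g
    · obtain ⟨c, hc'⟩ := isConj_iff.mp hc
      exact ⟨c⁻¹, fun _ => by rw [← hc']; group⟩
    · exact ⟨1, fun h' => absurd h' hc⟩
  choose x hx using hx
  let S : Finset G := univ.biUnion fun q : I × I => (A q.1 q.2).coeff.support
  let B : Finset G := insert g (S ∪ S.image x)
  have hS : ∀ i i', (A i i').coeff.support ⊆ S := fun i i' h hh =>
    mem_biUnion.mpr ⟨(i, i'), mem_univ _, hh⟩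
  have hSB : S ⊆ B := fun h hh => mem_insert_of_mem (mem_union_left _ hh)
  let j : G → PresentedGroup (rels B) := PresentedGroup.of
  obtain ⟨π, hπ⟩ := exists_hom (B := B) id fun _ _ _ _ => rfl
  let A' : Matrix I I (MonoidAlgebra k (PresentedGroup (rels B))) :=
    A.map (MonoidAlgebra.mapDomain j)
  have eA : ∀ i i', A' i i' = MonoidAlgebra.mapDomain j (A i i') := fun _ _ => rfl
  have hA' : A' * A' = A' := by
    ext1 i i'
    have e : ∀ z : MonoidAlgebra k G, MonoidAlgebra.mapDomain j z =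
        MonoidAlgebra.mapDomainLinearMap k k j z := fun _ => rfl
    conv_rhs => rw [eA, ← hA, Matrix.mul_apply, e, map_sum]
    rw [Matrix.mul_apply]
    refine sum_congr rfl fun l _ => ?_
    rw [← e, mapDomain_mul_on j (fun a ha b hb => of_mul ha hb) ((hS _ _).trans hSB)
      ((hS _ _).trans hSB), eA, eA]
  rw [← core hp hA' (H B), tau_apply, tau_apply]
  refine sum_congr rfl fun i _ => ?_
  rw [eA, tau0_mapDomain]
  refine tau0_congr fun h hh => ⟨fun hc => ?_, fun hc => ?_⟩
  · have h1 : h ∈ S := hS i i (Finsupp.mem_support_iff.mpr hh)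
    have h2 : x h ∈ B := mem_insert_of_mem (mem_union_right _ (mem_image_of_mem _ h1))
    have h3 : j h * j (x h) = j (x h) * j g := by
      rw [← of_mul (hSB h1) h2, ← of_mul h2 (mem_insert_self _ _), hx h hc]
    exact isConj_iff.mpr ⟨(j (x h))⁻¹, by rw [inv_inv, mul_assoc, h3, inv_mul_cancel_left]⟩
  · have := π.map_isConj hc
    rwa [hπ, hπ] at this

theorem hypH_of_loc {g : G} {B : Finset G} {Q : Type} [Group Q] (φ : G → Q)
    (hφ : ∀ a ∈ B, ∀ b ∈ B, φ (a * b) = φ a * φ b) (H : HypH (φ g)) :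
    HypH (PresentedGroup.of g : PresentedGroup (rels B)) := by
  obtain ⟨π, hπ⟩ := exists_hom φ hφ
  exact hypH_comap π _ (by rwa [hπ])

theorem hypH_of_fin {g : G} {B : Finset G}
    (H : ∀ m : ℕ, 0 < m → ∃ (F : Type) (_ : Group F) (_ : Finite F) (φ : G → F),
      (∀ a ∈ B, ∀ b ∈ B, φ (a * b) = φ a * φ b) ∧ φ g ^ m ≠ 1) :
    HypH (PresentedGroup.of g : PresentedGroup (rels B)) := by
  choose F i1 i2 φ h1 h2 using fun m : ℕ => H (m + 1) m.succ_pos
  have : Group.ResiduallyFinite (∀ m, F m) :=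
    Group.residuallyFinite_of_forall_exists_finite_monoidHom.{0} fun y hy => by
      obtain ⟨m, hm⟩ := Function.ne_iff.mp hy
      exact ⟨F m, i1 m, i2 m, Pi.evalMonoidHom F m, hm⟩
  refine hypH_of_loc (fun a m => φ m a) (fun a ha b hb => funext fun m => h1 m a ha b hb)
    (hypH_of_quot (MonoidHom.id _) _ ?_)
  rw [orderOf_eq_zero_iff']
  intro n hn h
  obtain ⟨m, rfl⟩ := Nat.exists_eq_succ_of_ne_zero hn.ne'
  exact h2 m (congrFun h m)

theorem hypH_of_comm {g : G}
    (H : ∀ B : Finset G, ∃ C : Subgroup G, g ∈ C ∧ C ≤ Subgroup.centralizer {g} ∧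
      C.relIndex (Subgroup.centralizer {g}) ≠ 0 ∧ ∀ (x : G) (m : ℕ), 0 < m →
        g ^ m ∉ ⁅Subgroup.closure (insert g {c | c ∈ C ∧ x⁻¹ * c * x ∈ B}),
          Subgroup.closure (insert g {c | c ∈ C ∧ x⁻¹ * c * x ∈ B})⁆) : HypH g := by
  intro B
  obtain ⟨C, h1, h2, h3, h4⟩ := H B
  refine ⟨C, h1, fun c hc => Subgroup.mem_centralizer_singleton_iff.1 (h2 hc), h3, fun x => ?_⟩
  have hg : g ∈ Subgroup.closure (insert g {c | c ∈ C ∧ x⁻¹ * c * x ∈ B}) :=
    Subgroup.subset_closure (Set.mem_insert _ _)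
  obtain ⟨χ, k1, k2⟩ := Cor.char_of_ab _ g hg (h4 x)
  refine ⟨_, χ, (Subgroup.closure_le _).mpr ?_, hg, k1, k2, fun b hb hc =>
    Subgroup.subset_closure (Set.mem_insert_of_mem _ ⟨hc, ?_⟩)⟩
  · rintro c (rfl | hc)
    · exact h1
    · exact hc.1
  · rwa [show x⁻¹ * (x * b * x⁻¹) * x = b by group]

end Pool.Agent.Lib.MP_7903c7_al.RF
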