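import Mathlib

set_option autoImplicit false

/-!
Definitions for the loop space proof of the Bass trace conjecture.
-/

namespace Pool.Agent.Lib.MP_7903c7_al.RF

open Finset
open scoped Classical Pointwise

/-- The exponential of period one. -/
noncomputable def ee (x : ℝ) : ℂ := Complex.exp (2 * Real.pi * x * Complex.I)

/-- The differentials of the periodic resolution of the cyclic group of order `N`. -/
def dd {A : Type} [Ring A] (T : A) (N i : ℕ) : A :=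
  if Even i then ∑ r ∈ range N, T ^ r else T - 1

/-- The boundary of chains on lists (zero on lists of length at most one). -/
noncomputable def bd (P Λ : Type) [CommRing Λ] : Module.End Λ (List P →₀ Λ) :=
  Finsupp.linearCombination Λ fun l : List P =>
    if l.length ≤ 1 then 0 else
      ∑ j ∈ range l.length, Finsupp.single (l.eraseIdx j) ((-1 : Λ) ^ j)

/-- The sum of the coefficients of the lists of length one. -/
noncomputable def eps (P Λ : Type) [CommRing Λ] : (List P →₀ Λ) →ₗ[Λ] Λ :=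
  Finsupp.linearCombination Λ fun l : List P => if l.length = 1 then 1 else 0

/-- The action of a self map on chains of lists. -/
noncomputable def tm {P : Type} (Λ : Type) [CommRing Λ] (T : P → P) :
    Module.End Λ (List P →₀ Λ) :=
  Finsupp.lmapDomain Λ Λ (List.map T)

/-- The periodic set generated by finitely many trajectories. -/
def per (N : ℕ) (F : Finset (ℕ → ℤ)) : Set (ℕ → ℤ) :=
  {τ | ∃ σ ∈ F, ∃ a : ℤ, τ = fun j => σ j + a * N}

/-- A trajectory with `D + 1` vertices. -/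
def Traj (D : ℕ) (τ : ℕ → ℤ) : Prop :=
  Monotone τ ∧ (∀ j, τ j = τ (min j D)) ∧ ∀ j, τ j ≤ τ 0 + 1

/-- A cell of dimension `D` with at most `m` points. -/
def Cell (N D m : ℕ) (A : Set (ℕ → ℤ)) : Prop :=
  ∃ F : Finset (ℕ → ℤ), F.Nonempty ∧ F.card ≤ m ∧ (∀ τ ∈ F, Traj D τ) ∧ A = per N F

/-- Reparametrisation of the vertices. -/
def pull (θ : ℕ → ℕ) (A : Set (ℕ → ℤ)) : Set (ℕ → ℤ) := (fun τ => τ ∘ θ) '' A

/-- The face map of a `D`-simplex that omits the vertex `j`. -/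
def face (D j : ℕ) (i : ℕ) : ℕ :=
  if min i (D - 1) < j then min i (D - 1) else min i (D - 1) + 1

/-- The boundary of chains of `D`-cells. -/
noncomputable def cbd (D : ℕ) : Module.End ℤ (Set (ℕ → ℤ) →₀ ℤ) :=
  ∑ j ∈ range (D + 1), (-1 : ℤ) ^ j • Finsupp.lmapDomain ℤ ℤ (pull (face D j))

/-- The rotation of a cell. -/
def sh (A : Set (ℕ → ℤ)) : Set (ℕ → ℤ) := (fun τ j => τ j + 1) '' A

/-- The rotation of chains of cells. -/
noncomputable def shm : Module.End ℤ (Set (ℕ → ℤ) →₀ ℤ) := Finsupp.lmapDomain ℤ ℤ sh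

/-- The degeneracy used by the prism operator. -/
def dgn (D i : ℕ) (l : ℕ) : ℕ := min (if l ≤ i then l else l - 1) D

/-- The interval coordinate used by the prism operator. -/
def stp (i : ℕ) (l : ℕ) : ℕ := if l ≤ i then 0 else 1

section loops

variable {G : Type} [Group G]

/-- A loop with `N` steps and holonomy `g`. -/
def IsLoop (g : G) (N : ℕ) (γ : ℤ → G) : Prop := ∀ t, γ (t + N) = g * γ t

/-- Step lengths of total at most `L` on a period. -/
def Len (S : Finset G) (N L : ℕ) (γ : ℤ → G) (ℓ : ℤ → ℕ) : Prop :=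
  (∀ t, ℓ (t + N) = ℓ t) ∧ (∀ t, (γ t)⁻¹ * γ (t + 1) ∈ (S : Set G) ^ ℓ t) ∧
    ∑ t ∈ range N, ℓ t ≤ L

/-- A loop of length at most `L`. -/
def Good (g : G) (S : Finset G) (N L : ℕ) (γ : ℤ → G) : Prop :=
  IsLoop g N γ ∧ ∃ ℓ, Len S N L γ ℓ

/-- Two sequences differ in at most `m` places of the period. -/
def Near {α : Type} (N m : ℕ) (γ γ' : ℤ → α) : Prop :=
  ((range N).filter fun t : ℕ => γ t ≠ γ' t).card ≤ m

/-- The hypothesis on the pair of a group and an element. -/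
def HypH (g : G) : Prop :=
  ∀ B : Finset G, ∃ C : Subgroup G, g ∈ C ∧ (∀ c ∈ C, c * g = g * c) ∧
    C.relIndex (Subgroup.centralizer {g}) ≠ 0 ∧
    ∀ x : G, ∃ (H : Subgroup G) (χ : G → ℝ), H ≤ C ∧ g ∈ H ∧ χ g = 1 ∧
      (∀ a ∈ H, ∀ b ∈ H, χ (a * b) = χ a + χ b) ∧ ∀ b ∈ B, x * b * x⁻¹ ∈ C → x * b * x⁻¹ ∈ H

/-- Loops up to left multiplication by `C`. -/
def lpS (g : G) (C : Subgroup G) (M : ℕ) : Setoid {x : ℤ → G // IsLoop g M x} where
  r x y := ∃ c ∈ C, ∀ i, y.1 i = c * x.1 i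
  iseqv :=
    ⟨fun _ => ⟨1, C.one_mem, fun _ => (one_mul _).symm⟩,
      fun ⟨c, hc, h⟩ => ⟨c⁻¹, C.inv_mem hc, fun i => by rw [h, inv_mul_cancel_left]⟩,
      fun ⟨c, hc, h⟩ ⟨c', hc', h'⟩ => ⟨c' * c, C.mul_mem hc' hc, fun i => by
        rw [h', h, mul_assoc]⟩⟩

/-- Components, their cut-off functions and heights. -/
structure Geo (g : G) (C : Subgroup G) (S : Finset G) (R r0 Δ I0 : ℕ) where
  K : Type
  Q : Type
  cls : K → Q
  act : G → Equiv.Perm K
  phi : K → G → ℝ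
  eta : K → G → ℝ
  phi_act : ∀ c ∈ C, ∀ κ y, phi (act c κ) (c * y) = phi κ y
  cls_act : ∀ c ∈ C, ∀ κ, cls (act c κ) = cls κ
  phi_g : ∀ κ y, phi κ (g * y) = phi κ y
  phi_nonneg : ∀ κ y, 0 ≤ phi κ y
  phi_le : ∀ κ y, phi κ y ≤ R
  phi_lip : ∀ κ y, ∀ s ∈ S, |phi κ (y * s) - phi κ y| ≤ 1
  phi_top : ∀ y, ∃ κ, phi κ y = R
  phi_fin : ∀ y, ∃ A : Finset K, A.card ≤ Δ ∧ ∀ κ, phi κ y ≠ 0 → κ ∈ A
  deg : ∀ q, ∃ Z : Finset G, Z.card ≤ Δ ∧
    ∀ κ y, cls κ = q → phi κ y ≠ 0 → ∃ c ∈ C, ∃ z ∈ Z, y = c * z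
  sep : ∀ κ κ' y, ∀ u ∈ (S : Set G) ^ r0, cls κ = cls κ' → phi κ y ≠ 0 → phi κ' (y * u) ≠ 0 →
    κ = κ'
  eta_g : ∀ κ y, phi κ y ≠ 0 → eta κ (g * y) = eta κ y + 1
  eta_act : ∀ c ∈ C, ∀ κ y y', phi κ y ≠ 0 → phi κ y' ≠ 0 →
    eta (act c κ) (c * y) - eta (act c κ) (c * y') = eta κ y - eta κ y'
  dir : ∀ P : ℤ, ∃ i : Q → ℕ, ∀ q, 1 ≤ i q ∧ i q ≤ I0 ∧ ∀ κ y, ∀ u ∈ (S : Set G) ^ r0,
    cls κ = q → phi κ y ≠ 0 → phi κ (y * u) ≠ 0 →
      ∃ n : ℤ, |(i q : ℝ) * P * (eta κ y - eta κ (y * u)) - n| ≤ 1 / 6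

/-- Circle valued functions of weight `w` on the loops, invariant under `C`. -/
def Equi (g : G) (C : Subgroup G) (N : ℕ) (w : (ℤ → G) → ℤ) (F : (ℤ → G) → ℂ) : Prop :=
  ∀ γ, IsLoop g N γ →
    (∀ c ∈ C, w (fun t => c * γ t) = w γ ∧ F (fun t => c * γ t) = F γ) ∧
      w (fun t => γ (t - 1)) = w γ ∧ F (fun t => γ (t - 1)) = ee ((w γ : ℝ) / N) * F γ

/-- The function has constant weight and stays in a quarter plane near the loop `γ`. -/
def Fine (g : G) (S : Finset G) (N L m : ℕ) (w : (ℤ → G) → ℤ) (F : (ℤ → G) → ℂ)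
    (γ : ℤ → G) : Prop :=
  ∀ γ' γ'', Good g S N L γ' → Good g S N L γ'' → Near N m γ γ' → Near N m γ γ'' →
    w γ' = w γ'' ∧ 0 < (F γ' * (starRingEnd ℂ) (F γ'')).re

end loops

section amp

variable {G I Λ : Type} [Group G] [Fintype I] [DecidableEq I] [CommRing Λ]

/-- An idempotent matrix over a group ring, an element and a finite index subgroup of its
centraliser. -/
structure Dat (G I Λ : Type) [Group G] [Fintype I] [DecidableEq I] [CommRing Λ] where
  g : G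
  C : Subgroup G
  E : G → Matrix I I Λ
  U : Finset G
  gC : g ∈ C
  comm : ∀ c ∈ C, c * g = g * c
  idx : C.relIndex (Subgroup.centralizer {g}) ≠ 0
  supp : ∀ h, h ∉ U → E h = 0
  idem : ∀ h, ∑ u ∈ U, E u * E (u⁻¹ * h) = E h

/-- The kernel of the idempotent or of the identity. -/
noncomputable def kap (E : G → Matrix I I Λ) (b : Prop) (h : G) : Matrix I I Λ :=
  if b then E h else if h = 1 then 1 else 0

/-- The amplitude of a loop. -/
noncomputable def amp (E : G → Matrix I I Λ) (M : ℕ) (b : ℤ → Prop) (x : ℤ → G) : Λ :=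
  Matrix.trace ((List.range M).map fun i : ℕ => kap E (b i) ((x i)⁻¹ * x (i + 1))).prod

/-- The sum over the classes of loops, weighted by the amplitudes. -/
noncomputable def Dat.int (d : Dat G I Λ) {A : Type} [AddCommGroup A] [Module Λ A] (M : ℕ)
    (b : ℤ → Prop) (f : (ℤ → G) → A) : A :=
  ∑ᶠ q : Quotient (lpS d.g d.C M), amp d.E M b q.out.1 • f q.out.1

/-- The trace of the idempotent on the class of `g`. -/
noncomputable def Dat.tr (d : Dat G I Λ) : Λ :=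
  ∑ h ∈ d.U.filter fun h => IsConj h d.g, Matrix.trace (d.E h)

end amp

/-- The triangular average of half width `T * n0` and total weight `T`. -/
noncomputable def Fw (n0 T : ℕ) (f : ℤ → ℝ) (σ : ℤ) : ℝ :=
  ∑ u ∈ Ioo (-(T * n0 : ℤ)) (T * n0),
    ((T * n0 : ℝ) - |(u : ℝ)|) / (n0 * (T * n0)) * f (σ + u)

/-- The triangular average of a step function. -/
noncomputable def cK (n0 T : ℕ) (v : ℤ) : ℝ := Fw n0 T (fun t => if 0 < t then 1 else 0) v

/-- Truncation to the unit interval. -/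
noncomputable def clip (x : ℝ) : ℝ := max 0 (min 1 x)

/-- The minimum over the last `i + 1` places. -/
noncomputable def mn (F : ℤ → ℝ) (σ : ℤ) : ℕ → ℝ
  | 0 => F σ
  | i + 1 => min (mn F σ i) (F (σ - (i + 1 : ℕ)))

/-- The starting time of the cluster of `σ`. -/
noncomputable def tauf (N : ℕ) (a0 : ℝ) (F : ℤ → ℝ) (σ : ℤ) : ℝ :=
  σ - ∑ i ∈ range N, clip ((mn F σ (i + 1) - a0) / a0)

/-- The top score. -/
noncomputable def top {K : Type} (F : K → ℤ → ℝ) (δ : K → ℝ) : ℝ :=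
  ⨆ q : K × ℤ, (F q.1 q.2 + δ q.1)

/-- The weight of a pair near the top. -/
noncomputable def wt {K : Type} (ρ : ℝ) (F : K → ℤ → ℝ) (δ : K → ℝ) (κ : K) (σ : ℤ) : ℝ :=
  max 0 (F κ σ + δ κ - top F δ + ρ)

/-- The Fourier coefficients of the first system. -/
noncomputable def nu1 {K : Type} (N : ℕ) (a0 ρ : ℝ) (F : K → ℤ → ℝ) (δ : K → ℝ) (m : ℤ) : ℂ :=
  ∑ᶠ κ, ∑ σ ∈ range N, (wt ρ F δ κ σ : ℂ) * ee (m * tauf N a0 (F κ) σ / N)

/-- The Fourier coefficients of the second system. -/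
noncomputable def xi (N : ℕ) (f η : ℤ → ℝ) (w m : ℤ) : ℂ :=
  ∑ t ∈ range N, (f t : ℂ) *
    ee (w * (η t - (∑ t' ∈ range N, f t' * (η t' - t' / N)) / ∑ t' ∈ range N, f t') - m * t / N)

/-- The minimum over all times. -/
noncomputable def pers (F : ℤ → ℝ) : ℝ := ⨅ σ, F σ

end Pool.Agent.Lib.MP_7903c7_al.RF
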