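import Pool.Agent.Lib.MP_7903c7_al.RF.Defs
import Pool.Agent.Lib.MP_7903c7_al.RF.Once

set_option autoImplicit false

/-!
The Fourier coefficients of the first system: symmetry, equivariance and continuity.
-/

namespace Pool.Agent.Lib.MP_7903c7_al.RF

open Finset
open scoped Classical Pointwise

namespace Nu

theorem ee_add (x y : ℝ) : ee (x + y) = ee x * ee y := by
  unfold ee
  rw [← Complex.exp_add]
  congr 1
  push_cast
  ring

theorem ee_int (m : ℤ) : ee (m : ℝ) = 1 := by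
  unfold ee
  have h := Complex.exp_int_mul_two_pi_mul_I m
  rw [← h]
  congr 1
  push_cast
  ring

theorem norm_ee (x : ℝ) : ‖ee x‖ = 1 := by
  unfold ee
  have h : (2 * Real.pi * x * Complex.I : ℂ) = ((2 * Real.pi * x : ℝ) : ℂ) * Complex.I := by
    push_cast
    ring
  rw [h, Complex.norm_exp_ofReal_mul_I]

theorem ee_sub_one (x : ℝ) : ‖ee x - 1‖ ≤ 2 * Real.pi * |x| := by
  unfold ee
  have h : (2 * Real.pi * x * Complex.I : ℂ) = Complex.I * ((2 * Real.pi * x : ℝ) : ℂ) := by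
    push_cast
    ring
  rw [h]
  refine Real.norm_exp_I_mul_ofReal_sub_one_le.trans (le_of_eq ?_)
  rw [Real.norm_eq_abs, abs_mul, abs_of_nonneg (by positivity : 0 ≤ 2 * Real.pi)]

theorem ee_lip (x y : ℝ) : ‖ee x - ee y‖ ≤ 2 * Real.pi * |x - y| := by
  have h : ee x - ee y = (ee (x - y) - 1) * ee y := by
    rw [sub_mul, ← ee_add, one_mul, sub_add_cancel]
  rw [h, norm_mul, norm_ee, mul_one]
  exact ee_sub_one _

theorem sum_step {A : Type} [AddCommGroup A] (g : ℤ → A) (c : ℤ) (n : ℕ) :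
    ∑ j ∈ range n, g (c + 1 + j) + g c = ∑ j ∈ range n, g (c + j) + g (c + n) := by
  induction n with
  | zero => simp
  | succ n ih =>
    rw [sum_range_succ, sum_range_succ, add_right_comm, ih]
    congr 2
    push_cast
    ring

theorem sum_per {A : Type} [AddCommGroup A] (g : ℤ → A) (N : ℕ) (hp : ∀ t, g (t + N) = g t)
    (c : ℤ) : ∑ j ∈ range N, g (c + j) = ∑ j ∈ range N, g j := by
  have key : ∀ c : ℤ, ∑ j ∈ range N, g (c + 1 + j) = ∑ j ∈ range N, g (c + j) := by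
    intro c
    have h := sum_step g c N
    rw [hp] at h
    exact add_right_cancel h
  induction c using Int.induction_on with
  | zero => simp
  | succ i ih => rw [key, ih]
  | pred i ih =>
    rw [← key, ← ih]
    refine sum_congr rfl fun j _ => ?_
    congr 1
    ring

theorem mn_shift (F : ℤ → ℝ) (σ c : ℤ) (i : ℕ) :
    mn (fun t => F (t + c)) σ i = mn F (σ + c) i := by
  induction i with
  | zero => rfl
  | succ i ih =>
    simp only [mn, ih]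
    congr 2
    ring

theorem tauf_shift (N : ℕ) (a0 : ℝ) (F : ℤ → ℝ) (σ c : ℤ) :
    tauf N a0 (fun t => F (t + c)) σ = tauf N a0 F (σ + c) - c := by
  unfold tauf
  simp only [mn_shift]
  push_cast
  ring

theorem tauf_per (N : ℕ) (a0 : ℝ) (F : ℤ → ℝ) (hp : ∀ σ, F (σ + N) = F σ) (σ : ℤ) :
    tauf N a0 F (σ + N) = tauf N a0 F σ + N := by
  have h := tauf_shift N a0 F σ N
  have e : (fun t => F (t + N)) = F := funext hp
  rw [e] at h
  rw [h]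
  push_cast
  ring

theorem mn_lip {F F' : ℤ → ℝ} {ζ : ℝ} (h : ∀ σ, |F σ - F' σ| ≤ ζ) (σ : ℤ) (i : ℕ) :
    |mn F σ i - mn F' σ i| ≤ ζ := by
  induction i with
  | zero => exact h σ
  | succ i ih => exact (abs_min_sub_min_le_max _ _ _ _).trans (max_le ih (h _))

theorem clip_lip (x y : ℝ) : |clip x - clip y| ≤ |x - y| := by
  unfold clip
  refine (abs_max_sub_max_le_max _ _ _ _).trans (max_le (by simp) ?_)
  exact (abs_min_sub_min_le_max _ _ _ _).trans (max_le (by simp) le_rfl)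

theorem tauf_lip (N : ℕ) {a0 ζ : ℝ} (ha : 0 < a0) {F F' : ℤ → ℝ}
    (h : ∀ σ, |F σ - F' σ| ≤ ζ) (σ : ℤ) :
    |tauf N a0 F σ - tauf N a0 F' σ| ≤ N * (ζ / a0) := by
  unfold tauf
  rw [sub_sub_sub_cancel_left, ← sum_sub_distrib]
  refine (abs_sum_le_sum_abs _ _).trans ?_
  have hb : ∀ i ∈ range N, |clip ((mn F' σ (i + 1) - a0) / a0) -
      clip ((mn F σ (i + 1) - a0) / a0)| ≤ ζ / a0 := by
    intro i _
    refine (clip_lip _ _).trans ?_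
    rw [← sub_div, abs_div, abs_of_pos ha, sub_sub_sub_cancel_right, abs_sub_comm]
    exact div_le_div_of_nonneg_right (mn_lip h σ _) ha.le
  refine (sum_le_card_nsmul _ _ _ hb).trans (le_of_eq ?_)
  rw [card_range, nsmul_eq_mul]

theorem le_top {K : Type} {F : K → ℤ → ℝ} {δ : K → ℝ} {B : ℝ} (hB : ∀ κ σ, F κ σ + δ κ ≤ B)
    (κ : K) (σ : ℤ) : F κ σ + δ κ ≤ top F δ :=
  le_ciSup (f := fun q : K × ℤ => F q.1 q.2 + δ q.1)
    ⟨B, by rintro _ ⟨q, rfl⟩; exact hB _ _⟩ (κ, σ)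

theorem top_le {K : Type} [Nonempty K] {F : K → ℤ → ℝ} {δ : K → ℝ} {B : ℝ}
    (hB : ∀ κ σ, F κ σ + δ κ ≤ B) : top F δ ≤ B :=
  ciSup_le fun q => hB q.1 q.2

theorem wt_nonneg {K : Type} (ρ : ℝ) (F : K → ℤ → ℝ) (δ : K → ℝ) (κ : K) (σ : ℤ) :
    0 ≤ wt ρ F δ κ σ := le_max_left _ _

theorem wt_le {K : Type} {ρ B : ℝ} (hρ : 0 ≤ ρ) {F : K → ℤ → ℝ} {δ : K → ℝ}
    (hB : ∀ κ σ, F κ σ + δ κ ≤ B) (κ : K) (σ : ℤ) : wt ρ F δ κ σ ≤ ρ := by
  have := le_top hB κ σ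
  exact max_le hρ (by linarith)

theorem wt_lip {K : Type} [Nonempty K] {ρ ζ B : ℝ} {F F' : K → ℤ → ℝ} {δ : K → ℝ}
    (hB : ∀ κ σ, F κ σ + δ κ ≤ B) (hζ : ∀ κ σ, |F κ σ - F' κ σ| ≤ ζ) (κ : K) (σ : ℤ) :
    |wt ρ F δ κ σ - wt ρ F' δ κ σ| ≤ 2 * ζ := by
  have hB' : ∀ κ σ, F' κ σ + δ κ ≤ B + ζ := fun κ σ => by
    have := hB κ σ
    have := (abs_le.1 (hζ κ σ)).1
    linarith
  have h1 : top F δ ≤ top F' δ + ζ := top_le fun κ σ => by
    have := le_top hB' κ σ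
    have := (abs_le.1 (hζ κ σ)).2
    linarith
  have h2 : top F' δ ≤ top F δ + ζ := top_le fun κ σ => by
    have := le_top hB κ σ
    have := (abs_le.1 (hζ κ σ)).1
    linarith
  have h3 := abs_le.1 (hζ κ σ)
  have h0 : 0 ≤ ζ := (abs_nonneg _).trans (hζ κ σ)
  unfold wt
  refine (abs_max_sub_max_le_max _ _ _ _).trans (max_le (by simp; linarith) ?_)
  rw [abs_le]
  constructor <;> linarith [h3.1, h3.2]

theorem nu1_eq {K : Type} (N : ℕ) (a0 ρ : ℝ) (F : K → ℤ → ℝ) (δ : K → ℝ) (m : ℤ) (A : Finset K)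
    (hA : ∀ κ, κ ∉ A → ∀ σ ∈ range N, wt ρ F δ κ σ = 0) :
    nu1 N a0 ρ F δ m = ∑ κ ∈ A, ∑ σ ∈ range N,
      (wt ρ F δ κ σ : ℂ) * ee (m * tauf N a0 (F κ) σ / N) := by
  unfold nu1
  refine finsum_eq_sum_of_support_subset _ fun κ hκ => ?_
  by_contra h
  refine hκ (sum_eq_zero fun σ hσ => ?_)
  rw [hA κ h σ hσ]
  simp

end Nu

open Nu

theorem nu1_perm {K : Type} (N : ℕ) (a0 ρ : ℝ) (F : K → ℤ → ℝ) (δ : K → ℝ) (m : ℤ)
    (π : Equiv.Perm K) :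
    nu1 N a0 ρ (fun κ => F (π κ)) (fun κ => δ (π κ)) m = nu1 N a0 ρ F δ m := by
  have ht : top (fun κ => F (π κ)) (fun κ => δ (π κ)) = top F δ :=
    (π.prodCongr (Equiv.refl ℤ)).iSup_comp (g := fun q : K × ℤ => F q.1 q.2 + δ q.1)
  unfold nu1 wt
  rw [ht]
  exact finsum_comp_equiv π (f := fun κ => ∑ σ ∈ range N,
    ((max 0 (F κ σ + δ κ - top F δ + ρ) : ℝ) : ℂ) * ee (m * tauf N a0 (F κ) σ / N))

theorem nu1_shift {K : Type} (N : ℕ) (hN : 0 < N) (a0 ρ : ℝ) (F : K → ℤ → ℝ) (δ : K → ℝ) (m : ℤ)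
    (hp : ∀ κ σ, F κ (σ + N) = F κ σ) :
    nu1 N a0 ρ (fun κ σ => F κ (σ - 1)) δ m = ee ((m : ℝ) / N) * nu1 N a0 ρ F δ m := by
  have hN' : (N : ℝ) ≠ 0 := by positivity
  have ht : top (fun κ σ => F κ (σ - 1)) δ = top F δ :=
    ((Equiv.refl K).prodCongr (Equiv.subRight (1 : ℤ))).iSup_comp
      (g := fun q : K × ℤ => F q.1 q.2 + δ q.1)
  unfold nu1
  rw [mul_finsum]
  refine finsum_congr fun κ => ?_
  have hper : ∀ t : ℤ, (wt ρ F δ κ (t + N) : ℂ) * ee (m * tauf N a0 (F κ) (t + N) / N) =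
      (wt ρ F δ κ t : ℂ) * ee (m * tauf N a0 (F κ) t / N) := by
    intro t
    have e1 : wt ρ F δ κ (t + N) = wt ρ F δ κ t := by
      unfold wt
      rw [hp]
    have e2 : (m : ℝ) * (tauf N a0 (F κ) t + N) / N = m * tauf N a0 (F κ) t / N + m := by
      field_simp
    rw [e1, tauf_per N a0 (F κ) (hp κ), e2, ee_add, ee_int, mul_one]
  rw [← sum_per (fun t : ℤ => (wt ρ F δ κ t : ℂ) * ee (m * tauf N a0 (F κ) t / N)) N hper (-1),
    mul_sum]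
  refine sum_congr rfl fun σ _ => ?_
  have e1 : wt ρ (fun κ σ => F κ (σ - 1)) δ κ σ = wt ρ F δ κ (-1 + σ) := by
    unfold wt
    rw [ht, neg_add_eq_sub]
  have e2 : tauf N a0 (fun σ => F κ (σ - 1)) σ = tauf N a0 (F κ) (-1 + σ) + 1 := by
    have h := tauf_shift N a0 (F κ) σ (-1)
    simp only [← sub_eq_add_neg] at h
    rw [h, neg_add_eq_sub]
    push_cast
    ring
  have e3 : (m : ℝ) * (tauf N a0 (F κ) (-1 + σ) + 1) / N =
      m / N + m * tauf N a0 (F κ) (-1 + σ) / N := by ring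
  rw [e1, e2, e3, ee_add]
  ring

theorem nu1_cont {K : Type} [Nonempty K] (N Δ : ℕ) (hN : 0 < N) {a0 ρ ζ B : ℝ} (ha : 0 < a0)
    (hρ : 0 ≤ ρ) (F F' : K → ℤ → ℝ) (δ : K → ℝ) (m : ℤ) (hB : ∀ κ σ, F κ σ + δ κ ≤ B)
    (hζ : ∀ κ σ, |F κ σ - F' κ σ| ≤ ζ)
    (hΔ : ∀ σ, ∃ A : Finset K, A.card ≤ Δ ∧ ∀ κ, κ ∉ A → wt ρ F δ κ σ = 0 ∧ wt ρ F' δ κ σ = 0) :
    ‖nu1 N a0 ρ F δ m - nu1 N a0 ρ F' δ m‖ ≤
      N * Δ * (2 * ζ + ρ * (2 * Real.pi * |(m : ℝ)| * (ζ / a0))) := by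
  have hN' : (0 : ℝ) < N := by positivity
  have h0 : 0 ≤ ζ := (abs_nonneg _).trans (hζ (Classical.arbitrary K) 0)
  choose A hA hA' using hΔ
  set U : Finset K := (range N).biUnion fun σ : ℕ => A σ with hU
  have hout : ∀ κ, κ ∉ U → ∀ σ ∈ range N, κ ∉ A σ := fun κ hκ σ hσ h =>
    hκ (mem_biUnion.2 ⟨σ, hσ, h⟩)
  rw [nu1_eq N a0 ρ F δ m U fun κ hκ σ hσ => (hA' _ κ (hout κ hκ σ hσ)).1,
    nu1_eq N a0 ρ F' δ m U fun κ hκ σ hσ => (hA' _ κ (hout κ hκ σ hσ)).2,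
    sum_comm, sum_comm (s := U), ← sum_sub_distrib]
  set c : ℝ := 2 * ζ + ρ * (2 * Real.pi * |(m : ℝ)| * (ζ / a0)) with hc
  have hc0 : 0 ≤ c := by positivity
  have hterm : ∀ κ (σ : ℤ), ‖(wt ρ F δ κ σ : ℂ) * ee (m * tauf N a0 (F κ) σ / N) -
      (wt ρ F' δ κ σ : ℂ) * ee (m * tauf N a0 (F' κ) σ / N)‖ ≤ c := by
    intro κ σ
    have e : (wt ρ F δ κ σ : ℂ) * ee (m * tauf N a0 (F κ) σ / N) -
        (wt ρ F' δ κ σ : ℂ) * ee (m * tauf N a0 (F' κ) σ / N) =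
        ((wt ρ F δ κ σ - wt ρ F' δ κ σ : ℝ) : ℂ) * ee (m * tauf N a0 (F' κ) σ / N) +
          (wt ρ F δ κ σ : ℂ) *
            (ee (m * tauf N a0 (F κ) σ / N) - ee (m * tauf N a0 (F' κ) σ / N)) := by
      push_cast
      ring
    rw [e]
    refine (norm_add_le _ _).trans (add_le_add ?_ ?_)
    · rw [norm_mul, norm_ee, mul_one, Complex.norm_real, Real.norm_eq_abs]
      exact wt_lip hB hζ κ σ
    · rw [norm_mul, Complex.norm_real, Real.norm_eq_abs, abs_of_nonneg (wt_nonneg _ _ _ _ _)]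
      refine mul_le_mul (wt_le hρ hB κ σ) ((ee_lip _ _).trans ?_) (norm_nonneg _) hρ
      rw [← sub_div, ← mul_sub, abs_div, abs_mul, abs_of_pos hN', mul_assoc (2 * Real.pi),
        mul_div_assoc]
      refine mul_le_mul_of_nonneg_left
        (mul_le_mul_of_nonneg_left ?_ (abs_nonneg _)) (by positivity)
      rw [div_le_iff₀ hN', mul_comm]
      exact tauf_lip N ha (hζ κ) σ
  have hσ : ∀ σ ∈ range N,
      ‖∑ κ ∈ U, (wt ρ F δ κ σ : ℂ) * ee (m * tauf N a0 (F κ) σ / N) -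
        ∑ κ ∈ U, (wt ρ F' δ κ σ : ℂ) * ee (m * tauf N a0 (F' κ) σ / N)‖ ≤ Δ * c := by
    intro σ hσ
    have hsub : A σ ⊆ U := fun κ h => mem_biUnion.2 ⟨σ, hσ, h⟩
    rw [← sum_sub_distrib, ← sum_subset hsub fun κ _ h => by
      rw [(hA' _ κ h).1, (hA' _ κ h).2]; simp]
    refine (norm_sum_le _ _).trans
      ((sum_le_card_nsmul _ _ c fun κ _ => hterm κ σ).trans ?_)
    rw [nsmul_eq_mul]
    exact mul_le_mul_of_nonneg_right (by exact_mod_cast hA σ) hc0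
  refine (norm_sum_le _ _).trans ((sum_le_card_nsmul _ _ _ hσ).trans (le_of_eq ?_))
  rw [card_range, nsmul_eq_mul, mul_assoc]

/-- The total weight is large. -/
theorem Nu.mass {K : Type} [Nonempty K] (N : ℕ) {ρ lam : ℝ} (hρ : 0 < ρ) (hl : 0 < lam)
    (hρN : ρ / (4 * lam) < N) (F : K → ℤ → ℝ) (δ : K → ℝ)
    (hp : ∀ κ σ, F κ (σ + N) = F κ σ) (hlip : ∀ κ σ, |F κ (σ + 1) - F κ σ| ≤ lam) :
    ∃ κ, ρ ^ 2 / (8 * lam) ≤ ∑ σ ∈ range N, wt ρ F δ κ σ := by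
  obtain ⟨⟨κ, σ0⟩, hq⟩ := exists_lt_of_lt_ciSup (f := fun q : K × ℤ => F q.1 q.2 + δ q.1)
    (b := top F δ - ρ / 4) (by unfold top; linarith)
  refine ⟨κ, ?_⟩
  have hdown : ∀ j : ℕ, F κ σ0 - j * lam ≤ F κ (σ0 + j) := by
    intro j
    induction j with
    | zero => simp
    | succ j ih =>
      have h := (abs_le.1 (hlip κ (σ0 + j))).1
      have e : σ0 + ((j + 1 : ℕ) : ℤ) = σ0 + j + 1 := by push_cast; ring
      rw [e]
      push_cast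
      linarith
  rw [← sum_per (fun t => wt ρ F δ κ t) N (fun t => by unfold wt; rw [hp]) σ0]
  set J : ℕ := ⌊ρ / (4 * lam)⌋₊ with hJ
  have hx : 0 ≤ ρ / (4 * lam) := by positivity
  have hJN : J < N := (Nat.floor_lt hx).2 hρN
  have hJ1 : (J : ℝ) ≤ ρ / (4 * lam) := Nat.floor_le hx
  have hJ2 : ρ / (4 * lam) < J + 1 := Nat.lt_floor_add_one _
  have hsub : range (J + 1) ⊆ range N := range_subset_range.2 hJN
  refine le_trans ?_ (sum_le_sum_of_subset_of_nonneg hsub fun _ _ _ => wt_nonneg _ _ _ _ _)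
  have hb : ∀ j ∈ range (J + 1), ρ / 2 ≤ wt ρ F δ κ (σ0 + j) := by
    intro j hj
    have h1 : (j : ℝ) ≤ J := by exact_mod_cast Nat.lt_succ_iff.1 (mem_range.1 hj)
    have h2 : (j : ℝ) * (4 * lam) ≤ ρ := (le_div_iff₀ (by positivity)).1 (h1.trans hJ1)
    have h3 := hdown j
    refine le_trans ?_ (le_max_right _ _)
    simp only at hq
    linarith
  refine le_trans ?_ (card_nsmul_le_sum _ _ _ hb)
  rw [card_range, nsmul_eq_mul]
  have e : ρ ^ 2 / (8 * lam) = ρ / (4 * lam) * (ρ / 2) := by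
    field_simp
    ring
  rw [e]
  push_cast
  exact mul_le_mul_of_nonneg_right hJ2.le (by positivity)

/-- The lower bound, given the lemma on few points of the circle. -/
theorem Nu.lower_of {K : Type} [Nonempty K] (N n1 : ℕ)
    {a0 ρ lam : ℝ} (hρ : 0 < ρ) (hl : 0 < lam) (hρN : ρ / (4 * lam) < N)
    (F : K → ℤ → ℝ) (δ : K → ℝ)
    (hp : ∀ κ σ, F κ (σ + N) = F κ σ) (hlip : ∀ κ σ, |F κ (σ + 1) - F κ σ| ≤ lam)
    (hfin : ∀ σ, ∃ A : Finset K, ∀ κ, κ ∉ A → wt ρ F δ κ σ = 0)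
    (few : ∀ (s : Finset (K × ℕ)), ∃ m ∈ Icc (1 : ℤ) (2 * n1 - 1),
      ∑ i ∈ s, wt ρ F δ i.1 i.2 ≤ 2 * n1 *
        ‖∑ i ∈ s, (wt ρ F δ i.1 i.2 : ℂ) * ee (m * (tauf N a0 (F i.1) i.2 / N))‖) :
    ∃ m ∈ Icc (1 : ℤ) (2 * n1 - 1), ρ ^ 2 / (8 * lam) ≤ 2 * n1 * ‖nu1 N a0 ρ F δ m‖ := by
  choose A hA using hfin
  obtain ⟨κ0, hκ0⟩ := Nu.mass N hρ hl hρN F δ hp hlip
  set U : Finset K := insert κ0 ((range N).biUnion fun σ : ℕ => A σ) with hU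
  obtain ⟨m, hm, h⟩ := few (U ×ˢ range N)
  refine ⟨m, hm, ?_⟩
  rw [nu1_eq N a0 ρ F δ m U fun κ hκ σ hσ => hA _ κ fun h' =>
    hκ (mem_insert_of_mem (mem_biUnion.2 ⟨σ, hσ, h'⟩))]
  rw [sum_product, sum_product] at h
  simp only [← mul_div_assoc] at h
  refine hκ0.trans (le_trans ?_ h)
  exact single_le_sum (f := fun κ => ∑ σ ∈ range N, wt ρ F δ κ σ)
    (fun _ _ => sum_nonneg fun _ _ => wt_nonneg _ _ _ _ _) (mem_insert_self _ _)

end Pool.Agent.Lib.MP_7903c7_al.RF
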