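import Pool.Agent.Lib.MP_7903c7_al.RF.Defs

set_option autoImplicit false

namespace Pool.Agent.Lib.MP_7903c7_al.RF

open Finset
open scoped Classical Pointwise

/-- The vertex visited at the fine position `s`. -/
def jj (D : ℕ) (s : ℤ) : ℕ := D - (s % (D + 1 : ℕ)).toNat

/-- The time of the fine position `s`. -/
def tt (D : ℕ) (s : ℤ) : ℤ := s / (D + 1 : ℕ)

/-- The fine position of the vertex `j` at time `t`. -/
def io (D j : ℕ) (t : ℤ) : ℤ := t * (D + 1 : ℕ) + D - j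

/-- The trajectory has been passed at the fine position `s`. -/
def Pas (D : ℕ) (τ : ℕ → ℤ) (s : ℤ) : Prop := τ (jj D s) ≤ tt D s

/-- Some trajectory of the cell is passed at the step from `s` to `s + 1`. -/
def pat (D : ℕ) (A : Set (ℕ → ℤ)) (s : ℤ) : Prop := ∃ τ ∈ A, ¬ Pas D τ s ∧ Pas D τ (s + 1)

lemma jj_le (D : ℕ) (s : ℤ) : jj D s ≤ D := Nat.sub_le _ _

lemma io_div {D j : ℕ} (hj : j ≤ D) (t : ℤ) :
    io D j t / (D + 1 : ℕ) = t ∧ io D j t % (D + 1 : ℕ) = (D : ℤ) - j := by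
  have h0 : (0 : ℤ) < (D + 1 : ℕ) := by positivity
  refine (Int.ediv_emod_unique h0).mpr ⟨?_, ?_, ?_⟩
  · unfold io; ring
  · omega
  · push_cast; omega

lemma tt_io {D j : ℕ} (hj : j ≤ D) (t : ℤ) : tt D (io D j t) = t := (io_div hj t).1

lemma jj_io {D j : ℕ} (hj : j ≤ D) (t : ℤ) : jj D (io D j t) = j := by
  unfold jj
  rw [(io_div hj t).2]
  omega

lemma io_jj_tt (D : ℕ) (s : ℤ) : io D (jj D s) (tt D s) = s := by
  have h0 : (0 : ℤ) < (D + 1 : ℕ) := by positivity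
  have h1 := Int.emod_nonneg s h0.ne'
  have h2 := Int.emod_lt_of_pos s h0
  have h3 := Int.ediv_mul_add_emod s (D + 1 : ℕ)
  unfold io jj tt
  have h4 : ((D - (s % (D + 1 : ℕ)).toNat : ℕ) : ℤ) = D - s % (D + 1 : ℕ) := by
    push_cast at h1 h2 ⊢
    omega
  rw [h4]
  linarith

lemma exists_io (D : ℕ) (s : ℤ) : ∃ j ≤ D, ∃ t, s = io D j t :=
  ⟨_, jj_le D s, _, (io_jj_tt D s).symm⟩

lemma pas_io {D j : ℕ} (hj : j ≤ D) (τ : ℕ → ℤ) (t : ℤ) : Pas D τ (io D j t) ↔ τ j ≤ t := by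
  unfold Pas
  rw [jj_io hj, tt_io hj]

lemma io_add (D j : ℕ) (t a : ℤ) : io D j (t + a) = io D j t + a * (D + 1 : ℕ) := by
  unfold io; ring

lemma io_succ_pos (D j : ℕ) (t : ℤ) : io D (j + 1) t + 1 = io D j t := by
  unfold io; push_cast; ring

lemma io_succ_zero (D : ℕ) (t : ℤ) : io D 0 t + 1 = io D D (t + 1) := by
  unfold io; push_cast; ring

lemma pas_succ {D : ℕ} {τ : ℕ → ℤ} (h : Traj D τ) {s : ℤ} (hs : Pas D τ s) : Pas D τ (s + 1) := by
  obtain ⟨j, hj, t, rfl⟩ := exists_io D s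
  rw [pas_io hj] at hs
  rcases j with _ | j
  · rw [io_succ_zero, pas_io le_rfl]
    have := h.2.2 D
    omega
  · rw [io_succ_pos, pas_io (by omega)]
    exact (h.1 (Nat.le_succ j)).trans hs

lemma pas_mono {D : ℕ} {τ : ℕ → ℤ} (h : Traj D τ) {s s' : ℤ} (hss : s ≤ s') (hs : Pas D τ s) :
    Pas D τ s' := by
  induction s', hss using Int.leInduction with
  | base => exact hs
  | succ n _ ih => exact pas_succ h ih

lemma pas_add (D : ℕ) (τ : ℕ → ℤ) (a s : ℤ) :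
    Pas D (fun j => τ j + a) (s + a * (D + 1 : ℕ)) ↔ Pas D τ s := by
  obtain ⟨j, hj, t, rfl⟩ := exists_io D s
  rw [← io_add, pas_io hj, pas_io hj]
  omega

lemma exists_switch {U : ℤ → Prop} {a b : ℤ} (hab : a ≤ b) (ha : ¬ U a) (hb : U b) :
    ∃ s, a ≤ s ∧ s < b ∧ ¬ U s ∧ U (s + 1) := by
  induction b, hab using Int.leInduction with
  | base => exact absurd hb ha
  | succ n hn ih =>
    by_cases h : U n
    · obtain ⟨s, h1, h2, h3⟩ := ih h
      exact ⟨s, h1, by omega, h3⟩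
    · exact ⟨n, hn, by omega, h, hb⟩

lemma per_add {N : ℕ} {F : Finset (ℕ → ℤ)} {τ : ℕ → ℤ} (h : τ ∈ per N F) (a : ℤ) :
    (fun j => τ j + a * N) ∈ per N F := by
  obtain ⟨σ, hσ, b, rfl⟩ := h
  exact ⟨σ, hσ, b + a, funext fun j => by ring⟩

lemma traj_add {D : ℕ} {τ : ℕ → ℤ} (h : Traj D τ) (a : ℤ) : Traj D fun j => τ j + a :=
  ⟨fun i j hij => by have := h.1 hij; simpa using this, fun j => congrArg (· + a) (h.2.1 j),
    fun j => by have := h.2.2 j; simp only; omega⟩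

lemma Cell.traj {N D m : ℕ} {A : Set (ℕ → ℤ)} (h : Cell N D m A) {τ : ℕ → ℤ} (hτ : τ ∈ A) :
    Traj D τ := by
  obtain ⟨F, -, -, hF, rfl⟩ := h
  obtain ⟨σ, hσ, b, rfl⟩ := hτ
  exact traj_add (hF σ hσ) _

lemma Cell.sh {N D m : ℕ} {A : Set (ℕ → ℤ)} (h : Cell N D m A) : Cell N D m (sh A) := by
  obtain ⟨F, h1, h2, hF, rfl⟩ := h
  refine ⟨F.image fun τ j => τ j + 1, h1.image _, card_image_le.trans h2, ?_, ?_⟩
  · intro τ hτ
    obtain ⟨σ, hσ, rfl⟩ := mem_image.mp hτ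
    exact traj_add (hF σ hσ) 1
  · ext τ
    constructor
    · rintro ⟨_, ⟨σ, hσ, b, rfl⟩, rfl⟩
      exact ⟨_, mem_image_of_mem _ hσ, b, funext fun j => by ring⟩
    · rintro ⟨_, hσ', b, rfl⟩
      obtain ⟨σ, hσ, rfl⟩ := mem_image.mp hσ'
      exact ⟨_, ⟨σ, hσ, b, rfl⟩, funext fun j => by ring⟩

lemma pat_per {N D m : ℕ} {A : Set (ℕ → ℤ)} (h : Cell N D m A) (s : ℤ) :
    pat D A (s + (N * (D + 1) : ℕ)) ↔ pat D A s := by
  obtain ⟨F, -, -, -, rfl⟩ := h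
  have e : ((N * (D + 1) : ℕ) : ℤ) = (N : ℤ) * (D + 1 : ℕ) := by push_cast; ring
  constructor
  · rintro ⟨τ, hτ, h1, h2⟩
    refine ⟨_, per_add hτ (-1), ?_, ?_⟩
    · rw [← pas_add D _ N]
      simpa [e] using h1
    · rw [← pas_add D _ N]
      have : s + 1 + (N : ℤ) * (D + 1 : ℕ) = s + (N * (D + 1) : ℕ) + 1 := by rw [e]; ring
      rw [this]
      simpa using h2
  · rintro ⟨τ, hτ, h1, h2⟩
    refine ⟨_, per_add hτ 1, ?_, ?_⟩
    · rw [e, one_mul, pas_add]; exact h1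
    · have : s + (N * (D + 1) : ℕ) + 1 = s + 1 + (N : ℤ) * (D + 1 : ℕ) := by rw [e]; ring
      rw [this, one_mul, pas_add]; exact h2

lemma pat_card {N D m : ℕ} {A : Set (ℕ → ℤ)} (h : Cell N D m A) :
    ((range (N * (D + 1))).filter fun i : ℕ => pat D A i).card ≤ m := by
  obtain ⟨F, hne, h2, hF, rfl⟩ := h
  have key : ∀ i : ℕ, ∃ σ : ℕ → ℤ, pat D (per N F) i → σ ∈ F ∧ ∃ a : ℤ,
      ¬ Pas D σ (i - a * (N * (D + 1) : ℕ)) ∧ Pas D σ (i - a * (N * (D + 1) : ℕ) + 1) := by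
    intro i
    by_cases hi : pat D (per N F) i
    · obtain ⟨_, ⟨σ, hσ, a, rfl⟩, h1, h2⟩ := hi
      refine ⟨σ, fun _ => ⟨hσ, a, ?_, ?_⟩⟩
      · rw [← pas_add D σ (a * N)]
        have : (i : ℤ) - a * (N * (D + 1) : ℕ) + a * N * (D + 1 : ℕ) = i := by push_cast; ring
        rwa [this]
      · rw [← pas_add D σ (a * N)]
        have : (i : ℤ) - a * (N * (D + 1) : ℕ) + 1 + a * N * (D + 1 : ℕ) = i + 1 := by
          push_cast; ring
        rwa [this]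
    · exact ⟨0, fun h => absurd h hi⟩
  choose f hf using key
  refine le_trans (card_le_card_of_injOn f ?_ ?_) h2
  · intro i hi
    exact (hf i (mem_filter.mp hi).2).1
  · intro i hi i' hi' he
    obtain ⟨hi1, hi2⟩ := mem_filter.mp hi
    obtain ⟨hi1', hi2'⟩ := mem_filter.mp hi'
    obtain ⟨hσ, a, h1, h3⟩ := hf i hi2
    obtain ⟨-, a', h1', h3'⟩ := hf i' hi2'
    rw [← he] at h1' h3'
    have ht := hF _ hσ
    have e : (i : ℤ) - a * (N * (D + 1) : ℕ) = i' - a' * (N * (D + 1) : ℕ) := by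
      by_contra hne'
      rcases lt_or_gt_of_ne hne' with hlt | hlt
      · exact h1' (pas_mono ht (by omega) h3)
      · exact h1 (pas_mono ht (by omega) h3')
    rw [mem_range] at hi1 hi1'
    generalize N * (D + 1) = M at *
    have h5 : (i : ℤ) - i' = (a - a') * M := by linarith
    have h6 : a - a' = 0 := by
      by_contra h7
      rcases lt_or_gt_of_ne h7 with hlt | hlt
      · nlinarith [Nat.cast_nonneg (α := ℤ) i, (by exact_mod_cast hi1' : (i' : ℤ) < M)]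
      · nlinarith [Nat.cast_nonneg (α := ℤ) i', (by exact_mod_cast hi1 : (i : ℤ) < M)]
    rw [h6] at h5
    omega

lemma pat_block {D : ℕ} {A : Set (ℕ → ℤ)} (hA : ∀ τ ∈ A, Traj D τ) {a b : ℤ} (hab : a ≤ b) :
    (∃ s, a ≤ s ∧ s < b ∧ pat D A s) ↔ ∃ τ ∈ A, ¬ Pas D τ a ∧ Pas D τ b := by
  constructor
  · rintro ⟨s, h1, h2, τ, hτ, h3, h4⟩
    exact ⟨τ, hτ, fun h => h3 (pas_mono (hA τ hτ) h1 h), pas_mono (hA τ hτ) (by omega) h4⟩
  · rintro ⟨τ, hτ, h1, h2⟩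
    obtain ⟨s, h3, h4, h5⟩ := exists_switch hab h1 h2
    exact ⟨s, h3, h4, τ, hτ, h5⟩

/-- The fine positions that remain after the vertex `j` is removed. -/
def skip (D j : ℕ) (s : ℤ) : ℤ := io (D + 1) (face (D + 1) j (jj D s)) (tt D s)

lemma face_le (D j i : ℕ) : face (D + 1) j i ≤ D + 1 := by
  unfold face; split_ifs <;> omega

lemma skip_io {D i : ℕ} (j : ℕ) (hi : i ≤ D) (t : ℤ) :
    skip D j (io D i t) = io (D + 1) (face (D + 1) j i) t := by
  unfold skip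
  rw [jj_io hi, tt_io hi]

lemma skip_mono (D j : ℕ) : StrictMono (skip D j) := by
  refine strictMono_int_of_lt_succ fun s => ?_
  obtain ⟨i, hi, t, rfl⟩ := exists_io D s
  rcases i with _ | i
  · rw [io_succ_zero, skip_io j le_rfl, skip_io j hi]
    have h1 : D ≤ face (D + 1) j D ∧ face (D + 1) j D ≤ D + 1 := by
      unfold face; split_ifs <;> omega
    have h2 : face (D + 1) j D ≤ D + face (D + 1) j 0 + 1 := by omega
    rw [io_add]
    unfold io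
    omega
  · rw [io_succ_pos, skip_io j hi, skip_io j (by omega)]
    have : face (D + 1) j i < face (D + 1) j (i + 1) := by
      unfold face; split_ifs <;> omega
    unfold io
    omega

lemma skip_per (D j N : ℕ) (s : ℤ) :
    skip D j (s + (N * (D + 1) : ℕ)) = skip D j s + (N * (D + 1 + 1) : ℕ) := by
  obtain ⟨i, hi, t, rfl⟩ := exists_io D s
  have e : ((N * (D + 1) : ℕ) : ℤ) = (N : ℤ) * (D + 1 : ℕ) := by push_cast; ring
  rw [e, ← io_add, skip_io j hi, skip_io j hi, io_add]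
  push_cast; ring

lemma pat_skip {D j : ℕ} {A : Set (ℕ → ℤ)} (hA : ∀ τ ∈ A, Traj (D + 1) τ) (s : ℤ) :
    (∃ u, skip D j s ≤ u ∧ u < skip D j (s + 1) ∧ pat (D + 1) A u) ↔
      pat D (pull (face (D + 1) j) A) s := by
  have key : ∀ (τ : ℕ → ℤ) (u : ℤ),
      Pas (D + 1) τ (skip D j u) ↔ Pas D (τ ∘ face (D + 1) j) u := by
    intro τ u
    unfold skip
    rw [pas_io (face_le _ _ _)]
    rfl
  rw [pat_block hA ((skip_mono D j).monotone (by omega))]
  constructor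
  · rintro ⟨τ, hτ, h1, h2⟩
    exact ⟨_, ⟨τ, hτ, rfl⟩, fun h => h1 ((key _ _).mpr h), (key _ _).mp h2⟩
  · rintro ⟨_, ⟨τ, hτ, rfl⟩, h1, h2⟩
    exact ⟨τ, hτ, fun h => h1 ((key _ _).mp h), (key _ _).mpr h2⟩

lemma pat_sh (D : ℕ) (A : Set (ℕ → ℤ)) (s : ℤ) :
    (∃ u, s - (D + 1 : ℕ) ≤ u ∧ u < s + 1 - (D + 1 : ℕ) ∧ pat D A u) ↔ pat D (sh A) s := by
  have key : ∀ (τ : ℕ → ℤ) (u : ℤ),
      Pas D (fun j => τ j + 1) u ↔ Pas D τ (u - (D + 1 : ℕ)) := by
    intro τ u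
    rw [← pas_add D τ 1]
    simp
  constructor
  · rintro ⟨u, h1, h2, τ, hτ, h3, h4⟩
    have : u = s - (D + 1 : ℕ) := by omega
    subst this
    refine ⟨_, ⟨τ, hτ, rfl⟩, fun h => h3 ((key _ _).mp h), (key _ _).mpr ?_⟩
    rwa [show s + 1 - ((D + 1 : ℕ) : ℤ) = s - (D + 1 : ℕ) + 1 by ring]
  · rintro ⟨_, ⟨τ, hτ, rfl⟩, h1, h2⟩
    refine ⟨s - (D + 1 : ℕ), le_rfl, by omega, τ, hτ, fun h => h1 ((key _ _).mpr h), ?_⟩
    have := (key _ _).mp h2
    rwa [show s + 1 - ((D + 1 : ℕ) : ℤ) = s - (D + 1 : ℕ) + 1 by ring] at this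

lemma pat_pt {N : ℕ} (hN : 0 < N) (i : ℤ) :
    ∃ s, i * N ≤ s ∧ s < (i + 1) * N ∧ pat 0 (per N {fun _ => 0}) s := by
  refine ⟨(i + 1) * N - 1, by nlinarith [(by exact_mod_cast hN : (1 : ℤ) ≤ N)], by omega,
    fun _ => 0 + (i + 1) * N, ⟨_, mem_singleton_self _, i + 1, rfl⟩, ?_, ?_⟩ <;>
  simp [Pas, tt]

/-- The list of the vertices of a long loop. -/
def lst {G : Type} (D : ℕ) (Γ : ℤ → G) : List (ℤ → G) :=
  (List.range (D + 1)).map fun j t => Γ (io D j t)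

lemma lst_length {G : Type} (D : ℕ) (Γ : ℤ → G) : (lst D Γ).length = D + 1 := by simp [lst]

lemma mem_lst {G : Type} {D : ℕ} {Γ γ : ℤ → G} (h : γ ∈ lst D Γ) :
    ∃ j ≤ D, γ = fun t => Γ (io D j t) := by
  obtain ⟨j, hj, rfl⟩ := List.mem_map.mp h
  exact ⟨j, Nat.lt_succ_iff.mp (List.mem_range.mp hj), rfl⟩

lemma lst_skip {G : Type} {D j : ℕ} (hj : j ≤ D + 1) (Γ : ℤ → G) :
    lst D (Γ ∘ skip D j) = (lst (D + 1) Γ).eraseIdx j := by
  have hl : ((lst (D + 1) Γ).eraseIdx j).length = D + 1 := by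
    rw [List.length_eraseIdx, lst_length, if_pos (by omega)]
    rfl
  refine List.ext_getElem (by rw [hl, lst_length]) fun i h1 h2 => ?_
  rw [lst_length] at h1
  rw [List.getElem_eraseIdx]
  have hi : i ≤ D := by omega
  split_ifs with h
  · simp only [lst, List.getElem_map, List.getElem_range, Function.comp, skip_io j hi]
    have : face (D + 1) j i = i := by unfold face; split_ifs <;> omega
    rw [this]
  · simp only [lst, List.getElem_map, List.getElem_range, Function.comp, skip_io j hi]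
    have : face (D + 1) j i = i + 1 := by unfold face; split_ifs <;> omega
    rw [this]

lemma lst_sh {G : Type} (D : ℕ) (Γ : ℤ → G) :
    lst D (Γ ∘ fun s => s - (D + 1 : ℕ)) = (lst D Γ).map fun γ t => γ (t - 1) := by
  simp only [lst, List.map_map]
  refine List.map_congr_left fun j _ => funext fun t => ?_
  simp only [Function.comp]
  congr 1
  unfold io; ring

lemma lst_mul {G : Type} [Group G] (D : ℕ) (Γ : ℤ → G) (c : G) :
    lst D (fun i => c * Γ i) = (lst D Γ).map fun γ t => c * γ t := by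
  simp only [lst, List.map_map]
  rfl

lemma lst_loop {G : Type} [Group G] {g : G} {N D : ℕ} {Γ : ℤ → G} (h : IsLoop g (N * (D + 1)) Γ) :
    ∀ γ ∈ lst D Γ, IsLoop g N γ := by
  intro γ hγ t
  obtain ⟨j, -, rfl⟩ := mem_lst hγ
  simp only
  rw [io_add, ← h]
  congr 2

end Pool.Agent.Lib.MP_7903c7_al.RF
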